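import Pool.Agent.DHC.St

/-!
# DHC, module Car: the canonical relations
-/

set_option autoImplicit false

namespace Pool.Agent.DHC

section

variable {ι : Type} [LinearOrder ι]

theorem Car_sg_sq (i : ι) (S : Finset ι) : sg i S * sg i S = 1 := by
  unfold sg
  rw [← mul_pow, neg_one_mul, neg_neg, one_pow]

theorem Car_sg_insert {i j : ι} {S : Finset ι} (hi : i ∉ S) (_hij : i ≠ j) :
    sg j (insert i S) = if i < j then -sg j S else sg j S := by
  unfold sg
  rw [Finset.filter_insert]
  by_cases h : i < j
  · rw [if_pos h, if_pos h, Finset.card_insert_of_notMem (by simp [hi]), pow_succ]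
    ring
  · rw [if_neg h, if_neg h]

theorem Car_sg_self (i : ι) (S : Finset ι) : sg i (insert i S) = sg i S := by
  unfold sg
  rw [Finset.filter_insert, if_neg (lt_irrefl i)]

theorem Car_sg_erase {i j : ι} {S : Finset ι} (hi : i ∈ S) (hij : i ≠ j) :
    sg j (S.erase i) = if i < j then -sg j S else sg j S := by
  have h := Car_sg_insert (j := j) (Finset.notMem_erase i S) hij
  rw [Finset.insert_erase hi] at h
  rw [h]
  split_ifs <;> simp

theorem Car_sg_erase_self (i : ι) (S : Finset ι) : sg i (S.erase i) = sg i S := by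
  by_cases h : i ∈ S
  · conv_rhs => rw [← Finset.insert_erase h, Car_sg_self]
  · rw [Finset.erase_eq_of_notMem h]

variable {R : Type} [CommRing R]

theorem Car_cr (i : ι) (f : Finset ι → R) (S : Finset ι) :
    (cr i : Module.End R (Finset ι → R)) f S = if i ∈ S then (sg i S : R) * f (S.erase i) else 0 :=
  rfl

theorem Car_an (i : ι) (f : Finset ι → R) (S : Finset ι) :
    (an i : Module.End R (Finset ι → R)) f S = if i ∈ S then 0 else (sg i S : R) * f (insert i S) :=
  rfl

theorem Car_cr_cr (i j : ι) : (cr i * cr j : Module.End R (Finset ι → R)) = -(cr j * cr i) := by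
  refine LinearMap.ext fun f => funext fun S => ?_
  rw [LinearMap.neg_apply, Pi.neg_apply, Module.End.mul_apply, Module.End.mul_apply,
    Car_cr, Car_cr, Car_cr, Car_cr]
  by_cases hij : i = j
  · subst hij
    simp
  have hji : j ≠ i := Ne.symm hij
  by_cases hi : i ∈ S
  · by_cases hj : j ∈ S
    · have e1 : (S.erase j).erase i = (S.erase i).erase j := Finset.erase_right_comm
      rw [if_pos hi, if_pos (Finset.mem_erase.2 ⟨hji, hj⟩), if_pos hj,
        if_pos (Finset.mem_erase.2 ⟨hij, hi⟩), e1, Car_sg_erase hi hij, Car_sg_erase hj hji]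
      rcases lt_or_gt_of_ne hij with h | h
      · rw [if_pos h, if_neg (not_lt_of_gt h)]
        push_cast
        ring
      · rw [if_neg (not_lt_of_gt h), if_pos h]
        push_cast
        ring
    · rw [if_pos hi, if_neg (fun h => hj (Finset.mem_of_mem_erase h)), if_neg hj]
      simp
  · rw [if_neg hi]
    by_cases hj : j ∈ S
    · rw [if_pos hj, if_neg (fun h => hi (Finset.mem_of_mem_erase h))]
      simp
    · rw [if_neg hj]
      simp

theorem Car_cr_self (i : ι) : (cr i * cr i : Module.End R (Finset ι → R)) = 0 := by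
  refine LinearMap.ext fun f => funext fun S => ?_
  rw [Module.End.mul_apply, Car_cr, Car_cr, if_neg (Finset.notMem_erase i S)]
  simp

theorem Car_an_cr (i j : ι) : (an i * cr j : Module.End R (Finset ι → R)) + cr j * an i =
    if i = j then 1 else 0 := by
  refine LinearMap.ext fun f => funext fun S => ?_
  rw [LinearMap.add_apply, Pi.add_apply, Module.End.mul_apply, Module.End.mul_apply,
    Car_an, Car_cr, Car_cr, Car_an]
  by_cases hij : i = j
  · subst hij
    rw [if_pos rfl]
    by_cases hi : i ∈ S
    · rw [if_pos hi, if_pos hi, if_neg (Finset.notMem_erase i S), Car_sg_erase_self,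
        Finset.insert_erase hi, zero_add, ← mul_assoc, ← Int.cast_mul, Car_sg_sq, Int.cast_one,
        one_mul]
      rfl
    · rw [if_neg hi, if_neg hi, if_pos (Finset.mem_insert_self i S), Car_sg_self,
        Finset.erase_insert hi, add_zero, ← mul_assoc, ← Int.cast_mul, Car_sg_sq, Int.cast_one,
        one_mul]
      rfl
  · have hji : j ≠ i := Ne.symm hij
    rw [if_neg hij]
    change _ = (0 : R)
    by_cases hi : i ∈ S
    · rw [if_pos hi]
      by_cases hj : j ∈ S
      · rw [if_pos hj, if_pos (Finset.mem_erase.2 ⟨hij, hi⟩)]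
        simp
      · rw [if_neg hj]
        simp
    · rw [if_neg hi]
      by_cases hj : j ∈ S
      · have e1 : (insert i S).erase j = insert i (S.erase j) := Finset.erase_insert_of_ne hij
        rw [if_pos (Finset.mem_insert_of_mem hj), if_pos hj,
          if_neg (fun h => hi (Finset.mem_of_mem_erase h)), e1, Car_sg_insert hi hij,
          Car_sg_erase hj hji]
        rcases lt_or_gt_of_ne hij with h | h
        · rw [if_pos h, if_neg (not_lt_of_gt h)]
          push_cast
          ring
        · rw [if_neg (not_lt_of_gt h), if_pos h]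
          push_cast
          ring
      · rw [if_neg (fun h => hj (Finset.mem_of_mem_insert_of_ne h hji)), if_neg hj]
        simp

theorem Car_an_vac (i : ι) : (an i : Module.End R (Finset ι → R)) vac = 0 := by
  funext S
  rw [Car_an]
  by_cases hi : i ∈ S
  · rw [if_pos hi]
    rfl
  · rw [if_neg hi]
    unfold vac
    rw [if_neg (Finset.insert_ne_empty i S), mul_zero]
    rfl

theorem Car_top [Fintype ι] (i j l : ι) (f : Finset ι → R) (hi : l ≠ i) (hj : l ≠ j) :
    (cr i * cr j * an l : Module.End R (Finset ι → R)) f Finset.univ = 0 := by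
  rw [Module.End.mul_apply, Module.End.mul_apply, Car_cr, if_pos (Finset.mem_univ i), Car_cr]
  by_cases h : j ∈ Finset.univ.erase i
  · rw [if_pos h, Car_an, if_pos (Finset.mem_erase.2 ⟨hj, Finset.mem_erase.2
      ⟨hi, Finset.mem_univ l⟩⟩)]
    simp
  · rw [if_neg h, mul_zero]

variable {R' : Type} [CommRing R']

theorem Car_map_cr (φ : R →+* R') (i : ι) (f : Finset ι → R) :
    (fun S => φ ((cr i : Module.End R (Finset ι → R)) f S)) =
      (cr i : Module.End R' (Finset ι → R')) fun S => φ (f S) := by
  funext S
  rw [Car_cr, Car_cr]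
  split_ifs
  · rw [map_mul, map_intCast]
  · exact map_zero φ

theorem Car_map_WW [Fintype ι] (φ : R →+* R') (Ω : ι → ι → R) (f : Finset ι → R) :
    (fun S => φ (WW Ω f S)) = WW (fun i j => φ (Ω i j)) fun S => φ (f S) := by
  funext S
  unfold WW
  simp only [LinearMap.sum_apply, Finset.sum_apply, LinearMap.smul_apply, Pi.smul_apply,
    smul_eq_mul, map_sum, map_mul, Module.End.mul_apply]
  refine Finset.sum_congr rfl fun i _ => Finset.sum_congr rfl fun j _ => ?_
  congr 1
  have h1 := congrFun (Car_map_cr φ i ((cr j : Module.End R (Finset ι → R)) f)) S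
  rw [Car_map_cr φ j f] at h1
  exact h1

theorem Car_map_pow [Fintype ι] (φ : R →+* R') (Ω : ι → ι → R) (N : ℕ) :
    (fun S => φ (((WW Ω) ^ N) vac S)) = ((WW fun i j => φ (Ω i j)) ^ N) vac := by
  induction N with
  | zero =>
    funext S
    rw [pow_zero, pow_zero]
    change φ (vac S) = vac S
    unfold vac
    split_ifs
    · exact map_one φ
    · exact map_zero φ
  | succ N ih =>
    rw [pow_succ', pow_succ']
    have h := Car_map_WW φ Ω (((WW Ω) ^ N) vac)
    rw [ih] at h
    exact h

end

theorem thm_Car : St_Car := by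
  intro ι _ _ R _
  exact ⟨Car_cr_cr, Car_cr_self, Car_an_cr, Car_an_vac,
    fun i j l f hi hj => Car_top i j l f hi hj,
    fun R' _ φ Ω N => congrFun (Car_map_pow φ Ω N) Finset.univ⟩

end Pool.Agent.DHC
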