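import Pool.Agent.DHC.St

/-!
# DHC: the 2-form is closed (Cnc)
-/

set_option autoImplicit false

open Matrix Complex MeasureTheory

namespace Pool.Agent.DHC

open Pool.Agent.Helper69.Cart Pool.Agent.Helper44.Cart

variable {n : ℕ}

theorem Cnc_mul (D : Derivation ℂ (Rg n) (Rg n)) (M N : Matrix (Fin n) (Fin n) (Rg n)) :
    (M * N).map D = M.map D * N + M * N.map D := by
  refine Matrix.ext fun p q => ?_
  rw [Matrix.map_apply, Matrix.add_apply, Matrix.mul_apply, Matrix.mul_apply, Matrix.mul_apply,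
    map_sum, ← Finset.sum_add_distrib]
  refine Finset.sum_congr rfl fun j _ => ?_
  rw [Derivation.leibniz, Matrix.map_apply, Matrix.map_apply, smul_eq_mul, smul_eq_mul]
  ring

theorem Cnc_tr (D : Derivation ℂ (Rg n) (Rg n)) (M : Matrix (Fin n) (Fin n) (Rg n)) :
    D (trace M) = trace (M.map D) := by
  unfold Matrix.trace
  rw [map_sum]
  rfl

theorem Cnc_cM_mul (A B : Matrix (Fin n) (Fin n) ℂ) : cM (A * B) = cM A * cM B :=
  map_mul (MvPolynomial.C : ℂ →+* Rg n).mapMatrix A B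

theorem Cnc_cM_sub (A B : Matrix (Fin n) (Fin n) ℂ) : cM (A - B) = cM A - cM B :=
  map_sub (MvPolynomial.C : ℂ →+* Rg n).mapMatrix A B

theorem Cnc_cM_add (A B : Matrix (Fin n) (Fin n) ℂ) : cM (A + B) = cM A + cM B :=
  map_add (MvPolynomial.C : ℂ →+* Rg n).mapMatrix A B

theorem Cnc_cM_zero : cM (0 : Matrix (Fin n) (Fin n) ℂ) = 0 :=
  map_zero (MvPolynomial.C : ℂ →+* Rg n).mapMatrix

theorem Cnc_cM_smul (c : ℂ) (A : Matrix (Fin n) (Fin n) ℂ) :
    cM (c • A) = (MvPolynomial.C c : Rg n) • cM A := by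
  refine Matrix.ext fun p q => ?_
  exact map_mul (MvPolynomial.C : ℂ →+* Rg n) c (A p q)

theorem Cnc_D_cM (D : Derivation ℂ (Rg n) (Rg n)) (A : Matrix (Fin n) (Fin n) ℂ) :
    (cM A).map D = 0 := by
  refine Matrix.ext fun p q => ?_
  show D (MvPolynomial.C (A p q)) = 0
  exact D.map_algebraMap (A p q)

theorem Cnc_dlU (ξ : Bool → Matrix (Fin n) (Fin n) ℂ) (w : Bool) :
    (mU w : Matrix (Fin n) (Fin n) (Rg n)).map (dl ξ) = mU w * cM (ξ w) := by
  refine Matrix.ext fun p q => ?_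
  show dl ξ (MvPolynomial.X (some (w, false, p, q))) = _
  unfold dl
  rw [MvPolynomial.mkDerivation_X]

theorem Cnc_dlD (ξ : Bool → Matrix (Fin n) (Fin n) ℂ) (w : Bool) :
    (mD w : Matrix (Fin n) (Fin n) (Rg n)).map (dl ξ) = -(cM (ξ w) * mD w) := by
  refine Matrix.ext fun p q => ?_
  show dl ξ (MvPolynomial.X (some (w, true, p, q))) = _
  unfold dl
  rw [MvPolynomial.mkDerivation_X]
  rfl

theorem Cnc_dkU (w : Bool) : (mU w : Matrix (Fin n) (Fin n) (Rg n)).map dk = 0 := by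
  refine Matrix.ext fun p q => ?_
  show dk (MvPolynomial.X (some (w, false, p, q))) = _
  unfold dk
  rw [MvPolynomial.mkDerivation_X]
  rfl

theorem Cnc_dkD (w : Bool) : (mD w : Matrix (Fin n) (Fin n) (Rg n)).map dk = 0 := by
  refine Matrix.ext fun p q => ?_
  show dk (MvPolynomial.X (some (w, true, p, q))) = _
  unfold dk
  rw [MvPolynomial.mkDerivation_X]
  rfl

theorem Cnc_conj (ξ : Bool → Matrix (Fin n) (Fin n) ℂ) (w : Bool)
    (A : Matrix (Fin n) (Fin n) ℂ) :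
    (mU w * cM A * mD w).map (dl ξ) = mU w * cM (ξ w * A - A * ξ w) * mD w := by
  rw [Cnc_mul, Cnc_mul, Cnc_dlU, Cnc_dlD, Cnc_D_cM, Cnc_cM_sub, Cnc_cM_mul, Cnc_cM_mul]
  noncomm_ring

theorem Cnc_conjk (w : Bool) (A : Matrix (Fin n) (Fin n) ℂ) :
    (mU w * cM A * mD w).map dk = 0 := by
  rw [Cnc_mul, Cnc_mul, Cnc_dkU, Cnc_dkD, Cnc_D_cM]
  noncomm_ring

/-- the derivative of `A` -/
theorem Cnc_dlA (ξ : Bool → Matrix (Fin n) (Fin n) ℂ) (w : Bool) (a : Fin n → ℝ) :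
    (mA w a).map (dl ξ) = aD w a ξ := Cnc_conj ξ w (dg a)

/-- the bracket -/
def Cnc_br (ξ η : Bool → Matrix (Fin n) (Fin n) ℂ) : Bool → Matrix (Fin n) (Fin n) ℂ :=
  fun w => ξ w * η w - η w * ξ w

theorem Cnc_dlaD (ξ η : Bool → Matrix (Fin n) (Fin n) ℂ) (w : Bool) (a : Fin n → ℝ) :
    (aD w a η).map (dl ξ) = (aD w a ξ).map (dl η) + aD w a (Cnc_br ξ η) := by
  unfold aD
  rw [Cnc_conj, Cnc_conj, ← add_mul, ← mul_add, ← Cnc_cM_add]
  have h : ξ w * (η w * dg a - dg a * η w) - (η w * dg a - dg a * η w) * ξ w =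
      η w * (ξ w * dg a - dg a * ξ w) - (ξ w * dg a - dg a * ξ w) * η w +
        (Cnc_br ξ η w * dg a - dg a * Cnc_br ξ η w) := by
    unfold Cnc_br
    noncomm_ring
  rw [h]

/-- the part of the 2-form with `κ` -/
noncomputable def Cnc_o (a b : Fin n → ℝ) (ξ η : Bool → Matrix (Fin n) (Fin n) ℂ) : Rg n :=
  trace (aD false a ξ * aD true b η) - trace (aD false a η * aD true b ξ)

/-- the constant part of the 2-form -/
noncomputable def Cnc_k (a b : Fin n → ℝ) (ξ η : Bool → Matrix (Fin n) (Fin n) ℂ) : ℂ :=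
  -I * trace (dg (fun i => a i ^ 2) * (ξ false * η false - η false * ξ false)) -
      I * trace (dg (fun i => b i ^ 2) * (ξ true * η true - η true * ξ true))

theorem Cnc_Om (a b : Fin n → ℝ) (ξ η : Bool → Matrix (Fin n) (Fin n) ℂ) :
    Om a b ξ η = MvPolynomial.C (Cnc_k a b ξ η) + MvPolynomial.X none * Cnc_o a b ξ η := rfl

theorem Cnc_tr_mul (D : Derivation ℂ (Rg n) (Rg n)) (M N : Matrix (Fin n) (Fin n) (Rg n)) :
    D (trace (M * N)) = trace (M.map D * N) + trace (M * N.map D) := by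
  rw [Cnc_tr, Cnc_mul, trace_add]

theorem Cnc_dl_Om (a b : Fin n → ℝ) (ξ η ζ : Bool → Matrix (Fin n) (Fin n) ℂ) :
    dl ξ (Om a b η ζ) = MvPolynomial.X none * dl ξ (Cnc_o a b η ζ) := by
  have h0 : dl ξ (MvPolynomial.X none) = 0 := by
    unfold dl
    rw [MvPolynomial.mkDerivation_X]
  have h1 : dl ξ (MvPolynomial.C (Cnc_k a b η ζ)) = 0 := (dl ξ).map_algebraMap _
  rw [Cnc_Om, map_add, h1, Derivation.leibniz, h0, smul_zero, add_zero, zero_add, smul_eq_mul]

theorem Cnc_dk_Om (a b : Fin n → ℝ) (η ζ : Bool → Matrix (Fin n) (Fin n) ℂ) :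
    dk (Om a b η ζ) = Cnc_o a b η ζ := by
  have h0 : dk (MvPolynomial.X none : Rg n) = 1 := by
    unfold dk
    rw [MvPolynomial.mkDerivation_X]
  have h1 : dk (MvPolynomial.C (Cnc_k a b η ζ) : Rg n) = 0 := dk.map_algebraMap _
  have h2 : ∀ (w : Bool) (c : Fin n → ℝ) (ξ : Bool → Matrix (Fin n) (Fin n) ℂ),
      (aD w c ξ).map dk = 0 := fun w c ξ => Cnc_conjk w _
  have h3 : dk (Cnc_o a b η ζ) = 0 := by
    unfold Cnc_o
    rw [map_sub, Cnc_tr_mul, Cnc_tr_mul, h2, h2, h2, h2]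
    simp
  rw [Cnc_Om, map_add, h1, Derivation.leibniz, h0, h3, smul_zero, zero_add, zero_add,
    smul_eq_mul, mul_one]

theorem Cnc_jac (a b : Fin n → ℝ) (ξ η ζ : Bool → Matrix (Fin n) (Fin n) ℂ) :
    Cnc_k a b (Cnc_br ξ η) ζ + Cnc_k a b (Cnc_br η ζ) ξ + Cnc_k a b (Cnc_br ζ ξ) η = 0 := by
  have key : ∀ (d X Y Z : Matrix (Fin n) (Fin n) ℂ),
      trace (d * ((X * Y - Y * X) * Z - Z * (X * Y - Y * X))) +
        trace (d * ((Y * Z - Z * Y) * X - X * (Y * Z - Z * Y))) +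
        trace (d * ((Z * X - X * Z) * Y - Y * (Z * X - X * Z))) = 0 := by
    intro d X Y Z
    rw [← trace_add, ← trace_add, ← mul_add, ← mul_add]
    have h : (X * Y - Y * X) * Z - Z * (X * Y - Y * X) +
        ((Y * Z - Z * Y) * X - X * (Y * Z - Z * Y)) +
        ((Z * X - X * Z) * Y - Y * (Z * X - X * Z)) = 0 := by noncomm_ring
    rw [h, mul_zero, trace_zero]
  have h1 := key (dg (fun i => a i ^ 2)) (ξ false) (η false) (ζ false)
  have h2 := key (dg (fun i => b i ^ 2)) (ξ true) (η true) (ζ true)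
  unfold Cnc_k Cnc_br
  linear_combination (-I) * h1 - I * h2

theorem Cnc_closed (a b : Fin n → ℝ) (ξ η ζ : Bool → Matrix (Fin n) (Fin n) ℂ) :
    dl ξ (Om a b η ζ) + dl η (Om a b ζ ξ) + dl ζ (Om a b ξ η) =
      Om a b (Cnc_br ξ η) ζ + Om a b (Cnc_br η ζ) ξ + Om a b (Cnc_br ζ ξ) η := by
  have hj : (MvPolynomial.C (Cnc_k a b (Cnc_br ξ η) ζ) + MvPolynomial.C (Cnc_k a b (Cnc_br η ζ) ξ) +
      MvPolynomial.C (Cnc_k a b (Cnc_br ζ ξ) η) : Rg n) = 0 := by
    rw [← map_add, ← map_add, Cnc_jac, map_zero]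
  have e1 := Cnc_dlaD ξ η false a
  have e2 := Cnc_dlaD η ζ false a
  have e3 := Cnc_dlaD ζ ξ false a
  have f1 := Cnc_dlaD ξ η true b
  have f2 := Cnc_dlaD η ζ true b
  have f3 := Cnc_dlaD ζ ξ true b
  rw [Cnc_dl_Om, Cnc_dl_Om, Cnc_dl_Om, Cnc_Om, Cnc_Om, Cnc_Om]
  have hmain : dl ξ (Cnc_o a b η ζ) + dl η (Cnc_o a b ζ ξ) + dl ζ (Cnc_o a b ξ η) =
      Cnc_o a b (Cnc_br ξ η) ζ + Cnc_o a b (Cnc_br η ζ) ξ + Cnc_o a b (Cnc_br ζ ξ) η := by
    unfold Cnc_o
    rw [map_sub, map_sub, map_sub, Cnc_tr_mul, Cnc_tr_mul, Cnc_tr_mul, Cnc_tr_mul, Cnc_tr_mul,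
      Cnc_tr_mul, e1, e2, e3, f1, f2, f3]
    simp only [add_mul, mul_add, trace_add]
    ring
  linear_combination (MvPolynomial.X none : Rg n) * hmain - hj

theorem Cnc_dth (a b : Fin n → ℝ) (ξ η : Bool → Matrix (Fin n) (Fin n) ℂ) :
    dk (Om a b ξ η) = dl ξ (th a b η) - dl η (th a b ξ) - th a b (Cnc_br ξ η) := by
  have f1 := Cnc_dlaD ξ η true b
  rw [Cnc_dk_Om]
  unfold th Cnc_o
  rw [Cnc_tr_mul, Cnc_tr_mul, Cnc_dlA, Cnc_dlA, f1, mul_add, trace_add]
  ring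

/-! ### linearity -/

/-- the coefficient of `bas l` -/
def Cnc_co (ξ : Bool → Matrix (Fin n) (Fin n) ℂ) (l : Ix n) : ℂ := ξ l.1 l.2.1.1 l.2.1.2

theorem Cnc_sum (ξ : Bool → Matrix (Fin n) (Fin n) ℂ) :
    ξ = ∑ l, Cnc_co ξ l • bas l + fun w => Matrix.diagonal fun p => ξ w p p := by
  funext w
  refine Matrix.ext fun p q => ?_
  rw [Pi.add_apply, Matrix.add_apply, Finset.sum_apply, Matrix.sum_apply]
  by_cases h : p = q
  · subst h
    rw [Matrix.diagonal_apply_eq, Finset.sum_eq_zero, zero_add]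
    intro l _
    rw [Pi.smul_apply, Matrix.smul_apply]
    unfold bas
    by_cases hw : w = l.1
    · rw [if_pos hw, Matrix.single_apply, if_neg, smul_zero]
      rintro ⟨h1, h2⟩
      exact l.2.2 (h1.trans h2.symm)
    · rw [if_neg hw]
      exact smul_zero _
  · have hs : ∑ c : Ix n, (Cnc_co ξ c • bas c) w p q = ξ w p q := by
      refine (Finset.sum_eq_single (((w, ⟨(p, q), h⟩) : Ix n)) ?_ ?_).trans ?_
      · intro l _ hl
        rw [Pi.smul_apply, Matrix.smul_apply]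
        unfold bas
        by_cases hw : w = l.1
        · rw [if_pos hw, Matrix.single_apply, if_neg, smul_zero]
          rintro ⟨h1, h2⟩
          refine hl ?_
          rcases l with ⟨w', ⟨⟨p', q'⟩, h'⟩⟩
          simp only at hw h1 h2
          subst hw
          subst h1
          subst h2
          rfl
        · rw [if_neg hw]
          exact smul_zero _
      · intro h'
        exact absurd (Finset.mem_univ _) h'
      · rw [Pi.smul_apply, Matrix.smul_apply]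
        unfold bas
        rw [if_pos rfl, Matrix.single_apply, if_pos ⟨rfl, rfl⟩]
        exact mul_one _
    rw [Matrix.diagonal_apply_ne _ h, add_zero]
    exact hs.symm

theorem Cnc_lin (L : (Bool → Matrix (Fin n) (Fin n) ℂ) →ₗ[ℂ] Rg n)
    (hL : ∀ d : Bool → Fin n → ℂ, L (fun w => Matrix.diagonal (d w)) = 0)
    (ξ : Bool → Matrix (Fin n) (Fin n) ℂ) :
    L ξ = ∑ l, MvPolynomial.C (Cnc_co ξ l) * L (bas l) := by
  have h : L ξ = L (∑ l, Cnc_co ξ l • bas l + fun w => Matrix.diagonal fun p => ξ w p p) :=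
    congrArg L (Cnc_sum ξ)
  rw [h, map_add, hL (fun w p => ξ w p p), add_zero, map_sum]
  refine Finset.sum_congr rfl fun l _ => ?_
  rw [map_smul, MvPolynomial.smul_eq_C_mul]

theorem Cnc_aD_add (w : Bool) (a : Fin n → ℝ) (ξ η : Bool → Matrix (Fin n) (Fin n) ℂ) :
    aD w a (ξ + η) = aD w a ξ + aD w a η := by
  unfold aD
  have h : (ξ + η) w * dg a - dg a * (ξ + η) w = (ξ w * dg a - dg a * ξ w) +
      (η w * dg a - dg a * η w) := by
    rw [Pi.add_apply]
    noncomm_ring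
  rw [h, Cnc_cM_add, mul_add, add_mul]

theorem Cnc_aD_smul (w : Bool) (a : Fin n → ℝ) (c : ℂ)
    (ξ : Bool → Matrix (Fin n) (Fin n) ℂ) :
    aD w a (c • ξ) = (MvPolynomial.C c : Rg n) • aD w a ξ := by
  unfold aD
  have h : (c • ξ) w * dg a - dg a * (c • ξ) w = c • (ξ w * dg a - dg a * ξ w) := by
    rw [Pi.smul_apply, smul_mul_assoc, mul_smul_comm, smul_sub]
  rw [h, Cnc_cM_smul, mul_smul_comm, smul_mul_assoc]

theorem Cnc_aD_diag (w : Bool) (a : Fin n → ℝ) (d : Bool → Fin n → ℂ) :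
    aD w a (fun w => Matrix.diagonal (d w)) = 0 := by
  unfold aD
  have h : Matrix.diagonal (d w) * dg a - dg a * Matrix.diagonal (d w) = 0 := by
    unfold dg
    rw [Matrix.diagonal_mul_diagonal, Matrix.diagonal_mul_diagonal, sub_eq_zero]
    refine congrArg Matrix.diagonal ?_
    funext i
    exact mul_comm _ _
  show mU w * cM (Matrix.diagonal (d w) * dg a - dg a * Matrix.diagonal (d w)) * mD w = 0
  rw [h, Cnc_cM_zero, mul_zero, zero_mul]

/-- the 2-form as a linear map -/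
noncomputable def Cnc_L (a b : Fin n → ℝ) (η : Bool → Matrix (Fin n) (Fin n) ℂ) :
    (Bool → Matrix (Fin n) (Fin n) ℂ) →ₗ[ℂ] Rg n where
  toFun ξ := Om a b ξ η
  map_add' ξ ξ' := by
    have hk : Cnc_k a b (ξ + ξ') η = Cnc_k a b ξ η + Cnc_k a b ξ' η := by
      unfold Cnc_k
      simp only [Pi.add_apply, add_mul, mul_add, mul_sub, trace_add, trace_sub]
      ring
    have ho : Cnc_o a b (ξ + ξ') η = Cnc_o a b ξ η + Cnc_o a b ξ' η := by
      unfold Cnc_o
      rw [Cnc_aD_add, Cnc_aD_add, add_mul, mul_add, trace_add, trace_add]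
      ring
    rw [Cnc_Om, Cnc_Om, Cnc_Om, hk, ho, map_add]
    ring
  map_smul' c ξ := by
    have hk : Cnc_k a b (c • ξ) η = c * Cnc_k a b ξ η := by
      unfold Cnc_k
      simp only [Pi.smul_apply, smul_mul_assoc, mul_smul_comm, mul_sub, trace_smul, trace_sub,
        smul_eq_mul]
      ring
    have ho : Cnc_o a b (c • ξ) η = MvPolynomial.C c * Cnc_o a b ξ η := by
      unfold Cnc_o
      rw [Cnc_aD_smul, Cnc_aD_smul, smul_mul_assoc, mul_smul_comm, trace_smul, trace_smul,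
        smul_eq_mul, smul_eq_mul]
      ring
    rw [Cnc_Om, Cnc_Om, hk, ho, map_mul, RingHom.id_apply, MvPolynomial.smul_eq_C_mul]
    ring

/-- the 1-form as a linear map -/
noncomputable def Cnc_T (a b : Fin n → ℝ) : (Bool → Matrix (Fin n) (Fin n) ℂ) →ₗ[ℂ] Rg n where
  toFun ξ := th a b ξ
  map_add' ξ ξ' := by
    unfold th
    rw [Cnc_aD_add, mul_add, trace_add]
  map_smul' c ξ := by
    unfold th
    rw [Cnc_aD_smul, mul_smul_comm, trace_smul, RingHom.id_apply, MvPolynomial.smul_eq_C_mul,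
      smul_eq_mul]

theorem Cnc_L_diag (a b : Fin n → ℝ) (η : Bool → Matrix (Fin n) (Fin n) ℂ)
    (d : Bool → Fin n → ℂ) : Cnc_L a b η (fun w => Matrix.diagonal (d w)) = 0 := by
  have key : ∀ (c : Fin n → ℝ) (D : Fin n → ℂ) (Y : Matrix (Fin n) (Fin n) ℂ),
      trace (dg c * (Matrix.diagonal D * Y - Y * Matrix.diagonal D)) = 0 := by
    intro c D Y
    have h1 : dg c * Matrix.diagonal D = Matrix.diagonal D * dg c := by
      unfold dg
      rw [Matrix.diagonal_mul_diagonal, Matrix.diagonal_mul_diagonal]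
      refine congrArg Matrix.diagonal ?_
      funext i
      exact mul_comm _ _
    rw [mul_sub, trace_sub, ← mul_assoc, h1, mul_assoc, trace_mul_comm, mul_assoc, sub_self]
  show Om a b (fun w => Matrix.diagonal (d w)) η = 0
  have hk : Cnc_k a b (fun w => Matrix.diagonal (d w)) η = 0 := by
    unfold Cnc_k
    rw [key, key, mul_zero, mul_zero, sub_zero]
  have ho : Cnc_o a b (fun w => Matrix.diagonal (d w)) η = 0 := by
    unfold Cnc_o
    rw [Cnc_aD_diag, Cnc_aD_diag, zero_mul, mul_zero, trace_zero, sub_zero]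
  rw [Cnc_Om, hk, ho, map_zero, mul_zero, add_zero]

theorem Cnc_T_diag (a b : Fin n → ℝ) (d : Bool → Fin n → ℂ) :
    Cnc_T a b (fun w => Matrix.diagonal (d w)) = 0 := by
  show th a b (fun w => Matrix.diagonal (d w)) = 0
  unfold th
  rw [Cnc_aD_diag, mul_zero, trace_zero]

theorem Cnc_Om_exp (a b : Fin n → ℝ) (ξ η : Bool → Matrix (Fin n) (Fin n) ℂ) :
    Om a b ξ η = ∑ l, MvPolynomial.C (Cnc_co ξ l) * Om a b (bas l) η :=
  Cnc_lin (Cnc_L a b η) (Cnc_L_diag a b η) ξ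

theorem Cnc_th_exp (a b : Fin n → ℝ) (ξ : Bool → Matrix (Fin n) (Fin n) ℂ) :
    th a b ξ = ∑ l, MvPolynomial.C (Cnc_co ξ l) * th a b (bas l) :=
  Cnc_lin (Cnc_T a b) (Cnc_T_diag a b) ξ

theorem Cnc_anti (a b : Fin n → ℝ) (ξ η : Bool → Matrix (Fin n) (Fin n) ℂ) :
    Om a b η ξ = -Om a b ξ η := by
  have hk : Cnc_k a b η ξ = -Cnc_k a b ξ η := by
    unfold Cnc_k
    simp only [mul_sub, trace_sub]
    ring
  have ho : Cnc_o a b η ξ = -Cnc_o a b ξ η := by
    unfold Cnc_o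
    ring
  rw [Cnc_Om, Cnc_Om, hk, ho, map_neg]
  ring

theorem Cnc_self (a b : Fin n → ℝ) (ξ : Bool → Matrix (Fin n) (Fin n) ℂ) :
    Om a b ξ ξ = 0 := by
  have hk : Cnc_k a b ξ ξ = 0 := by
    unfold Cnc_k
    simp
  have ho : Cnc_o a b ξ ξ = 0 := by
    unfold Cnc_o
    ring
  rw [Cnc_Om, hk, ho, map_zero, mul_zero, add_zero]

theorem Cnc_cc (i j l : Ix n) (h : l = i ∨ l = j) : cc i j l = 0 := by
  have key : ∀ (X Y : Matrix (Fin n) (Fin n) ℂ) (p q : Fin n), p ≠ q →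
      (X = Matrix.single p q 1 ∨ X = 0) →
      (Y = 0 ∨ ∃ r s, r ≠ s ∧ Y = Matrix.single r s 1) → (X * Y - Y * X) p q = 0 := by
    rintro X Y p q hpq (rfl | rfl) (rfl | ⟨r, s, hrs, rfl⟩)
    · simp
    · rw [Matrix.sub_apply]
      have e1 : (Matrix.single p q (1 : ℂ) * Matrix.single r s 1 : Matrix (Fin n) (Fin n) ℂ) p q = 0 := by
        by_cases hqr : q = r
        · subst hqr
          rw [Matrix.single_mul_single_same, Matrix.single_apply, if_neg]
          rintro ⟨_, h2⟩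
          exact hrs h2.symm
        · rw [Matrix.single_mul_single_of_ne _ _ _ _ hqr]
          rfl
      have e2 : (Matrix.single r s (1 : ℂ) * Matrix.single p q 1 : Matrix (Fin n) (Fin n) ℂ) p q = 0 := by
        by_cases hsp : s = p
        · subst hsp
          rw [Matrix.single_mul_single_same, Matrix.single_apply, if_neg]
          rintro ⟨h1, _⟩
          exact hrs h1
        · rw [Matrix.single_mul_single_of_ne _ _ _ _ hsp]
          rfl
      rw [e1, e2, sub_zero]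
    · simp
    · simp
  have hb : ∀ (k : Ix n) (w : Bool), bas k w = 0 ∨
      ∃ r s, r ≠ s ∧ bas k w = Matrix.single r s (1 : ℂ) := by
    intro k w
    unfold bas
    by_cases hw : w = k.1
    · rw [if_pos hw]
      exact Or.inr ⟨_, _, k.2.2, rfl⟩
    · rw [if_neg hw]
      exact Or.inl rfl
  have hs : ∀ k : Ix n, bas k k.1 = Matrix.single k.2.1.1 k.2.1.2 (1 : ℂ) := by
    intro k
    unfold bas
    rw [if_pos rfl]
  unfold cc
  rcases h with rfl | rfl
  · exact key _ _ _ _ l.2.2 (Or.inl (hs l)) (hb j l.1)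
  · have h1 := key _ _ _ _ l.2.2 (Or.inl (hs l)) (hb i l.1)
    have h2 : bas i l.1 * bas l l.1 - bas l l.1 * bas i l.1 =
        -(bas l l.1 * bas i l.1 - bas i l.1 * bas l l.1) := by
      rw [neg_sub]
    rw [h2, Matrix.neg_apply, h1, neg_zero]

/-- Cnc -/
theorem thm_Cnc : St_Cnc := by
  intro n a b
  refine ⟨fun i j => Cnc_anti a b _ _, fun i => Cnc_self a b _, fun i j l h => Cnc_cc i j l h,
    fun i j k => ?_, fun i j => ?_⟩
  · unfold OM
    rw [Cnc_closed, Cnc_Om_exp a b (Cnc_br (bas i) (bas j)), Cnc_Om_exp a b (Cnc_br (bas j) (bas k)),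
      Cnc_Om_exp a b (Cnc_br (bas k) (bas i)), ← Finset.sum_add_distrib,
      ← Finset.sum_add_distrib]
    rfl
  · unfold OM TH
    rw [Cnc_dth, Cnc_th_exp a b (Cnc_br (bas i) (bas j))]
    rfl

end Pool.Agent.DHC
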