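import Pool.Agent.Helper69.Cart.Fwd

/-!
# DHC: Horn's inequalities for the squares are sufficient.  Definitions (helper69)

`F_κ = A² + B² + κ i [A, B]` for `A = U a U*`, `B = V b V*`.  There is a density `D_κ` on `U(n) × U(n)`,
`D_0` a nonzero constant, such that `∫ φ(F_κ) D_κ` does not depend on `κ` for every `φ` (signed
Duistermaat-Heckman measure of a closed 2-form `Ω_κ` with moment map `F_κ`).  All functions are
polynomials in `κ` and the entries of `U`, `U*`, `V`, `V*` (index `false`: `U`, `true`: `V`).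
-/

set_option autoImplicit false

open Matrix Complex MeasureTheory

namespace Pool.Agent.DHC

open Pool.Agent.Helper69.Cart Pool.Agent.Helper44.Cart

/-! ### forms with constant coefficients -/

section fock

variable {ι : Type} [LinearOrder ι] {R : Type} [CommRing R]

/-- the sign of `e_i` in front of `e_S` -/
def sg (i : ι) (S : Finset ι) : ℤ := (-1) ^ (S.filter (· < i)).card

/-- `f ↦ e_i f`; `f S` is the coefficient of the monomial `e_S` -/
def cr (i : ι) : Module.End R (Finset ι → R) where
  toFun f S := if i ∈ S then (sg i S : R) * f (S.erase i) else 0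
  map_add' f g := by
    funext S
    by_cases h : i ∈ S
    · simp [h, mul_add]
    · simp [h]
  map_smul' c f := by
    funext S
    by_cases h : i ∈ S
    · simp only [h, if_true, Pi.smul_apply, smul_eq_mul, RingHom.id_apply]
      ring
    · simp [h]

/-- the contraction `∂ / ∂ e_i` -/
def an (i : ι) : Module.End R (Finset ι → R) where
  toFun f S := if i ∈ S then 0 else (sg i S : R) * f (insert i S)
  map_add' f g := by
    funext S
    by_cases h : i ∈ S
    · simp [h]
    · simp [h, mul_add]
  map_smul' c f := by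
    funext S
    by_cases h : i ∈ S
    · simp [h]
    · simp only [h, if_false, Pi.smul_apply, smul_eq_mul, RingHom.id_apply]
      ring

/-- the form `1` -/
def vac : Finset ι → R := fun S => if S = ∅ then 1 else 0

variable [Fintype ι]

/-- multiplication by `∑ Ω_ij e_i e_j` -/
def WW (Ω : ι → ι → R) : Module.End R (Finset ι → R) := ∑ i, ∑ j, Ω i j • (cr i * cr j)

/-- multiplication by `∑ θ_i e_i` -/
def TT (θ : ι → R) : Module.End R (Finset ι → R) := ∑ i, θ i • cr i

/-- the top coefficient of `(∑ Ω_ij e_i e_j) ^ N` -/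
def PP (Ω : ι → ι → R) (N : ℕ) : R := ((WW Ω) ^ N) vac Finset.univ

/-- the top coefficient of `e_i (∑ θ_j e_j) (∑ Ω_jk e_j e_k) ^ (N - 1)` -/
def ZZ (Ω : ι → ι → R) (θ : ι → R) (N : ℕ) (i : ι) : R :=
  (cr i * TT θ * (WW Ω) ^ (N - 1) : Module.End R (Finset ι → R)) vac Finset.univ

end fock

/-! ### polynomials on the group -/

/-- the variables: `none` is `κ`, `some (w, false, p, q)` and `some (w, true, p, q)` are the entries of
`U`, `U*` (`w = false`), `V`, `V*` (`w = true`) -/
abbrev Vr (n : ℕ) : Type := Option (Bool × Bool × Fin n × Fin n)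

/-- the polynomials -/
abbrev Rg (n : ℕ) : Type := MvPolynomial (Vr n) ℂ

variable {n : ℕ}

/-- the matrices `U`, `V` -/
noncomputable def mU (w : Bool) : Matrix (Fin n) (Fin n) (Rg n) :=
  Matrix.of fun p q => MvPolynomial.X (some (w, false, p, q))

/-- the matrices `U*`, `V*` -/
noncomputable def mD (w : Bool) : Matrix (Fin n) (Fin n) (Rg n) :=
  Matrix.of fun p q => MvPolynomial.X (some (w, true, p, q))

/-- constant matrices -/
noncomputable def cM (A : Matrix (Fin n) (Fin n) ℂ) : Matrix (Fin n) (Fin n) (Rg n) :=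
  A.map MvPolynomial.C

/-- the derivation with `U ↦ U ξ`, `U* ↦ - ξ U*` -/
noncomputable def dl (ξ : Bool → Matrix (Fin n) (Fin n) ℂ) : Derivation ℂ (Rg n) (Rg n) :=
  MvPolynomial.mkDerivation ℂ fun v => match v with
    | none => 0
    | some (w, false, p, q) => (mU w * cM (ξ w) : Matrix (Fin n) (Fin n) (Rg n)) p q
    | some (w, true, p, q) => -(cM (ξ w) * mD w : Matrix (Fin n) (Fin n) (Rg n)) p q

/-- the derivative with respect to `κ` -/
noncomputable def dk : Derivation ℂ (Rg n) (Rg n) :=
  MvPolynomial.mkDerivation ℂ fun v => match v with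
    | none => 1
    | some _ => 0

/-- `A = U a U*`, `B = V b V*` -/
noncomputable def mA (w : Bool) (a : Fin n → ℝ) : Matrix (Fin n) (Fin n) (Rg n) :=
  mU w * cM (dg a) * mD w

/-- the derivative of `A` or `B` in the direction of `ξ` -/
noncomputable def aD (w : Bool) (a : Fin n → ℝ) (ξ : Bool → Matrix (Fin n) (Fin n) ℂ) :
    Matrix (Fin n) (Fin n) (Rg n) :=
  mU w * cM (ξ w * dg a - dg a * ξ w) * mD w

/-- the 2-form -/
noncomputable def Om (a b : Fin n → ℝ) (ξ η : Bool → Matrix (Fin n) (Fin n) ℂ) : Rg n :=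
  MvPolynomial.C (-I * trace (dg (fun i => a i ^ 2) * (ξ false * η false - η false * ξ false)) -
      I * trace (dg (fun i => b i ^ 2) * (ξ true * η true - η true * ξ true))) +
    MvPolynomial.X none * (trace (aD false a ξ * aD true b η) - trace (aD false a η * aD true b ξ))

/-- the 1-form -/
noncomputable def th (a b : Fin n → ℝ) (η : Bool → Matrix (Fin n) (Fin n) ℂ) : Rg n :=
  trace (mA false a * aD true b η)

/-- `F_κ` -/
noncomputable def FF (a b : Fin n → ℝ) : Matrix (Fin n) (Fin n) (Rg n) :=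
  mA false (fun i => a i ^ 2) + mA true (fun i => b i ^ 2) +
    (MvPolynomial.C I * MvPolynomial.X none : Rg n) •
      (mA false a * mA true b - mA true b * mA false a)

/-- `(1 - s tr (F_κ - Z)²) ^ m` -/
noncomputable def hh (a b : Fin n → ℝ) (Z : Matrix (Fin n) (Fin n) ℂ) (s : ℝ) (m : ℕ) : Rg n :=
  (1 - MvPolynomial.C (s : ℂ) * trace ((FF a b - cM Z) * (FF a b - cM Z))) ^ m

/-! ### the frame -/

/-- the indices of the frame: a factor and an off-diagonal entry -/
def Ix (n : ℕ) : Type := Bool × {p : Fin n × Fin n // p.1 ≠ p.2}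

noncomputable instance : Fintype (Ix n) := by
  unfold Ix
  infer_instance

noncomputable instance : LinearOrder (Ix n) :=
  LinearOrder.lift' (Fintype.equivFin (Ix n)) (Equiv.injective _)

/-- the element `E_pq` of the factor -/
def bas (j : Ix n) : Bool → Matrix (Fin n) (Fin n) ℂ :=
  fun w => if w = j.1 then Matrix.single j.2.1.1 j.2.1.2 1 else 0

/-- the structure constants -/
def cc (i j l : Ix n) : ℂ :=
  (bas i l.1 * bas j l.1 - bas j l.1 * bas i l.1) l.2.1.1 l.2.1.2

/-- the matrix of the 2-form -/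
noncomputable def OM (a b : Fin n → ℝ) (i j : Ix n) : Rg n := Om a b (bas i) (bas j)

/-- the coefficients of the 1-form -/
noncomputable def TH (a b : Fin n → ℝ) (i : Ix n) : Rg n := th a b (bas i)

/-! ### points -/

/-- the point given by the matrices `U = g false`, `V = g true` and `κ` -/
noncomputable def pt (g : Bool → Matrix (Fin n) (Fin n) ℂ) (κ : ℂ) : Vr n → ℂ
  | none => κ
  | some (w, false, p, q) => g w p q
  | some (w, true, p, q) => (g w)ᴴ p q

/-- the group `U(n) × U(n)` -/
abbrev Gp (n : ℕ) : Type := Bool → Matrix.unitaryGroup (Fin n) ℂ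

/-- the value of a polynomial at the point `(u⁻¹, κ)` -/
noncomputable def evu (u : Gp n) (κ : ℝ) (f : Rg n) : ℂ :=
  MvPolynomial.eval (pt (fun w => ((u w : Matrix (Fin n) (Fin n) ℂ))ᴴ) (κ : ℂ)) f

/-- the Haar measure of `Gp n` -/
structure HD (n : ℕ) [MeasurableSpace (Gp n)] (μ : Measure (Gp n)) : Prop where
  prob : IsProbabilityMeasure μ
  pos : ∀ O : Set (Gp n), IsOpen O → O.Nonempty → 0 < μ O
  inv : ∀ (f : Rg n) (ξ : Bool → Matrix (Fin n) (Fin n) ℂ) (κ : ℝ),
    ∫ u, evu u κ (dl ξ f) ∂μ = 0
  der : ∀ (f : Rg n) (κ : ℝ),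
    HasDerivAt (fun κ : ℝ => ∫ u, evu u κ f ∂μ) (∫ u, evu u κ (dk f) ∂μ) κ

end Pool.Agent.DHC
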