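import Pool.Agent.DHC.St

/-!
# DHC / Fin: regular spectra (helper81)

Statement of helper69, `DHC.St_Fin`.
-/

set_option autoImplicit false

open Matrix Complex MeasureTheory Filter Topology

namespace Pool.Agent.DHC

open Pool.Agent.Helper69.Cart Pool.Agent.Helper44.Cart

variable {n : ℕ}

/-! ### evaluation -/

private noncomputable def Fin_ev (g : Bool → Matrix (Fin n) (Fin n) ℂ) (κ : ℂ) : Rg n →+* ℂ :=
  MvPolynomial.eval (pt g κ)

private lemma Fin_mU (g : Bool → Matrix (Fin n) (Fin n) ℂ) (κ : ℂ) (w : Bool) :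
    (Fin_ev g κ).mapMatrix (mU w) = g w := by
  ext p q
  simp only [RingHom.mapMatrix_apply, Matrix.map_apply, mU, Matrix.of_apply]
  unfold Fin_ev
  rw [MvPolynomial.eval_X]
  rfl

private lemma Fin_mD (g : Bool → Matrix (Fin n) (Fin n) ℂ) (κ : ℂ) (w : Bool) :
    (Fin_ev g κ).mapMatrix (mD w) = (g w)ᴴ := by
  ext p q
  simp only [RingHom.mapMatrix_apply, Matrix.map_apply, mD, Matrix.of_apply]
  unfold Fin_ev
  rw [MvPolynomial.eval_X]
  rfl

private lemma Fin_cM (g : Bool → Matrix (Fin n) (Fin n) ℂ) (κ : ℂ)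
    (A : Matrix (Fin n) (Fin n) ℂ) : (Fin_ev g κ).mapMatrix (cM A) = A := by
  ext p q
  simp only [RingHom.mapMatrix_apply, Matrix.map_apply, cM]
  unfold Fin_ev
  rw [MvPolynomial.eval_C]

private lemma Fin_mA (g : Bool → Matrix (Fin n) (Fin n) ℂ) (κ : ℂ) (w : Bool)
    (a : Fin n → ℝ) : (Fin_ev g κ).mapMatrix (mA w a) = g w * dg a * (g w)ᴴ := by
  unfold mA
  rw [map_mul, map_mul, Fin_mU, Fin_mD, Fin_cM]

private lemma Fin_smul (g : Bool → Matrix (Fin n) (Fin n) ℂ) (κ : ℂ) (c : Rg n)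
    (M : Matrix (Fin n) (Fin n) (Rg n)) :
    (Fin_ev g κ).mapMatrix (c • M) = (Fin_ev g κ c) • (Fin_ev g κ).mapMatrix M := by
  ext p q
  simp only [RingHom.mapMatrix_apply, Matrix.map_apply, Matrix.smul_apply, smul_eq_mul, map_mul]

private lemma Fin_trace (g : Bool → Matrix (Fin n) (Fin n) ℂ) (κ : ℂ)
    (M : Matrix (Fin n) (Fin n) (Rg n)) :
    Fin_ev g κ (trace M) = trace ((Fin_ev g κ).mapMatrix M) := by
  simp only [Matrix.trace, map_sum, Matrix.diag_apply, RingHom.mapMatrix_apply, Matrix.map_apply]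

/-- the difference `G κ A B - Z` -/
private noncomputable def Fin_H (a b : Fin n → ℝ) (Z : Matrix (Fin n) (Fin n) ℂ)
    (g : Bool → Matrix (Fin n) (Fin n) ℂ) (κ : ℝ) : Matrix (Fin n) (Fin n) ℂ :=
  G κ (g false * dg a * (g false)ᴴ) (g true * dg b * (g true)ᴴ) - Z

private lemma Fin_FF (a b : Fin n → ℝ) (Z : Matrix (Fin n) (Fin n) ℂ)
    (g : Bool → Matrix (Fin n) (Fin n) ℂ) (hg : ∀ w, IsU (g w)) (κ : ℝ) :
    (Fin_ev g κ).mapMatrix (FF a b - cM Z) = Fin_H a b Z g κ := by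
  have h1 : Fin_ev g (κ : ℂ) (MvPolynomial.C I * MvPolynomial.X none : Rg n) = (κ : ℂ) * I := by
    unfold Fin_ev
    rw [map_mul, MvPolynomial.eval_C, MvPolynomial.eval_X]
    show I * (κ : ℂ) = _
    ring
  unfold FF Fin_H G
  rw [map_sub, map_add, map_add, Fin_smul, h1, map_sub, map_mul, map_mul]
  simp only [Fin_mA, Fin_cM]
  rw [conj_sq (hg false), conj_sq (hg true)]

/-- the sum of the squares of the entries -/
private noncomputable def Fin_r (a b : Fin n → ℝ) (Z : Matrix (Fin n) (Fin n) ℂ)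
    (g : Bool → Matrix (Fin n) (Fin n) ℂ) (κ : ℝ) : ℝ :=
  ∑ i, ∑ j, normSq (Fin_H a b Z g κ i j)

private lemma Fin_T (a b : Fin n → ℝ) (Z : Matrix (Fin n) (Fin n) ℂ) (hZ : Z.IsHermitian)
    (g : Bool → Matrix (Fin n) (Fin n) ℂ) (hg : ∀ w, IsU (g w)) (κ : ℝ) :
    Fin_ev g κ (trace ((FF a b - cM Z) * (FF a b - cM Z))) = (Fin_r a b Z g κ : ℂ) := by
  rw [Fin_trace, map_mul, Fin_FF a b Z g hg κ]
  have hh : ∀ w (a : Fin n → ℝ), (g w * dg a * (g w)ᴴ).IsHermitian := by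
    intro w a
    rw [Matrix.IsHermitian, Matrix.conjTranspose_mul, Matrix.conjTranspose_mul,
      Matrix.conjTranspose_conjTranspose, (dg_isHermitian a).eq, Matrix.mul_assoc]
  have hH : (Fin_H a b Z g κ).IsHermitian := (G_isHermitian (hh _ _) (hh _ _)).sub hZ
  unfold Fin_r Matrix.trace
  push_cast
  refine Finset.sum_congr rfl fun i _ => ?_
  rw [Matrix.diag_apply, Matrix.mul_apply]
  refine Finset.sum_congr rfl fun j _ => ?_
  rw [← Complex.mul_conj, ← hH.apply j i]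
  rfl

private lemma Fin_hh (a b : Fin n → ℝ) (Z : Matrix (Fin n) (Fin n) ℂ) (hZ : Z.IsHermitian)
    (s : ℝ) (m : ℕ) (u : Gp n) (κ : ℝ) :
    evu u κ (hh a b Z s m) =
      (((1 - s * Fin_r a b Z (fun w => ((u w : Matrix (Fin n) (Fin n) ℂ))ᴴ) κ) ^ m : ℝ) : ℂ) := by
  have hg : ∀ w, IsU ((u w : Matrix (Fin n) (Fin n) ℂ)ᴴ) := by
    intro w
    have h1 := Matrix.mem_unitaryGroup_iff.1 (u w).2
    have h2 := Matrix.mem_unitaryGroup_iff'.1 (u w).2
    exact (show IsU (u w : Matrix (Fin n) (Fin n) ℂ) from ⟨h2, h1⟩).conjTranspose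
  have h := Fin_T a b Z hZ _ hg κ
  unfold evu hh
  show Fin_ev _ _ _ = _
  rw [map_pow, map_sub, map_one, map_mul, h]
  have h1 : Fin_ev (fun w => ((u w : Matrix (Fin n) (Fin n) ℂ))ᴴ) (κ : ℂ)
      (MvPolynomial.C (s : ℂ)) = (s : ℂ) := by
    unfold Fin_ev
    rw [MvPolynomial.eval_C]
  rw [h1]
  push_cast
  rfl

/-! ### the group -/

private lemma Fin_compact : CompactSpace (Matrix.unitaryGroup (Fin n) ℂ) := by
  have h : IsCompact ((Matrix.unitaryGroup (Fin n) ℂ : Set (Matrix (Fin n) (Fin n) ℂ))) := by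
    have h1 : (Matrix.unitaryGroup (Fin n) ℂ : Set (Matrix (Fin n) (Fin n) ℂ)) =
        {V : Matrix (Fin n) (Fin n) ℂ | IsU V} := by
      ext V
      constructor
      · intro h
        exact ⟨Matrix.mem_unitaryGroup_iff'.1 h, Matrix.mem_unitaryGroup_iff.1 h⟩
      · intro h
        exact Matrix.mem_unitaryGroup_iff.2 h.2
    rw [h1]
    exact isCompact_U
  exact isCompact_iff_compactSpace.1 h

private lemma Fin_cont (f : Rg n) (κ : ℝ) : Continuous fun u : Gp n => evu u κ f := by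
  unfold evu
  refine (MvPolynomial.continuous_eval f).comp ?_
  refine continuous_pi fun v => ?_
  rcases v with _ | ⟨w, _ | _, p, q⟩
  · exact continuous_const
  · show Continuous fun u : Gp n => ((u w : Matrix (Fin n) (Fin n) ℂ)ᴴ) p q
    have h1 : Continuous fun u : Gp n => (u w : Matrix (Fin n) (Fin n) ℂ) :=
      continuous_subtype_val.comp (continuous_apply w)
    exact (h1.matrix_conjTranspose).matrix_elem p q
  · show Continuous fun u : Gp n => (((u w : Matrix (Fin n) (Fin n) ℂ)ᴴ)ᴴ) p q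
    have h1 : Continuous fun u : Gp n => (u w : Matrix (Fin n) (Fin n) ℂ) :=
      continuous_subtype_val.comp (continuous_apply w)
    exact (h1.matrix_conjTranspose.matrix_conjTranspose).matrix_elem p q

private lemma Fin_rcont (a b : Fin n → ℝ) (Z : Matrix (Fin n) (Fin n) ℂ) (κ : ℝ) :
    Continuous fun u : Gp n =>
      Fin_r a b Z (fun w => ((u w : Matrix (Fin n) (Fin n) ℂ))ᴴ) κ := by
  have h1 : ∀ w, Continuous fun u : Gp n => (u w : Matrix (Fin n) (Fin n) ℂ) := fun w =>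
    continuous_subtype_val.comp (continuous_apply w)
  unfold Fin_r Fin_H G
  refine continuous_finset_sum _ fun i _ => continuous_finset_sum _ fun j _ => ?_
  refine Complex.continuous_normSq.comp ?_
  have h2 := h1 false
  have h3 := h1 true
  refine Continuous.matrix_elem ?_ i j
  fun_prop

private lemma Fin_isU (u : Gp n) (w : Bool) : IsU ((u w : Matrix (Fin n) (Fin n) ℂ)ᴴ) := by
  have h1 := Matrix.mem_unitaryGroup_iff.1 (u w).2
  have h2 := Matrix.mem_unitaryGroup_iff'.1 (u w).2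
  exact (show IsU (u w : Matrix (Fin n) (Fin n) ℂ) from ⟨h2, h1⟩).conjTranspose

private lemma Fin_r0 (a b : Fin n → ℝ) (Z : Matrix (Fin n) (Fin n) ℂ)
    (g : Bool → Matrix (Fin n) (Fin n) ℂ) (κ : ℝ) : 0 ≤ Fin_r a b Z g κ :=
  Finset.sum_nonneg fun _ _ => Finset.sum_nonneg fun _ _ => normSq_nonneg _

private lemma Fin_req (a b : Fin n → ℝ) (Z : Matrix (Fin n) (Fin n) ℂ)
    (g : Bool → Matrix (Fin n) (Fin n) ℂ) (κ : ℝ) (h : Fin_r a b Z g κ = 0) :
    Fin_H a b Z g κ = 0 := by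
  unfold Fin_r at h
  rw [Finset.sum_eq_zero_iff_of_nonneg
    (fun _ _ => Finset.sum_nonneg fun _ _ => normSq_nonneg _)] at h
  ext i j
  have h1 := h i (Finset.mem_univ i)
  rw [Finset.sum_eq_zero_iff_of_nonneg (fun _ _ => normSq_nonneg _)] at h1
  exact normSq_eq_zero.1 (h1 j (Finset.mem_univ j))

/-- the measure theoretic part -/
private lemma Fin_meas {X : Type} [TopologicalSpace X] [CompactSpace X] [Nonempty X]
    [MeasurableSpace X] [BorelSpace X] (μ : Measure X) [IsProbabilityMeasure μ]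
    (hμ : ∀ O : Set X, IsOpen O → O.Nonempty → 0 < μ O) (r₀ r₁ : X → ℝ) (hr₀ : Continuous r₀)
    (hr₁ : Continuous r₁) (h0 : ∀ u, 0 ≤ r₀ u) (h1 : ∀ u, 0 < r₁ u) (u₀ : X) (hu₀ : r₀ u₀ = 0)
    (D : X → ℂ) (hD : Continuous D) (c₀ : ℂ) (hc₀ : c₀ ≠ 0)
    (h : ∀ (s : ℝ) (m : ℕ), ∫ u, (((1 - s * r₀ u) ^ m : ℝ) : ℂ) * c₀ ∂μ =
      ∫ u, (((1 - s * r₁ u) ^ m : ℝ) : ℂ) * D u ∂μ) : False := by
  obtain ⟨um, _, hum⟩ := isCompact_univ.exists_isMinOn Set.univ_nonempty hr₁.continuousOn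
  set δ : ℝ := r₁ um with hδ
  have hδ0 : 0 < δ := h1 um
  have hδ1 : ∀ u, δ ≤ r₁ u := fun u => hum (Set.mem_univ u)
  obtain ⟨M₀, hM₀⟩ := isCompact_univ.bddAbove_image hr₀.continuousOn
  obtain ⟨M₁, hM₁⟩ := isCompact_univ.bddAbove_image hr₁.continuousOn
  have hM0 : ∀ u, r₀ u ≤ M₀ := fun u => hM₀ (Set.mem_image_of_mem _ (Set.mem_univ u))
  have hM1 : ∀ u, r₁ u ≤ M₁ := fun u => hM₁ (Set.mem_image_of_mem _ (Set.mem_univ u))
  obtain ⟨C, hC⟩ := isCompact_univ.bddAbove_image (hD.norm.continuousOn)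
  have hC1 : ∀ u, ‖D u‖ ≤ C := fun u => hC (Set.mem_image_of_mem _ (Set.mem_univ u))
  set M : ℝ := max M₀ M₁ with hM
  have hMp : 0 < M := lt_of_lt_of_le (lt_of_lt_of_le hδ0 (hM1 um)) (le_max_right _ _)
  set s : ℝ := 1 / M with hs
  have hs0 : 0 < s := by positivity
  have hsr : ∀ x : ℝ, x ≤ M → s * x ≤ 1 := by
    intro x hx
    rw [hs, one_div, ← div_eq_inv_mul, div_le_one hMp]
    exact hx
  have hs₀ : ∀ u, s * r₀ u ≤ 1 := fun u => hsr _ ((hM0 u).trans (le_max_left _ _))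
  have hs₁ : ∀ u, s * r₁ u ≤ 1 := fun u => hsr _ ((hM1 u).trans (le_max_right _ _))
  set x : ℝ := 1 - s * (δ / 2) with hx
  set y : ℝ := 1 - s * δ with hy
  have hsδ : s * δ ≤ 1 := hs₁ um
  have hsδ0 : 0 < s * δ := mul_pos hs0 hδ0
  have hy0 : 0 ≤ y := by rw [hy]; linarith
  have hx0 : 0 < x := by
    have : s * (δ / 2) = s * δ / 2 := by ring
    rw [hx, this]
    linarith
  have hyx : y < x := by
    have : s * (δ / 2) = s * δ / 2 := by ring
    rw [hx, hy, this]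
    linarith
  set O : Set X := {u | r₀ u < δ / 2} with hO
  have hOo : IsOpen O := isOpen_lt hr₀ continuous_const
  have hOp : 0 < μ O := hμ O hOo ⟨u₀, by
    show r₀ u₀ < δ / 2
    rw [hu₀]
    linarith⟩
  have hOr : 0 < μ.real O := ENNReal.toReal_pos hOp.ne' (measure_ne_top μ O)
  have key : ∀ m : ℕ, ‖c₀‖ * (μ.real O * x ^ m) ≤ C * y ^ m := by
    intro m
    have e := h s m
    have hcont : Continuous fun u => (1 - s * r₀ u) ^ m := by fun_prop
    have hint : Integrable (fun u => (1 - s * r₀ u) ^ m) μ :=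
      hcont.integrable_of_hasCompactSupport (HasCompactSupport.of_compactSpace _)
    have e1 : ∫ u, (((1 - s * r₀ u) ^ m : ℝ) : ℂ) * c₀ ∂μ =
        ((∫ u, (1 - s * r₀ u) ^ m ∂μ : ℝ) : ℂ) * c₀ := by
      rw [integral_mul_const]
      congr 1
      exact integral_ofReal
    have e2 : μ.real O * x ^ m ≤ ∫ u, (1 - s * r₀ u) ^ m ∂μ := by
      have e3 : ∫ u, O.indicator (fun _ => x ^ m) u ∂μ = μ.real O * x ^ m := by
        rw [integral_indicator_const _ hOo.measurableSet, smul_eq_mul]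
      rw [← e3]
      refine integral_mono ((integrable_const _).indicator hOo.measurableSet) hint fun u => ?_
      by_cases hu : u ∈ O
      · rw [Set.indicator_of_mem hu]
        refine pow_le_pow_left₀ hx0.le ?_ m
        have : r₀ u ≤ δ / 2 := le_of_lt hu
        have := mul_le_mul_of_nonneg_left this hs0.le
        rw [hx]
        linarith
      · rw [Set.indicator_of_notMem hu]
        exact pow_nonneg (by linarith [hs₀ u]) m
    have e4 : ‖∫ u, (((1 - s * r₁ u) ^ m : ℝ) : ℂ) * D u ∂μ‖ ≤ C * y ^ m := by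
      have e5 : ∀ u, ‖(((1 - s * r₁ u) ^ m : ℝ) : ℂ) * D u‖ ≤ C * y ^ m := by
        intro u
        have e6 : 0 ≤ 1 - s * r₁ u := by linarith [hs₁ u]
        have e7 : (1 - s * r₁ u) ^ m ≤ y ^ m := by
          refine pow_le_pow_left₀ e6 ?_ m
          have := mul_le_mul_of_nonneg_left (hδ1 u) hs0.le
          rw [hy]
          linarith
        rw [norm_mul, Complex.norm_real, Real.norm_of_nonneg (pow_nonneg e6 m), mul_comm]
        exact mul_le_mul (hC1 u) e7 (pow_nonneg e6 m) ((norm_nonneg _).trans (hC1 u))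
      have e8 := norm_integral_le_of_norm_le_const (μ := μ)
        (Filter.Eventually.of_forall e5)
      rw [probReal_univ, mul_one] at e8
      exact e8
    rw [← e, e1, norm_mul, Complex.norm_real, mul_comm] at e4
    refine le_trans ?_ e4
    refine mul_le_mul_of_nonneg_left ?_ (norm_nonneg _)
    exact e2.trans (le_abs_self _)
  have hlim : Tendsto (fun m : ℕ => C * (y / x) ^ m) atTop (𝓝 (C * 0)) :=
    (tendsto_pow_atTop_nhds_zero_of_lt_one (div_nonneg hy0 hx0.le)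
      ((div_lt_one hx0).2 hyx)).const_mul C
  have hle : ‖c₀‖ * μ.real O ≤ C * 0 := by
    refine ge_of_tendsto' hlim fun m => ?_
    have e := key m
    rw [div_pow, ← mul_div_assoc, le_div_iff₀ (pow_pos hx0 m)]
    calc ‖c₀‖ * μ.real O * x ^ m = ‖c₀‖ * (μ.real O * x ^ m) := by ring
      _ ≤ C * y ^ m := e
  rw [mul_zero] at hle
  have := mul_pos (norm_pos_iff.2 hc₀) hOr
  linarith

theorem thm_Fin (h1 : St_Haa) (h2 : St_Inv) (h3 : St_Non) : St_Fin := by
  intro n a b γ ha hb hsol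
  by_contra hnot
  obtain ⟨V, W, hV, hW, hG⟩ := hsol
  have hZ : (W * dg γ * Wᴴ).IsHermitian := by
    rw [Matrix.IsHermitian, Matrix.conjTranspose_mul, Matrix.conjTranspose_mul,
      Matrix.conjTranspose_conjTranspose, (dg_isHermitian γ).eq, Matrix.mul_assoc]
  haveI := Fin_compact (n := n)
  obtain ⟨ms, bs, μ, hμ⟩ := h1 n
  haveI := hμ.prob
  obtain ⟨hcard, c₀, hc₀, hP0⟩ := h3 n a b ha hb
  set Z := W * dg γ * Wᴴ with hZdef
  haveI : Nonempty (Gp n) := ⟨fun _ => 1⟩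
  refine Fin_meas μ hμ.pos
    (fun u : Gp n => Fin_r a b Z (fun w => ((u w : Matrix (Fin n) (Fin n) ℂ))ᴴ) 0)
    (fun u : Gp n => Fin_r a b Z (fun w => ((u w : Matrix (Fin n) (Fin n) ℂ))ᴴ) 1)
    (Fin_rcont a b Z 0) (Fin_rcont a b Z 1) (fun u => Fin_r0 _ _ _ _ _) ?_
    (fun w => match w with
      | false => 1
      | true => ⟨Vᴴ, Matrix.mem_unitaryGroup_iff.2 hV.conjTranspose.2⟩) ?_
    (fun u => evu u 1 (PP (OM a b) (n * (n - 1)))) (Fin_cont _ 1) c₀ hc₀ ?_
  · intro u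
    refine lt_of_le_of_ne (Fin_r0 _ _ _ _ _) fun h0 => ?_
    apply hnot
    have hH := Fin_req _ _ _ _ _ h0.symm
    unfold Fin_H at hH
    rw [sub_eq_zero] at hH
    have hU := Fin_isU u false
    have hV' := Fin_isU u true
    refine ⟨_, _, hU.conjTranspose.mul hV', hU.conjTranspose.mul hW, ?_⟩
    have e1 := G_conj (W := ((u false : Matrix (Fin n) (Fin n) ℂ)ᴴ)ᴴ)
      (X := ((u false : Matrix (Fin n) (Fin n) ℂ)ᴴ) * dg a *
        ((u false : Matrix (Fin n) (Fin n) ℂ)ᴴ)ᴴ)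
      (Y := ((u true : Matrix (Fin n) (Fin n) ℂ)ᴴ) * dg b *
        ((u true : Matrix (Fin n) (Fin n) ℂ)ᴴ)ᴴ) hU.conjTranspose.1 1
    rw [hH, Matrix.conjTranspose_conjTranspose ((u false : Matrix (Fin n) (Fin n) ℂ)ᴴ),
      unconj hU, reconj, hZdef, reconj] at e1
    exact e1
  · show Fin_r a b Z _ 0 = 0
    have hH : Fin_H a b Z (fun w => (((match w with
      | false => (1 : Matrix.unitaryGroup (Fin n) ℂ)
      | true => ⟨Vᴴ, Matrix.mem_unitaryGroup_iff.2 hV.conjTranspose.2⟩ :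
        Matrix.unitaryGroup (Fin n) ℂ) : Matrix (Fin n) (Fin n) ℂ))ᴴ) 0 = 0 := by
      unfold Fin_H
      show G 0 ((1 : Matrix (Fin n) (Fin n) ℂ)ᴴ * dg a * ((1 : Matrix (Fin n) (Fin n) ℂ)ᴴ)ᴴ)
        (Vᴴᴴ * dg b * Vᴴᴴᴴ) - Z = 0
      rw [Matrix.conjTranspose_one, Matrix.conjTranspose_one, Matrix.one_mul, Matrix.mul_one,
        Matrix.conjTranspose_conjTranspose, hG, sub_self]
    unfold Fin_r
    rw [hH]
    simp
  · intro s m
    have e := h2 n μ hμ hcard a b Z s m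
    have e0 : ∀ u : Gp n, evu u 0 (hh a b Z s m * PP (OM a b) (n * (n - 1))) =
        (((1 - s * Fin_r a b Z (fun w => ((u w : Matrix (Fin n) (Fin n) ℂ))ᴴ) 0) ^ m : ℝ) : ℂ) *
          c₀ := by
      intro u
      rw [← Fin_hh a b Z hZ s m u 0, ← hP0 (fun w => ((u w : Matrix (Fin n) (Fin n) ℂ))ᴴ)]
      unfold evu
      rw [map_mul, Complex.ofReal_zero]
    have e1 : ∀ u : Gp n, evu u 1 (hh a b Z s m * PP (OM a b) (n * (n - 1))) =
        (((1 - s * Fin_r a b Z (fun w => ((u w : Matrix (Fin n) (Fin n) ℂ))ᴴ) 1) ^ m : ℝ) : ℂ) *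
          evu u 1 (PP (OM a b) (n * (n - 1))) := by
      intro u
      rw [← Fin_hh a b Z hZ s m u 1]
      unfold evu
      rw [map_mul]
    simp only [e0, e1] at e
    exact e

end Pool.Agent.DHC
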