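import Pool.Agent.DHC.St

/-!
# DHC, Haa: Haar measure on `U(n) × U(n)` (helper8)
-/

set_option autoImplicit false

open Matrix Complex MeasureTheory
open scoped Topology

namespace Pool.Agent.DHC

open Pool.Agent.Helper69.Cart Pool.Agent.Helper44.Cart

/-- differentiation under the integral on a compact space -/
private theorem Haa_diff {X : Type} [TopologicalSpace X] [CompactSpace X] [MeasurableSpace X]
    [BorelSpace X] (μ : Measure X) [IsFiniteMeasure μ] (Φ Ψ : ℝ → X → ℂ)
    (hΦ : Continuous (Function.uncurry Φ)) (hΨ : Continuous (Function.uncurry Ψ))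
    (hd : ∀ t u, HasDerivAt (fun t => Φ t u) (Ψ t u) t) (t₀ : ℝ) :
    HasDerivAt (fun t => ∫ u, Φ t u ∂μ) (∫ u, Ψ t₀ u ∂μ) t₀ := by
  obtain ⟨C, hC⟩ := ((isCompact_Icc (a := t₀ - 1) (b := t₀ + 1)).prod
    (isCompact_univ (X := X))).exists_bound_of_continuousOn (f := Function.uncurry Ψ)
    hΨ.continuousOn
  obtain ⟨C', hC'⟩ := ((isCompact_Icc (a := t₀ - 1) (b := t₀ + 1)).prod
    (isCompact_univ (X := X))).exists_bound_of_continuousOn (f := Function.uncurry Φ)
    hΦ.continuousOn
  have hmΦ : ∀ t, AEStronglyMeasurable (Φ t) μ := fun t =>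
    (hΦ.comp (continuous_const.prodMk continuous_id) :
      Continuous fun u => Φ t u).aestronglyMeasurable
  have hmΨ : ∀ t, AEStronglyMeasurable (Ψ t) μ := fun t =>
    (hΨ.comp (continuous_const.prodMk continuous_id) :
      Continuous fun u => Ψ t u).aestronglyMeasurable
  have ht₀ : t₀ ∈ Set.Icc (t₀ - 1) (t₀ + 1) := ⟨by linarith, by linarith⟩
  refine (hasDerivAt_integral_of_dominated_loc_of_deriv_le (bound := fun _ => C)
    (Metric.ball_mem_nhds t₀ one_pos) (Filter.Eventually.of_forall hmΦ)
    (Integrable.of_bound (hmΦ t₀) C' (Filter.Eventually.of_forall fun u =>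
      hC' (t₀, u) ⟨ht₀, Set.mem_univ _⟩)) (hmΨ t₀)
    (Filter.Eventually.of_forall fun u t ht => ?_) (integrable_const C)
    (Filter.Eventually.of_forall fun u t _ => hd t u)).2
  refine hC (t, u) ⟨?_, Set.mem_univ _⟩
  rw [Metric.mem_ball, Real.dist_eq, abs_lt] at ht
  exact ⟨by linarith [ht.1], by linarith [ht.2]⟩

variable {n : ℕ}

/-- the chain rule -/
private theorem Haa_chain (P : ℝ → Vr n → ℂ) (D : Derivation ℂ (Rg n) (Rg n)) (t : ℝ)
    (h : ∀ v, HasDerivAt (fun s => P s v) (MvPolynomial.eval (P t) (D (MvPolynomial.X v))) t)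
    (f : Rg n) :
    HasDerivAt (fun s => MvPolynomial.eval (P s) f) (MvPolynomial.eval (P t) (D f)) t := by
  induction f using MvPolynomial.induction_on with
  | C a =>
    have h0 : D (MvPolynomial.C a) = 0 := D.map_algebraMap a
    rw [h0, map_zero]
    simp only [MvPolynomial.eval_C]
    exact hasDerivAt_const t a
  | add p q hp hq =>
    simp only [map_add]
    exact hp.add hq
  | mul_X p v hp =>
    have h1 := hp.mul (h v)
    rw [Derivation.leibniz]
    simp only [map_mul, map_add, smul_eq_mul, MvPolynomial.eval_X]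
    convert! h1 using 1
    ring

private theorem Haa_cont {Y : Type} [TopologicalSpace Y]
    (g : Y → Bool → Matrix (Fin n) (Fin n) ℂ) (κ : Y → ℂ) (hg : ∀ w, Continuous fun y => g y w)
    (hκ : Continuous κ) (f : Rg n) : Continuous fun y => MvPolynomial.eval (pt (g y) (κ y)) f := by
  refine (MvPolynomial.continuous_eval f).comp (continuous_pi fun v => ?_)
  rcases v with _ | ⟨w, _ | _, p, q⟩
  · exact hκ
  · exact (continuous_apply_apply p q).comp (hg w)
  · show Continuous fun y => (g y w)ᴴ p q
    exact continuous_star.comp ((continuous_apply_apply q p).comp (hg w))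

private theorem Haa_compact : CompactSpace (Gp n) := by
  have h1 : CompactSpace (Matrix.unitaryGroup (Fin n) ℂ) := by
    have h2 : (Matrix.unitaryGroup (Fin n) ℂ : Set (Matrix (Fin n) (Fin n) ℂ)) =
        {V : Matrix (Fin n) (Fin n) ℂ | IsU V} := by
      ext V
      rw [SetLike.mem_coe, Set.mem_ofPred_eq, Matrix.mem_unitaryGroup_iff]
      exact ⟨fun h => ⟨mul_eq_one_comm.1 h, h⟩, fun h => h.2⟩
    exact isCompact_iff_compactSpace.1 (h2 ▸ isCompact_U)
  infer_instance

section

attribute [local instance] Matrix.linftyOpNormedRing Matrix.linftyOpNormedAlgebra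

/-- the derivative of the entries of the exponential -/
private theorem Haa_exp (ξ : Matrix (Fin n) (Fin n) ℂ) (p q : Fin n) (t : ℝ) :
    HasDerivAt (fun s : ℝ => (NormedSpace.exp (s • ξ) : Matrix (Fin n) (Fin n) ℂ) p q)
      ((NormedSpace.exp (t • ξ) * ξ : Matrix (Fin n) (Fin n) ℂ) p q) t := by
  have h1 := hasDerivAt_exp_smul_const (𝕂 := ℝ) ξ t
  let L : Matrix (Fin n) (Fin n) ℂ →L[ℝ] ℂ :=
    LinearMap.toContinuousLinearMap (Matrix.entryLinearMap ℝ ℂ p q)
  exact L.hasFDerivAt.comp_hasDerivAt t h1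

end

/-- the one-parameter group of a skew-Hermitian matrix -/
private theorem Haa_unit (ξ : Matrix (Fin n) (Fin n) ℂ) (h : ξᴴ = -ξ) (t : ℝ) :
    (NormedSpace.exp (t • ξ) : Matrix (Fin n) (Fin n) ℂ) ∈ Matrix.unitaryGroup (Fin n) ℂ ∧
      (NormedSpace.exp (t • ξ) : Matrix (Fin n) (Fin n) ℂ)ᴴ = NormedSpace.exp ((-t) • ξ) := by
  have h1 : (NormedSpace.exp (t • ξ) : Matrix (Fin n) (Fin n) ℂ)ᴴ =
      NormedSpace.exp ((-t) • ξ) := by
    rw [← Matrix.exp_conjTranspose, Matrix.conjTranspose_smul, h]
    simp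
  refine ⟨?_, h1⟩
  rw [Matrix.mem_unitaryGroup_iff, Matrix.star_eq_conjTranspose, h1,
    ← Matrix.exp_add_of_commute, neg_smul, add_neg_cancel, NormedSpace.exp_zero]
  rw [neg_smul]
  exact (Commute.refl _).neg_right

private theorem Haa_dl_X_false (ξ : Bool → Matrix (Fin n) (Fin n) ℂ) (w : Bool) (p q : Fin n)
    (g : Bool → Matrix (Fin n) (Fin n) ℂ) (κ : ℂ) :
    MvPolynomial.eval (pt g κ) (dl ξ (MvPolynomial.X (some (w, false, p, q)))) =
      (g w * ξ w : Matrix (Fin n) (Fin n) ℂ) p q := by
  unfold dl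
  rw [MvPolynomial.mkDerivation_X]
  simp only [Matrix.mul_apply, map_sum, map_mul, mU, cM, Matrix.of_apply, Matrix.map_apply,
    MvPolynomial.eval_X, MvPolynomial.eval_C]
  rfl

private theorem Haa_dl_X_true (ξ : Bool → Matrix (Fin n) (Fin n) ℂ) (w : Bool) (p q : Fin n)
    (g : Bool → Matrix (Fin n) (Fin n) ℂ) (κ : ℂ) :
    MvPolynomial.eval (pt g κ) (dl ξ (MvPolynomial.X (some (w, true, p, q)))) =
      -((ξ w * (g w)ᴴ : Matrix (Fin n) (Fin n) ℂ) p q) := by
  unfold dl
  rw [MvPolynomial.mkDerivation_X]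
  simp only [Matrix.mul_apply, map_sum, map_mul, map_neg, mD, cM, Matrix.of_apply,
    Matrix.map_apply, MvPolynomial.eval_X, MvPolynomial.eval_C]
  rfl

private theorem Haa_dl_add (ξ η : Bool → Matrix (Fin n) (Fin n) ℂ) (c : ℂ) :
    dl (fun w => ξ w + c • η w) = dl ξ + c • dl η := by
  have hc : ∀ A B : Matrix (Fin n) (Fin n) ℂ, cM (A + c • B) = cM A + c • cM B := by
    intro A B
    ext i j
    simp only [cM, Matrix.map_apply, Matrix.add_apply, Matrix.smul_apply, smul_eq_mul, map_add,
      map_mul, MvPolynomial.smul_eq_C_mul]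
  refine MvPolynomial.derivation_ext fun v => ?_
  rcases v with _ | ⟨w, _ | _, p, q⟩
  · unfold dl
    rw [Derivation.add_apply, Derivation.smul_apply, MvPolynomial.mkDerivation_X,
      MvPolynomial.mkDerivation_X, MvPolynomial.mkDerivation_X]
    simp
  · unfold dl
    rw [Derivation.add_apply, Derivation.smul_apply, MvPolynomial.mkDerivation_X,
      MvPolynomial.mkDerivation_X, MvPolynomial.mkDerivation_X]
    simp only [hc, Matrix.mul_add, Matrix.mul_smul, Matrix.add_apply, Matrix.smul_apply]
  · unfold dl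
    rw [Derivation.add_apply, Derivation.smul_apply, MvPolynomial.mkDerivation_X,
      MvPolynomial.mkDerivation_X, MvPolynomial.mkDerivation_X]
    simp only [hc, Matrix.add_mul, Matrix.smul_mul, Matrix.add_apply, Matrix.smul_apply, neg_add,
      smul_neg]

theorem thm_Haa : St_Haa := by
  intro n
  classical
  have hcomp : CompactSpace (Gp n) := Haa_compact
  let mG : MeasurableSpace (Gp n) := borel (Gp n)
  have hB : BorelSpace (Gp n) := ⟨rfl⟩
  let μ : Measure (Gp n) := Measure.haarMeasure ⊤
  have hprob : IsProbabilityMeasure μ := ⟨by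
    have := Measure.haarMeasure_self (K₀ := (⊤ : TopologicalSpace.PositiveCompacts (Gp n)))
    exact this⟩
  refine ⟨mG, hB, μ, hprob, fun O hO hne => hO.measure_pos μ hne, ?_, fun f κ => ?_⟩
  · -- invariance
    have hskew : ∀ (f : Rg n) (ξ : Bool → Matrix (Fin n) (Fin n) ℂ) (κ : ℝ),
        (∀ w, (ξ w)ᴴ = -ξ w) → ∫ u, evu u κ (dl ξ f) ∂μ = 0 := by
      intro f ξ κ hξ
      let v : ℝ → Gp n := fun t w => ⟨NormedSpace.exp ((-t) • ξ w), (Haa_unit _ (hξ w) _).1⟩
      have hg : ∀ (t : ℝ) (u : Gp n) (w : Bool),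
          (((v t * u) w : Matrix.unitaryGroup (Fin n) ℂ) : Matrix (Fin n) (Fin n) ℂ)ᴴ =
            ((u w : Matrix (Fin n) (Fin n) ℂ))ᴴ * NormedSpace.exp (t • ξ w) := by
        intro t u w
        show ((NormedSpace.exp ((-t) • ξ w) : Matrix (Fin n) (Fin n) ℂ) *
          (u w : Matrix (Fin n) (Fin n) ℂ))ᴴ = _
        rw [Matrix.conjTranspose_mul, (Haa_unit _ (hξ w) _).2, neg_neg]
      have hev : ∀ (t : ℝ) (u : Gp n) (f : Rg n), evu (v t * u) κ f =
          MvPolynomial.eval (pt (fun w => ((u w : Matrix (Fin n) (Fin n) ℂ))ᴴ *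
            NormedSpace.exp (t • ξ w)) (κ : ℂ)) f := by
        intro t u f
        unfold evu
        simp only [hg]
      have hce : ∀ w, Continuous fun s : ℝ =>
          (NormedSpace.exp (s • ξ w) : Matrix (Fin n) (Fin n) ℂ) := fun w =>
        continuous_matrix fun p q => continuous_iff_continuousAt.2 fun t =>
          (Haa_exp (ξ w) p q t).continuousAt
      have hcont : ∀ f : Rg n, Continuous (Function.uncurry fun (t : ℝ) (u : Gp n) =>
          evu (v t * u) κ f) := by
        intro f
        have h1 : (Function.uncurry fun (t : ℝ) (u : Gp n) => evu (v t * u) κ f) =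
            fun y : ℝ × Gp n => MvPolynomial.eval (pt (fun w =>
              ((y.2 w : Matrix (Fin n) (Fin n) ℂ))ᴴ * NormedSpace.exp (y.1 • ξ w)) (κ : ℂ)) f := by
          funext y
          exact hev y.1 y.2 f
        rw [h1]
        refine Haa_cont _ _ (fun w => ?_) continuous_const f
        have h2 : Continuous fun y : ℝ × Gp n => (y.2 w : Matrix (Fin n) (Fin n) ℂ) :=
          continuous_subtype_val.comp ((continuous_apply w).comp continuous_snd)
        exact (h2.matrix_conjTranspose).matrix_mul ((hce w).comp continuous_fst)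
      have hder : ∀ (t : ℝ) (u : Gp n), HasDerivAt (fun t => evu (v t * u) κ f)
          (evu (v t * u) κ (dl ξ f)) t := by
        intro t u
        simp only [hev]
        refine Haa_chain (fun s => pt (fun w => ((u w : Matrix (Fin n) (Fin n) ℂ))ᴴ *
            NormedSpace.exp (s • ξ w)) (κ : ℂ)) (dl ξ) t (fun x => ?_) f
        have hfalse : ∀ (w : Bool) (p q : Fin n), HasDerivAt
            (fun s : ℝ => (((u w : Matrix (Fin n) (Fin n) ℂ))ᴴ * NormedSpace.exp (s • ξ w) :
              Matrix (Fin n) (Fin n) ℂ) p q)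
            ((((u w : Matrix (Fin n) (Fin n) ℂ))ᴴ * NormedSpace.exp (t • ξ w) * ξ w :
              Matrix (Fin n) (Fin n) ℂ) p q) t := by
          intro w p q
          rw [Matrix.mul_assoc]
          simp only [Matrix.mul_apply (M := ((u w : Matrix (Fin n) (Fin n) ℂ))ᴴ)]
          exact HasDerivAt.fun_sum fun r _ => (Haa_exp (ξ w) r q t).const_mul _
        rcases x with _ | ⟨w, _ | _, p, q⟩
        · have h0 : dl ξ (MvPolynomial.X (none : Vr n)) = 0 := by
            unfold dl
            rw [MvPolynomial.mkDerivation_X]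
          rw [h0, map_zero]
          exact hasDerivAt_const t (κ : ℂ)
        · rw [Haa_dl_X_false]
          exact hfalse w p q
        · rw [Haa_dl_X_true]
          have h1 := (hfalse w q p).star
          convert! h1 using 1
          set g : Matrix (Fin n) (Fin n) ℂ :=
            ((u w : Matrix (Fin n) (Fin n) ℂ))ᴴ * NormedSpace.exp (t • ξ w) with hgdef
          have h2 : (g * ξ w)ᴴ = -(ξ w * gᴴ) := by
            rw [Matrix.conjTranspose_mul, hξ w, Matrix.neg_mul]
          have h3 := congrFun (congrFun h2 p) q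
          rw [Matrix.conjTranspose_apply, Matrix.neg_apply] at h3
          exact h3.symm
      have hD := Haa_diff μ (fun t u => evu (v t * u) κ f) (fun t u => evu (v t * u) κ (dl ξ f))
        (hcont f) (hcont (dl ξ f)) hder 0
      have hc : (fun t : ℝ => ∫ u, evu (v t * u) κ f ∂μ) = fun _ => ∫ u, evu u κ f ∂μ := by
        funext t
        exact integral_mul_left_eq_self (fun u => evu u κ f) (v t)
      rw [hc] at hD
      have h0 := hD.unique (hasDerivAt_const (0 : ℝ) (∫ u, evu u κ f ∂μ))
      have hv0 : v 0 = 1 := by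
        funext w
        apply Subtype.ext
        show (NormedSpace.exp ((-(0 : ℝ)) • ξ w) : Matrix (Fin n) (Fin n) ℂ) = 1
        rw [neg_zero, zero_smul, NormedSpace.exp_zero]
      rw [hv0] at h0
      simpa only [one_mul] using h0
    intro f ξ κ
    let ξ₁ : Bool → Matrix (Fin n) (Fin n) ℂ := fun w => (1 / 2 : ℂ) • (ξ w - (ξ w)ᴴ)
    let ξ₂ : Bool → Matrix (Fin n) (Fin n) ℂ := fun w => (-I / 2 : ℂ) • (ξ w + (ξ w)ᴴ)
    have h1 : ∀ w, (ξ₁ w)ᴴ = -ξ₁ w := by
      intro w
      simp only [ξ₁]
      rw [Matrix.conjTranspose_smul, Matrix.conjTranspose_sub, Matrix.conjTranspose_conjTranspose,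
        ← smul_neg, neg_sub]
      simp
    have h2 : ∀ w, (ξ₂ w)ᴴ = -ξ₂ w := by
      intro w
      simp only [ξ₂]
      rw [Matrix.conjTranspose_smul, Matrix.conjTranspose_add, Matrix.conjTranspose_conjTranspose,
        ← neg_smul, add_comm]
      congr 1
      simp
      ring
    have h3 : ξ = fun w => ξ₁ w + I • ξ₂ w := by
      funext w
      simp only [ξ₁, ξ₂]
      rw [smul_smul]
      have : I * (-I / 2) = 1 / 2 := by
        rw [mul_div_assoc', mul_neg, I_mul_I, neg_neg]
      rw [this, ← smul_add]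
      have e : ξ w - (ξ w)ᴴ + (ξ w + (ξ w)ᴴ) = (2 : ℂ) • ξ w := by
        rw [two_smul]
        abel
      rw [e, smul_smul]
      norm_num
    have hcontu : ∀ g : Rg n, Continuous fun u : Gp n => evu u κ g := fun g =>
      Haa_cont _ _ (fun w => (continuous_subtype_val.comp
        (continuous_apply w)).matrix_conjTranspose) continuous_const g
    have hint : ∀ g : Rg n, Integrable (fun u : Gp n => evu u κ g) μ := by
      intro g
      obtain ⟨C, hC⟩ := (isCompact_univ (X := Gp n)).exists_bound_of_continuousOn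
        (hcontu g).continuousOn
      exact Integrable.of_bound (hcontu g).aestronglyMeasurable C
        (Filter.Eventually.of_forall fun u => hC u (Set.mem_univ _))
    have h4 : ∀ u : Gp n, evu u κ (dl ξ f) = evu u κ (dl ξ₁ f) + I * evu u κ (dl ξ₂ f) := by
      intro u
      have h5 : dl ξ = dl ξ₁ + I • dl ξ₂ := by
        conv_lhs => rw [h3]
        exact Haa_dl_add ξ₁ ξ₂ I
      rw [h5, Derivation.add_apply, Derivation.smul_apply]
      unfold evu
      rw [map_add, MvPolynomial.smul_eval]
    simp only [h4]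
    rw [integral_add (hint _) ((hint _).const_mul I), integral_const_mul, hskew f ξ₁ κ h1,
      hskew f ξ₂ κ h2, mul_zero, add_zero]
  · -- derivative
    have hcont : ∀ f : Rg n, Continuous (Function.uncurry fun (κ : ℝ) (u : Gp n) =>
        evu u κ f) := by
      intro f
      exact Haa_cont (fun y : ℝ × Gp n => fun w => ((y.2 w : Matrix (Fin n) (Fin n) ℂ))ᴴ)
        (fun y => ((y.1 : ℝ) : ℂ)) (fun w => (continuous_subtype_val.comp
        ((continuous_apply w).comp continuous_snd)).matrix_conjTranspose)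
        (Complex.continuous_ofReal.comp continuous_fst) f
    refine Haa_diff μ (fun κ u => evu u κ f) (fun κ u => evu u κ (dk f)) (hcont f)
      (hcont (dk f)) (fun t u => ?_) κ
    refine Haa_chain (fun s => pt (fun w => ((u w : Matrix (Fin n) (Fin n) ℂ))ᴴ) (s : ℂ)) dk t
      (fun x => ?_) f
    rcases x with _ | ⟨w, _ | _, p, q⟩
    · have h0 : dk (MvPolynomial.X (none : Vr n)) = 1 := by
        unfold dk
        rw [MvPolynomial.mkDerivation_X]
      rw [h0, map_one]
      exact Complex.ofRealCLM.hasDerivAt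
    · have h0 : dk (MvPolynomial.X (some (w, false, p, q)) : Rg n) = 0 := by
        unfold dk
        rw [MvPolynomial.mkDerivation_X]
      rw [h0, map_zero]
      exact hasDerivAt_const t _
    · have h0 : dk (MvPolynomial.X (some (w, true, p, q)) : Rg n) = 0 := by
        unfold dk
        rw [MvPolynomial.mkDerivation_X]
      rw [h0, map_zero]
      exact hasDerivAt_const t _

end Pool.Agent.DHC
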