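import Pool.Agent.DHC.St
import Pool.Agent.Helper44.Cart.Closed1

/-!
# DHC, Inv: the invariance (helper87)
-/

set_option autoImplicit false

open Matrix Complex MeasureTheory

namespace Pool.Agent.DHC

open Pool.Agent.Helper69.Cart Pool.Agent.Helper44.Cart

theorem Inv_compact (n : ℕ) : CompactSpace (Gp n) := by
  have h : {V : Matrix (Fin n) (Fin n) ℂ | IsU V} =
      ((Matrix.unitaryGroup (Fin n) ℂ : Submonoid (Matrix (Fin n) (Fin n) ℂ)) :
        Set (Matrix (Fin n) (Fin n) ℂ)) := by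
    ext V
    exact ⟨fun h => Matrix.mem_unitaryGroup_iff.2 h.2,
      fun h => ⟨Matrix.mem_unitaryGroup_iff'.1 h, Matrix.mem_unitaryGroup_iff.1 h⟩⟩
  have h1 : IsCompact ((Matrix.unitaryGroup (Fin n) ℂ : Submonoid (Matrix (Fin n) (Fin n) ℂ)) :
        Set (Matrix (Fin n) (Fin n) ℂ)) := h ▸ isCompact_U
  have h2 : CompactSpace (Matrix.unitaryGroup (Fin n) ℂ) := isCompact_iff_compactSpace.1 h1
  infer_instance

theorem Inv_cont (n : ℕ) (κ : ℝ) (f : Rg n) : Continuous fun u : Gp n => evu u κ f := by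
  have hv : ∀ w : Bool, Continuous fun u : Gp n => ((u w : Matrix (Fin n) (Fin n) ℂ)) :=
    fun w => continuous_subtype_val.comp (continuous_apply w)
  have he : ∀ (w : Bool) (p q : Fin n),
      Continuous fun u : Gp n => (u w : Matrix (Fin n) (Fin n) ℂ) p q :=
    fun w p q => (continuous_apply q).comp ((continuous_apply p).comp (hv w))
  induction f using MvPolynomial.induction_on with
  | C a =>
    simp only [evu, MvPolynomial.eval_C]
    exact continuous_const
  | add p q hp hq =>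
    simp only [evu, map_add]
    exact hp.add hq
  | mul_X p v hp =>
    simp only [evu, map_mul, MvPolynomial.eval_X]
    refine hp.mul ?_
    match v with
    | none => exact continuous_const
    | some (w, false, p, q) =>
      show Continuous fun u : Gp n => ((u w : Matrix (Fin n) (Fin n) ℂ))ᴴ p q
      simp only [Matrix.conjTranspose_apply]
      exact continuous_star.comp (he w q p)
    | some (w, true, p, q) =>
      show Continuous fun u : Gp n => (((u w : Matrix (Fin n) (Fin n) ℂ))ᴴ)ᴴ p q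
      simp only [Matrix.conjTranspose_conjTranspose]
      exact he w p q

theorem Inv_key (h1 : St_Sta) (h2 : St_Cnc) (h3 : St_Mom) (n : ℕ)
    (hcard : Fintype.card (Ix n) = 2 * (n * (n - 1))) (a b : Fin n → ℝ)
    (Z : Matrix (Fin n) (Fin n) ℂ) (s : ℝ) (m : ℕ) (u : Gp n) (κ : ℝ) :
    evu u κ (dk (hh a b Z s m * PP (OM a b) (n * (n - 1)))) =
      2 * ((n * (n - 1) : ℕ) : ℂ) * ∑ i, evu u κ (dl (bas i)
        (hh a b Z s m * ZZ (OM a b) (TH a b) (n * (n - 1)) i)) := by
  set N := n * (n - 1) with hN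
  obtain ⟨hO1, hO2, hc0, hcl, hth⟩ := h2 n a b
  have hchar : ∀ r : Rg n, 3 * r = 0 → r = 0 := by
    intro r hr
    exact (mul_eq_zero.1 hr).resolve_left (by norm_num)
  obtain ⟨hA, hB⟩ := h1 (Ix n) (Rg n) hchar N hcard (OM a b) (TH a b) hO1 hO2
  have hA' : 2 * (N : Rg n) * ∑ i, dl (bas i) (hh a b Z s m * ZZ (OM a b) (TH a b) N i) =
      2 * (N : Rg n) * ∑ i, dl (bas i) (hh a b Z s m) * ZZ (OM a b) (TH a b) N i +
        hh a b Z s m * dk (PP (OM a b) N) :=
    hA (fun i j l => MvPolynomial.C (cc i j l))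
      (fun i => (dl (bas i)).restrictScalars ℤ) (dk.restrictScalars ℤ) (hh a b Z s m)
      (fun i j l h => by rw [hc0 i j l h, map_zero]) (fun i j k => hcl i j k)
      (fun i j => hth i j)
  have hg : ∀ w, (fun w => ((u w : Matrix (Fin n) (Fin n) ℂ))ᴴ) w *
      ((fun w => ((u w : Matrix (Fin n) (Fin n) ℂ))ᴴ) w)ᴴ = 1 := by
    intro w
    show ((u w : Matrix (Fin n) (Fin n) ℂ))ᴴ * (((u w : Matrix (Fin n) (Fin n) ℂ))ᴴ)ᴴ = 1
    rw [Matrix.conjTranspose_conjTranspose]
    exact Matrix.mem_unitaryGroup_iff'.1 (u w).2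
  obtain ⟨x, hx1, hx2⟩ := h3 n a b Z s m _ (κ : ℂ) hg
  have hB' := hB (fun j => MvPolynomial.C (x j))
  -- evaluation
  set φ : Rg n →+* ℂ := MvPolynomial.eval (pt (fun w => ((u w : Matrix (Fin n) (Fin n) ℂ))ᴴ)
    (κ : ℂ)) with hφ
  have e : ∀ f, evu u κ f = φ f := fun _ => rfl
  simp only [e]
  have hA2 := congrArg φ hA'
  have hB2 := congrArg φ hB'
  rw [map_mul, map_mul, map_ofNat, map_natCast, map_sum, map_add, map_mul, map_mul, map_ofNat,
    map_natCast, map_sum, map_mul] at hA2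
  simp only [map_mul φ (dl _ _)] at hA2
  simp only [map_mul, map_sum, map_neg, map_natCast, map_ofNat] at hB2
  have hC : ∀ z : ℂ, φ (MvPolynomial.C z) = z := fun z => by
    rw [hφ, MvPolynomial.eval_C]
  simp only [hC] at hB2
  have hx1' : ∀ k, φ (dl (bas k) (hh a b Z s m)) = ∑ j, x j * φ (OM a b j k) := hx1
  have hx2' : φ (dk (hh a b Z s m)) = -∑ j, x j * φ (TH a b j) := hx2
  rw [Derivation.leibniz, map_add, smul_eq_mul, smul_eq_mul, map_mul, map_mul, hx2', hA2]
  simp only [hx1']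
  linear_combination (-1 : ℂ) * hB2

/-- the invariance -/
theorem thm_Inv (h1 : St_Sta) (h2 : St_Cnc) (h3 : St_Mom) : St_Inv := by
  intro n _ _ μ hμ hcard a b Z s m
  haveI := Inv_compact n
  haveI := hμ.prob
  have hint : ∀ (κ : ℝ) (f : Rg n), Integrable (fun u : Gp n => evu u κ f) μ := fun κ f =>
    (Inv_cont n κ f).integrable_of_hasCompactSupport (HasCompactSupport.of_compactSpace _)
  have h0 : ∀ κ : ℝ, ∫ u, evu u κ (dk (hh a b Z s m * PP (OM a b) (n * (n - 1)))) ∂μ = 0 := by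
    intro κ
    simp only [Inv_key h1 h2 h3 n hcard a b Z s m]
    rw [integral_const_mul, integral_finset_sum _ fun i _ => hint κ _,
      Finset.sum_eq_zero fun i _ => hμ.inv _ _ _, mul_zero]
  have hd : ∀ κ : ℝ, HasDerivAt (fun κ : ℝ => ∫ u, evu u κ
      (hh a b Z s m * PP (OM a b) (n * (n - 1))) ∂μ) 0 κ := by
    intro κ
    have h4 := hμ.der (hh a b Z s m * PP (OM a b) (n * (n - 1))) κ
    rw [h0 κ] at h4
    exact h4
  exact is_const_of_deriv_eq_zero (fun κ => (hd κ).differentiableAt) (fun κ => (hd κ).deriv) 0 1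

end Pool.Agent.DHC
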