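import Pool.Agent.DHC.St

/-!
# DHC [Lim]: all spectra (limits of regular spectra)
-/

set_option autoImplicit false

open Matrix Complex Topology Filter

namespace Pool.Agent.DHC

open Pool.Agent.Helper69.Cart Pool.Agent.Helper44.Cart

private theorem Lim_ev {n : ℕ} (a : Fin n → ℝ) :
    ∀ᶠ t in 𝓝[≠] (0 : ℝ), ∀ i j : Fin n,
      (a i + t * ((i : ℝ) + 1)) ^ 2 = (a j + t * ((j : ℝ) + 1)) ^ 2 → i = j := by
  rw [eventually_all]
  intro i
  rw [eventually_all]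
  intro j
  by_cases hij : i = j
  · exact Filter.Eventually.of_forall fun t _ => hij
  · have h5 : (i : ℝ) - (j : ℝ) ≠ 0 := by
      intro h
      apply hij
      apply Fin.ext
      exact_mod_cast sub_eq_zero.1 h
    have h6 : (i : ℝ) + 1 + ((j : ℝ) + 1) ≠ 0 := by positivity
    filter_upwards [affine_ne (c := a i - a j) h5, affine_ne (c := a i + a j) h6] with t ht ht' heq
    exfalso
    have h7 : (a i - a j + t * ((i : ℝ) - (j : ℝ))) *
        (a i + a j + t * ((i : ℝ) + 1 + ((j : ℝ) + 1))) = 0 := by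
      linear_combination heq
    rcases mul_eq_zero.1 h7 with h | h
    · exact ht h
    · exact ht' h

/-- [Lim] -/
theorem thm_Lim (h : St_Fin) : St_Lim := by
  intro n a b γ hs
  obtain ⟨V, W, hV, hW, hF⟩ := hs
  have hseq : ∀ m : ℕ, ∃ t : ℝ, 0 < t ∧ t < 1 / ((m : ℝ) + 2) ∧
      (∀ i j : Fin n, (a i + t * ((i : ℝ) + 1)) ^ 2 = (a j + t * ((j : ℝ) + 1)) ^ 2 → i = j) ∧
      (∀ i j : Fin n, (b i + t * ((i : ℝ) + 1)) ^ 2 = (b j + t * ((j : ℝ) + 1)) ^ 2 → i = j) := by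
    intro m
    have hle : 𝓝[>] (0 : ℝ) ≤ 𝓝[≠] 0 := nhdsWithin_mono _ (fun x hx => ne_of_gt hx)
    have hall := ((Lim_ev a).and (Lim_ev b)).filter_mono hle
    have h1 : Set.Ioo (0 : ℝ) (1 / ((m : ℝ) + 2)) ∈ 𝓝[>] (0 : ℝ) :=
      Ioo_mem_nhdsGT (by positivity)
    obtain ⟨t, ht1, ht2⟩ := (hall.and h1).exists
    exact ⟨t, ht2.1, ht2.2, ht1.1, ht1.2⟩
  choose t ht0 ht1 hta htb using hseq
  have htlim : Tendsto t atTop (𝓝 0) := by
    apply squeeze_zero (fun m => (ht0 m).le) (fun m => (ht1 m).le)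
    have h1 : Tendsto (fun m : ℕ => (m : ℝ) + 2) atTop atTop :=
      tendsto_atTop_add_const_right _ _ tendsto_natCast_atTop_atTop
    have h2 := h1.inv_tendsto_atTop
    refine h2.congr (fun m => ?_)
    rw [Pi.inv_apply, one_div]
  have hlim : ∀ c : Fin n → ℝ,
      Tendsto (fun m => (fun i : Fin n => c i + t m * ((i : ℝ) + 1))) atTop (𝓝 c) := by
    intro c
    have hc : Continuous (fun s : ℝ => (fun i : Fin n => c i + s * ((i : ℝ) + 1))) := by
      fun_prop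
    have h1 := (hc.tendsto 0).comp htlim
    have h0 : (fun i : Fin n => c i + (0 : ℝ) * ((i : ℝ) + 1)) = c := by
      funext i
      simp
    rw [h0] at h1
    exact h1
  set am : ℕ → Fin n → ℝ := fun m i => a i + t m * ((i : ℝ) + 1) with ham
  set bm : ℕ → Fin n → ℝ := fun m i => b i + t m * ((i : ℝ) + 1) with hbm
  have ha' : Tendsto am atTop (𝓝 a) := hlim a
  have hb' : Tendsto bm atTop (𝓝 b) := hlim b
  have hpt : ∀ m, ∃ (γm : Fin n → ℝ) (Wm : Matrix (Fin n) (Fin n) ℂ), IsU Wm ∧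
      G 0 (dg (am m)) (V * dg (bm m) * Vᴴ) = Wm * dg γm * Wmᴴ ∧
      SolG 1 (am m) (bm m) γm := by
    intro m
    have hFh : (G 0 (dg (am m)) (V * dg (bm m) * Vᴴ)).IsHermitian :=
      G_isHermitian (dg_isHermitian _)
        (Matrix.isHermitian_mul_mul_conjTranspose V (dg_isHermitian _))
    obtain ⟨Wm, hWm, hFW⟩ := exists_diag hFh
    exact ⟨hFh.eigenvalues, Wm, hWm, hFW,
      h n (am m) (bm m) _ (hta m) (htb m) ⟨V, Wm, hV, hWm, hFW⟩⟩
  choose γm Wm q1 q2 q3 using hpt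
  have hFm : Tendsto (fun m => G 0 (dg (am m)) (V * dg (bm m) * Vᴴ)) atTop
      (𝓝 (G 0 (dg a) (V * dg b * Vᴴ))) :=
    tendsto_G tendsto_const_nhds ((continuous_dg.tendsto a).comp ha')
      (tendsto_conj hb' tendsto_const_nhds)
  obtain ⟨φ2, τ, hφ2, hl2⟩ := eig_limit hFm q1 q2 hW hF
  have hsol : SolG 1 a b (γ ∘ τ) :=
    solG_closed (u := fun _ => 1) tendsto_const_nhds (ha'.comp hφ2) (hb'.comp hφ2) hl2
      (fun m => q3 (φ2 m))
  exact SolG.unperm (σ := Equiv.refl _) (τ := τ) hsol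

end Pool.Agent.DHC
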