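import Pool.Agent.DHC.St

/-!
# DHC [Mom]: `F_κ` is a moment map, at the points of the group (helper30)
-/

set_option autoImplicit false

open Matrix Complex MeasureTheory

namespace Pool.Agent.DHC

open Pool.Agent.Helper69.Cart Pool.Agent.Helper44.Cart

variable {n : ℕ}

/-! ### cyclicity of the trace -/

private theorem Mom_c1 (D ξ η : Matrix (Fin n) (Fin n) ℂ) :
    trace (D * (ξ * η - η * ξ)) = trace (ξ * (η * D - D * η)) := by
  simp only [Matrix.mul_sub, trace_sub]
  congr 1
  · rw [trace_mul_comm, Matrix.mul_assoc]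
  · rw [← Matrix.mul_assoc, trace_mul_comm]

private theorem Mom_c2 (U U' D ξ N : Matrix (Fin n) (Fin n) ℂ) :
    trace ((U * (ξ * D - D * ξ) * U') * N) =
      trace (ξ * (D * (U' * N * U) - (U' * N * U) * D)) := by
  have e1 : trace ((U * (ξ * D - D * ξ) * U') * N) =
      trace ((ξ * D - D * ξ) * (U' * N * U)) := by
    rw [Matrix.mul_assoc (U * (ξ * D - D * ξ)) U' N, Matrix.mul_assoc U, trace_mul_comm,
      Matrix.mul_assoc]
  rw [e1]
  simp only [Matrix.mul_sub, Matrix.sub_mul, trace_sub]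
  congr 1
  · rw [Matrix.mul_assoc]
  · rw [Matrix.mul_assoc, trace_mul_comm, Matrix.mul_assoc]

private theorem Mom_c3 (U U' X D N : Matrix (Fin n) (Fin n) ℂ) (h : U * U' = 1) :
    trace ((U' * X * U) * (D * (U' * N * U) - (U' * N * U) * D)) =
      trace (X * ((U * D * U') * N - N * (U * D * U'))) := by
  simp only [Matrix.mul_sub, trace_sub]
  congr 1
  · have e : (U' * X * U) * (D * (U' * N * U)) = U' * (X * (U * D * U') * N * U) := by
      simp only [Matrix.mul_assoc]
    rw [e, trace_mul_comm]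
    have e2 : X * (U * D * U') * N * U * U' = X * ((U * D * U') * N) * (U * U') := by
      simp only [Matrix.mul_assoc]
    rw [e2, h, Matrix.mul_one]
  · have e : (U' * X * U) * ((U' * N * U) * D) = U' * (X * ((U * U') * N) * (U * D)) := by
      simp only [Matrix.mul_assoc]
    rw [e, trace_mul_comm, h, Matrix.one_mul]
    congr 1
    simp only [Matrix.mul_assoc]

private theorem Mom_c4 (U U' X M : Matrix (Fin n) (Fin n) ℂ) :
    trace ((U' * X * U) * M) = trace (X * (U * M * U')) := by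
  have e : (U' * X * U) * M = U' * (X * (U * M)) := by simp only [Matrix.mul_assoc]
  rw [e, trace_mul_comm]
  congr 1
  simp only [Matrix.mul_assoc]

private theorem Mom_diag (a : Fin n → ℝ) (M : Matrix (Fin n) (Fin n) ℂ) (p : Fin n) :
    (dg a * M - M * dg a) p p = 0 := by
  unfold dg
  rw [Matrix.sub_apply, Matrix.diagonal_mul, Matrix.mul_diagonal]
  ring

/-! ### the frame -/

private theorem Mom_bas (K : Bool → Matrix (Fin n) (Fin n) ℂ) (j : Ix n) :
    ∑ w, trace (bas j w * K w) = K j.1 j.2.1.2 j.2.1.1 := by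
  rw [Finset.sum_eq_single j.1]
  · unfold bas
    rw [if_pos rfl, trace_single_mul, one_smul]
  · intro w _ hw
    unfold bas
    rw [if_neg hw, Matrix.zero_mul, trace_zero]
  · intro h
    exact absurd (Finset.mem_univ _) h

private theorem Mom_frame (ξ K : Bool → Matrix (Fin n) (Fin n) ℂ) (hK : ∀ w p, K w p p = 0) :
    ∑ j : Ix n, ξ j.1 j.2.1.1 j.2.1.2 * (∑ w, trace (bas j w * K w)) =
      ∑ w, trace (ξ w * K w) := by
  have e1 : ∑ j : Ix n, ξ j.1 j.2.1.1 j.2.1.2 * (∑ w, trace (bas j w * K w)) =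
      ∑ j : Bool × {p : Fin n × Fin n // p.1 ≠ p.2},
        ξ j.1 j.2.1.1 j.2.1.2 * K j.1 j.2.1.2 j.2.1.1 := by
    refine Fintype.sum_equiv (Equiv.refl (Ix n) : Ix n ≃
      Bool × {p : Fin n × Fin n // p.1 ≠ p.2}) _ _ fun j => ?_
    rw [Mom_bas]
    rfl
  rw [e1, Fintype.sum_prod_type]
  refine Finset.sum_congr rfl fun w _ => ?_
  have e2 : ∑ q : {p : Fin n × Fin n // p.1 ≠ p.2}, ξ w q.1.1 q.1.2 * K w q.1.2 q.1.1 =
      ∑ q ∈ Finset.univ.filter (fun q : Fin n × Fin n => q.1 ≠ q.2),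
        ξ w q.1 q.2 * K w q.2 q.1 := by
    symm
    refine Finset.sum_subtype _ (fun q => ?_) (fun q : Fin n × Fin n => ξ w q.1 q.2 * K w q.2 q.1)
    simp
  have e3 : ∑ q ∈ Finset.univ.filter (fun q : Fin n × Fin n => q.1 ≠ q.2),
        ξ w q.1 q.2 * K w q.2 q.1 = ∑ q : Fin n × Fin n, ξ w q.1 q.2 * K w q.2 q.1 := by
    refine Finset.sum_filter_of_ne fun q _ hq hc => hq ?_
    rw [hc, hK, mul_zero]
  refine (e2.trans e3).trans ?_
  rw [Fintype.sum_prod_type, trace]
  refine Finset.sum_congr rfl fun p _ => ?_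
  rw [Matrix.diag_apply, Matrix.mul_apply]

/-! ### derivations of matrices -/

section der

variable (D : Derivation ℂ (Rg n) (Rg n))

private theorem Mom_dmul (M N : Matrix (Fin n) (Fin n) (Rg n)) :
    (M * N).map D = M.map D * N + M * N.map D := by
  refine Matrix.ext fun p q => ?_
  simp only [Matrix.map_apply, Matrix.mul_apply, Matrix.add_apply, map_sum, Derivation.leibniz,
    smul_eq_mul]
  rw [← Finset.sum_add_distrib]
  refine Finset.sum_congr rfl fun r _ => ?_
  ring

private theorem Mom_dadd (M N : Matrix (Fin n) (Fin n) (Rg n)) :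
    (M + N).map D = M.map D + N.map D := by
  refine Matrix.ext fun p q => ?_
  simp only [Matrix.map_apply, Matrix.add_apply, map_add]

private theorem Mom_dsub (M N : Matrix (Fin n) (Fin n) (Rg n)) :
    (M - N).map D = M.map D - N.map D := by
  refine Matrix.ext fun p q => ?_
  simp only [Matrix.map_apply, Matrix.sub_apply, map_sub]

private theorem Mom_dsmul (c : Rg n) (M : Matrix (Fin n) (Fin n) (Rg n)) :
    (c • M).map D = D c • M + c • M.map D := by
  refine Matrix.ext fun p q => ?_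
  simp only [Matrix.map_apply, Matrix.add_apply, Matrix.smul_apply, smul_eq_mul,
    Derivation.leibniz]
  ring

private theorem Mom_dC (z : ℂ) : D (MvPolynomial.C z) = 0 := D.map_algebraMap z

private theorem Mom_dcM (A : Matrix (Fin n) (Fin n) ℂ) : (cM A).map D = 0 := by
  refine Matrix.ext fun p q => ?_
  simp only [cM, Matrix.map_apply, Matrix.zero_apply]
  rw [Mom_dC]

private theorem Mom_dtr (M : Matrix (Fin n) (Fin n) (Rg n)) : D (trace M) = trace (M.map D) := by
  unfold trace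
  rw [map_sum]
  rfl

end der

/-! ### evaluation -/

section ev

variable (e : Rg n →+* ℂ)

private theorem Mom_etr (M : Matrix (Fin n) (Fin n) (Rg n)) : e (trace M) = trace (M.map e) := by
  unfold trace
  rw [map_sum]
  rfl

private theorem Mom_emul (M N : Matrix (Fin n) (Fin n) (Rg n)) :
    (M * N).map e = M.map e * N.map e := Matrix.map_mul

private theorem Mom_eadd (M N : Matrix (Fin n) (Fin n) (Rg n)) :
    (M + N).map e = M.map e + N.map e := by
  refine Matrix.ext fun p q => ?_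
  simp only [Matrix.map_apply, Matrix.add_apply, map_add]

private theorem Mom_esub (M N : Matrix (Fin n) (Fin n) (Rg n)) :
    (M - N).map e = M.map e - N.map e := by
  refine Matrix.ext fun p q => ?_
  simp only [Matrix.map_apply, Matrix.sub_apply, map_sub]

private theorem Mom_esmul (c : Rg n) (M : Matrix (Fin n) (Fin n) (Rg n)) :
    (c • M).map e = e c • M.map e := by
  refine Matrix.ext fun p q => ?_
  simp only [Matrix.map_apply, Matrix.smul_apply, smul_eq_mul, map_mul]

/-- the derivative of `hh` -/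
private theorem Mom_hh (D : Derivation ℂ (Rg n) (Rg n)) (a b : Fin n → ℝ)
    (Z : Matrix (Fin n) (Fin n) ℂ) (s : ℝ) (m : ℕ) (hC : ∀ z, e (MvPolynomial.C z) = z) :
    e (D (hh a b Z s m)) = trace
      ((-((m : ℂ) * (e (1 - MvPolynomial.C (s : ℂ) * trace ((FF a b - cM Z) * (FF a b - cM Z)))) ^
        (m - 1) * (s * 2)) • (FF a b - cM Z).map e) * ((FF a b).map D).map e) := by
  unfold hh
  obtain ⟨Y, hY⟩ : ∃ Y, Y = FF a b - cM Z := ⟨_, rfl⟩
  have hYD : (FF a b).map D = Y.map D := by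
    rw [hY, Mom_dsub, Mom_dcM, sub_zero]
  rw [hYD, ← hY, Derivation.leibniz_pow, map_sub, Derivation.map_one_eq_zero, Derivation.leibniz,
    Mom_dC, Mom_dtr, Mom_dmul]
  have h2 : trace (Y.map D * Y + Y * Y.map D) = 2 * trace (Y * Y.map D) := by
    rw [trace_add, trace_mul_comm (Y.map D) Y]
    ring
  rw [h2]
  simp only [smul_eq_mul, mul_zero, add_zero, zero_sub, nsmul_eq_mul, map_mul, map_neg, map_pow,
    map_natCast, hC, Mom_etr, Mom_emul, Matrix.smul_mul, trace_smul]
  have h3 : e 2 = 2 := map_ofNat e 2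
  rw [h3]
  ring

end ev

section final

variable (a b : Fin n → ℝ) (g : Bool → Matrix (Fin n) (Fin n) ℂ) (κ : ℂ)

private theorem Mom_eC (z : ℂ) : MvPolynomial.eval (pt g κ) (MvPolynomial.C z) = z :=
  MvPolynomial.eval_C z

private theorem Mom_eU (w : Bool) : (mU w).map (MvPolynomial.eval (pt g κ)) = g w := by
  refine Matrix.ext fun p q => ?_
  simp only [mU, Matrix.map_apply, Matrix.of_apply, MvPolynomial.eval_X, pt]

private theorem Mom_eD (w : Bool) : (mD w).map (MvPolynomial.eval (pt g κ)) = (g w)ᴴ := by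
  refine Matrix.ext fun p q => ?_
  simp only [mD, Matrix.map_apply, Matrix.of_apply, MvPolynomial.eval_X, pt]

private theorem Mom_ecM (A : Matrix (Fin n) (Fin n) ℂ) :
    (cM A).map (MvPolynomial.eval (pt g κ)) = A := by
  refine Matrix.ext fun p q => ?_
  simp only [cM, Matrix.map_apply, MvPolynomial.eval_C]

private theorem Mom_eA (w : Bool) :
    (mA w a).map (MvPolynomial.eval (pt g κ)) = g w * dg a * (g w)ᴴ := by
  rw [mA, Mom_emul, Mom_emul, Mom_eU, Mom_ecM, Mom_eD]

private theorem Mom_eaD (w : Bool) (ξ : Bool → Matrix (Fin n) (Fin n) ℂ) :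
    (aD w a ξ).map (MvPolynomial.eval (pt g κ)) =
      g w * (ξ w * dg a - dg a * ξ w) * (g w)ᴴ := by
  rw [aD, Mom_emul, Mom_emul, Mom_eU, Mom_ecM, Mom_eD]

private theorem Mom_dA (w : Bool) (ξ : Bool → Matrix (Fin n) (Fin n) ℂ) :
    (mA w a).map (dl ξ) = aD w a ξ := by
  have hU : (mU w).map (dl ξ) = mU w * cM (ξ w) := by
    refine Matrix.ext fun p q => ?_
    rw [Matrix.map_apply]
    unfold dl
    have e : (mU w : Matrix (Fin n) (Fin n) (Rg n)) p q =
      MvPolynomial.X (some (w, false, p, q)) := rfl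
    rw [e, MvPolynomial.mkDerivation_X]
  have hD : (mD w).map (dl ξ) = -(cM (ξ w) * mD w) := by
    refine Matrix.ext fun p q => ?_
    rw [Matrix.map_apply]
    unfold dl
    have e : (mD w : Matrix (Fin n) (Fin n) (Rg n)) p q =
      MvPolynomial.X (some (w, true, p, q)) := rfl
    rw [e, MvPolynomial.mkDerivation_X]
    rfl
  have hc : (cM (ξ w * dg a - dg a * ξ w) : Matrix (Fin n) (Fin n) (Rg n)) =
      cM (ξ w) * cM (dg a) - cM (dg a) * cM (ξ w) := by
    unfold cM
    rw [← Matrix.map_mul, ← Matrix.map_mul]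
    refine Matrix.ext fun p q => ?_
    simp only [Matrix.map_apply, Matrix.sub_apply, map_sub]
  rw [mA, Mom_dmul, Mom_dmul, hU, hD, Mom_dcM, mul_zero, add_zero, aD, hc]
  simp only [Matrix.mul_sub, Matrix.sub_mul, Matrix.mul_neg, Matrix.mul_assoc]
  rw [← sub_eq_add_neg]

private theorem Mom_kA (w : Bool) : (mA w a).map (dk : Derivation ℂ (Rg n) (Rg n)) = 0 := by
  have hU : (mU w).map (dk : Derivation ℂ (Rg n) (Rg n)) = 0 := by
    refine Matrix.ext fun p q => ?_
    rw [Matrix.map_apply]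
    unfold dk
    have e : (mU w : Matrix (Fin n) (Fin n) (Rg n)) p q =
      MvPolynomial.X (some (w, false, p, q)) := rfl
    rw [e, MvPolynomial.mkDerivation_X]
    rfl
  have hD : (mD w).map (dk : Derivation ℂ (Rg n) (Rg n)) = 0 := by
    refine Matrix.ext fun p q => ?_
    rw [Matrix.map_apply]
    unfold dk
    have e : (mD w : Matrix (Fin n) (Fin n) (Rg n)) p q =
      MvPolynomial.X (some (w, true, p, q)) := rfl
    rw [e, MvPolynomial.mkDerivation_X]
    rfl
  rw [mA, Mom_dmul, Mom_dmul, hU, hD, Mom_dcM]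
  simp only [Matrix.mul_zero, Matrix.zero_mul, add_zero]

private theorem Mom_dFF (ξ : Bool → Matrix (Fin n) (Fin n) ℂ) :
    (FF a b).map (dl ξ) = aD false (fun i => a i ^ 2) ξ + aD true (fun i => b i ^ 2) ξ +
      (MvPolynomial.C I * MvPolynomial.X none : Rg n) •
        (aD false a ξ * mA true b + mA false a * aD true b ξ -
          (aD true b ξ * mA false a + mA true b * aD false a ξ)) := by
  have h0 : dl ξ (MvPolynomial.C I * MvPolynomial.X none : Rg n) = 0 := by
    rw [Derivation.leibniz, Mom_dC]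
    unfold dl
    rw [MvPolynomial.mkDerivation_X, smul_zero, smul_zero, add_zero]
  rw [FF, Mom_dadd, Mom_dadd, Mom_dsmul, Mom_dsub, Mom_dmul, Mom_dmul, h0, zero_smul, zero_add]
  simp only [Mom_dA]

private theorem Mom_kFF : (FF a b).map (dk : Derivation ℂ (Rg n) (Rg n)) =
    (MvPolynomial.C I : Rg n) • (mA false a * mA true b - mA true b * mA false a) := by
  have h0 : dk (MvPolynomial.C I * MvPolynomial.X none : Rg n) = MvPolynomial.C I := by
    rw [Derivation.leibniz, Mom_dC]
    unfold dk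
    rw [MvPolynomial.mkDerivation_X, smul_zero, add_zero, smul_eq_mul, mul_one]
  rw [FF, Mom_dadd, Mom_dadd, Mom_dsmul, Mom_dsub, Mom_dmul, Mom_dmul, h0]
  simp only [Mom_kA, Matrix.mul_zero, Matrix.zero_mul, add_zero, sub_zero, smul_zero, zero_add]

/-- the matrices `K` of the 2-form: `Om ξ η = ∑ w, tr (ξ w * K w)` -/
private noncomputable def Mom_K (η : Bool → Matrix (Fin n) (Fin n) ℂ) :
    Bool → Matrix (Fin n) (Fin n) ℂ
  | false => I • (dg (fun i => a i ^ 2) * η false - η false * dg (fun i => a i ^ 2)) +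
      κ • (dg a * ((g false)ᴴ * (g true * (η true * dg b - dg b * η true) * (g true)ᴴ) * g false) -
        ((g false)ᴴ * (g true * (η true * dg b - dg b * η true) * (g true)ᴴ) * g false) * dg a)
  | true => I • (dg (fun i => b i ^ 2) * η true - η true * dg (fun i => b i ^ 2)) -
      κ • (dg b * ((g true)ᴴ * (g false * (η false * dg a - dg a * η false) * (g false)ᴴ) *
          g true) -
        ((g true)ᴴ * (g false * (η false * dg a - dg a * η false) * (g false)ᴴ) * g true) * dg b)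

private theorem Mom_Kf (η : Bool → Matrix (Fin n) (Fin n) ℂ) : Mom_K a b g κ η false =
    I • (dg (fun i => a i ^ 2) * η false - η false * dg (fun i => a i ^ 2)) +
      κ • (dg a * ((g false)ᴴ * (g true * (η true * dg b - dg b * η true) * (g true)ᴴ) * g false) -
        ((g false)ᴴ * (g true * (η true * dg b - dg b * η true) * (g true)ᴴ) * g false) * dg a) :=
  rfl

private theorem Mom_Kt (η : Bool → Matrix (Fin n) (Fin n) ℂ) : Mom_K a b g κ η true =
    I • (dg (fun i => b i ^ 2) * η true - η true * dg (fun i => b i ^ 2)) -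
      κ • (dg b * ((g true)ᴴ * (g false * (η false * dg a - dg a * η false) * (g false)ᴴ) *
          g true) -
        ((g true)ᴴ * (g false * (η false * dg a - dg a * η false) * (g false)ᴴ) * g true) * dg b) :=
  rfl

private theorem Mom_Kd (η : Bool → Matrix (Fin n) (Fin n) ℂ) (w : Bool) (p : Fin n) :
    Mom_K a b g κ η w p p = 0 := by
  cases w
  · rw [Mom_Kf]
    rw [Matrix.add_apply, Matrix.smul_apply, Matrix.smul_apply, Mom_diag, Mom_diag, smul_zero,
      smul_zero, add_zero]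
  · rw [Mom_Kt]
    rw [Matrix.sub_apply, Matrix.smul_apply, Matrix.smul_apply, Mom_diag, Mom_diag, smul_zero,
      smul_zero, sub_zero]

private theorem Mom_Om (ξ η : Bool → Matrix (Fin n) (Fin n) ℂ) :
    MvPolynomial.eval (pt g κ) (Om a b ξ η) = ∑ w, trace (ξ w * Mom_K a b g κ η w) := by
  rw [Fintype.sum_bool, Mom_Kf, Mom_Kt]
  unfold Om
  rw [map_add, MvPolynomial.eval_C, map_mul, map_sub, Mom_etr, Mom_etr, Mom_emul, Mom_emul,
    MvPolynomial.eval_X, Mom_eaD, Mom_eaD, Mom_eaD, Mom_eaD]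
  have hp : pt g κ none = κ := rfl
  rw [hp, Mom_c1 (dg (fun i => a i ^ 2)) (ξ false) (η false),
    Mom_c1 (dg (fun i => b i ^ 2)) (ξ true) (η true), Mom_c2 (g false) (g false)ᴴ (dg a) (ξ false)]
  rw [trace_mul_comm (g false * (η false * dg a - dg a * η false) * (g false)ᴴ),
    Mom_c2 (g true) (g true)ᴴ (dg b) (ξ true)]
  simp only [Matrix.mul_add, Matrix.mul_sub, Matrix.mul_smul, trace_add, trace_sub, trace_smul,
    smul_eq_mul]
  ring

private theorem Mom_A (X : Matrix (Fin n) (Fin n) ℂ) (hg : ∀ w, g w * (g w)ᴴ = 1)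
    (η : Bool → Matrix (Fin n) (Fin n) ℂ) :
    ∑ w, trace ((I • ((g w)ᴴ * X * g w)) * Mom_K a b g κ η w) =
      trace (X * ((FF a b).map (dl η)).map (MvPolynomial.eval (pt g κ))) := by
  rw [Fintype.sum_bool, Mom_dFF, Mom_eadd, Mom_eadd, Mom_esmul, Mom_esub, Mom_eadd, Mom_eadd,
    Mom_emul, Mom_emul, Mom_emul, Mom_emul, map_mul, MvPolynomial.eval_C, MvPolynomial.eval_X,
    Mom_eaD, Mom_eaD, Mom_eaD, Mom_eaD, Mom_eA, Mom_eA]
  have hp : pt g κ none = κ := rfl
  rw [hp, Mom_Kf, Mom_Kt]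
  simp only [Matrix.mul_add (_ : Matrix (Fin n) (Fin n) ℂ) (_ • _) (_ • _),
    Matrix.mul_sub (_ : Matrix (Fin n) (Fin n) ℂ) (_ • _) (_ • _), Matrix.mul_smul,
    Matrix.smul_mul, trace_add, trace_sub, trace_smul, smul_eq_mul]
  rw [Mom_c3 (g true) (g true)ᴴ X _ _ (hg true), Mom_c3 (g false) (g false)ᴴ X _ _ (hg false),
    Mom_c4 (g true) (g true)ᴴ X, Mom_c4 (g false) (g false)ᴴ X]
  simp only [Matrix.mul_add, Matrix.mul_sub, Matrix.sub_mul, trace_add, trace_sub,
    Matrix.mul_smul, trace_smul, smul_eq_mul]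
  linear_combination ((X * (g true * (dg (fun i => b i ^ 2) * η true) * (g true)ᴴ)).trace -
    (X * (g true * (η true * dg (fun i => b i ^ 2)) * (g true)ᴴ)).trace +
    (X * (g false * (dg (fun i => a i ^ 2) * η false) * (g false)ᴴ)).trace -
    (X * (g false * (η false * dg (fun i => a i ^ 2)) * (g false)ᴴ)).trace) * Complex.I_mul_I

private theorem Mom_B (X : Matrix (Fin n) (Fin n) ℂ) (hg : ∀ w, g w * (g w)ᴴ = 1) :
    -∑ j : Ix n, (I • ((g j.1)ᴴ * X * g j.1)) j.2.1.1 j.2.1.2 *
        MvPolynomial.eval (pt g κ) (TH a b j) =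
      trace (X * ((FF a b).map (dk : Derivation ℂ (Rg n) (Rg n))).map
        (MvPolynomial.eval (pt g κ))) := by
  obtain ⟨K, hK⟩ : ∃ K : Bool → Matrix (Fin n) (Fin n) ℂ, K = fun w => if w = true then
      dg b * ((g true)ᴴ * (g false * dg a * (g false)ᴴ) * g true) -
        ((g true)ᴴ * (g false * dg a * (g false)ᴴ) * g true) * dg b else 0 := ⟨_, rfl⟩
  have hKt : K true = dg b * ((g true)ᴴ * (g false * dg a * (g false)ᴴ) * g true) -
        ((g true)ᴴ * (g false * dg a * (g false)ᴴ) * g true) * dg b := by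
    rw [hK]
    exact if_pos rfl
  have hKf : K false = 0 := by
    rw [hK]
    exact if_neg (by simp)
  have hKd : ∀ w p, K w p p = 0 := by
    intro w p
    cases w
    · rw [hKf]
      rfl
    · rw [hKt, Mom_diag]
  have h1 : ∀ j : Ix n, MvPolynomial.eval (pt g κ) (TH a b j) = ∑ w, trace (bas j w * K w) := by
    intro j
    rw [Fintype.sum_bool, hKf, hKt, Matrix.mul_zero, trace_zero, add_zero]
    unfold TH th
    rw [Mom_etr, Mom_emul, Mom_eA, Mom_eaD, trace_mul_comm, Mom_c2]
  have h2 := Mom_frame (fun w => I • ((g w)ᴴ * X * g w)) K hKd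
  have h3 : ∑ j : Ix n, (I • ((g j.1)ᴴ * X * g j.1)) j.2.1.1 j.2.1.2 *
        MvPolynomial.eval (pt g κ) (TH a b j) =
      ∑ w, trace ((I • ((g w)ᴴ * X * g w)) * K w) := by
    rw [← h2]
    refine Finset.sum_congr rfl fun j _ => ?_
    rw [h1 j]
  rw [h3, Fintype.sum_bool, hKf, hKt, Matrix.mul_zero, trace_zero, add_zero, Matrix.smul_mul,
    trace_smul, Mom_c3 (g true) (g true)ᴴ X _ _ (hg true), Mom_kFF, Mom_esmul, Mom_esub,
    Mom_emul, Mom_emul, Mom_eA, Mom_eA, MvPolynomial.eval_C, Matrix.mul_smul, trace_smul,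
    Matrix.mul_sub, Matrix.mul_sub, trace_sub, trace_sub, smul_eq_mul, smul_eq_mul]
  ring

end final

/-- **Mom.** -/
theorem thm_Mom : St_Mom := by
  intro n a b Z s m g κ hg
  obtain ⟨X, hX⟩ : ∃ X : Matrix (Fin n) (Fin n) ℂ,
      X = (-((m : ℂ) * (MvPolynomial.eval (pt g κ) (1 - MvPolynomial.C (s : ℂ) *
        trace ((FF a b - cM Z) * (FF a b - cM Z)))) ^ (m - 1) * (s * 2)) •
        (FF a b - cM Z).map (MvPolynomial.eval (pt g κ))) := ⟨_, rfl⟩
  have hD : ∀ D : Derivation ℂ (Rg n) (Rg n), MvPolynomial.eval (pt g κ) (D (hh a b Z s m)) =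
      trace (X * ((FF a b).map D).map (MvPolynomial.eval (pt g κ))) := fun D => by
    rw [hX]
    exact Mom_hh (MvPolynomial.eval (pt g κ)) D a b Z s m (Mom_eC g κ)
  refine ⟨fun j => (I • ((g j.1)ᴴ * X * g j.1)) j.2.1.1 j.2.1.2, fun k => ?_, ?_⟩
  · rw [hD, ← Mom_A a b g κ X hg (bas k),
      ← Mom_frame (fun w => I • ((g w)ᴴ * X * g w)) _ (Mom_Kd a b g κ (bas k))]
    refine Finset.sum_congr rfl fun j _ => ?_
    unfold OM
    rw [Mom_Om]
  · rw [hD]
    exact (Mom_B a b g κ X hg).symm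

end Pool.Agent.DHC
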