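import Pool.Agent.DHC.St

/-!
# DHC, module Non: the constant at `κ = 0` (helper76)
-/

set_option autoImplicit false

open Matrix Complex MeasureTheory

namespace Pool.Agent.DHC

open Pool.Agent.Helper69.Cart Pool.Agent.Helper44.Cart

section Non_abs

variable {ι : Type} [LinearOrder ι] [Fintype ι] {R : Type} [CommRing R] [IsDomain R] [CharZero R]

private lemma Non_neg_mul (A B : Module.End R (Finset ι → R)) : -A * B = -(A * B) :=
  LinearMap.ext fun _ => rfl

private lemma Non_mul_neg (A B : Module.End R (Finset ι → R)) : A * -B = -(A * B) :=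
  LinearMap.ext fun f => map_neg A (B f)

private lemma Non_neg_smul (μ : R) (A : Module.End R (Finset ι → R)) : -μ • A = -(μ • A) :=
  LinearMap.ext fun f => neg_smul μ (A f)

private lemma Non_cr_ww (h : St_Car) (Ω : ι → ι → R) (l : ι) :
    (cr l : Module.End R (Finset ι → R)) * WW Ω = WW Ω * cr l := by
  obtain ⟨h1, -⟩ := h ι R
  unfold WW
  rw [Finset.mul_sum, Finset.sum_mul]
  refine Finset.sum_congr rfl fun i _ => ?_
  rw [Finset.mul_sum, Finset.sum_mul]
  refine Finset.sum_congr rfl fun j _ => ?_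
  rw [mul_smul_comm, smul_mul_assoc]
  congr 1
  have e1 : (cr l : Module.End R (Finset ι → R)) * (cr i * cr j) = -(cr i * (cr l * cr j)) := by
    rw [← mul_assoc, h1 l i, Non_neg_mul, mul_assoc]
  rw [e1, h1 l j, Non_mul_neg, neg_neg, mul_assoc]

private lemma Non_an_ww (h : St_Car) (Ω : ι → ι → R) (hΩ : ∀ i j, Ω j i = -Ω i j) (k l : ι) (μ : R)
    (hk : ∀ j, Ω k j = if j = l then μ else 0) :
    (an k : Module.End R (Finset ι → R)) * WW Ω = WW Ω * an k + (2 * μ) • cr l := by
  obtain ⟨-, -, h3, -⟩ := h ι R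
  have e : ∀ i j : ι, (an k : Module.End R (Finset ι → R)) * (cr i * cr j) =
      cr i * cr j * an k + ((if k = i then (1 : R) else 0) • cr j -
        (if k = j then (1 : R) else 0) • cr i) := by
    intro i j
    have e1 : (an k : Module.End R (Finset ι → R)) * cr i =
        (if k = i then 1 else 0) - cr i * an k := eq_sub_of_add_eq (h3 k i)
    have e2 : (an k : Module.End R (Finset ι → R)) * cr j =
        (if k = j then 1 else 0) - cr j * an k := eq_sub_of_add_eq (h3 k j)
    rw [← mul_assoc, e1, sub_mul, mul_assoc, e2, mul_sub]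
    split_ifs <;> simp [mul_assoc] <;> abel
  have s1 : (an k : Module.End R (Finset ι → R)) * WW Ω =
      ∑ i, ∑ j, (Ω i j • (cr i * cr j * an k) +
        (Ω i j * (if k = i then (1 : R) else 0)) • cr j -
        (Ω i j * (if k = j then (1 : R) else 0)) • cr i) := by
    unfold WW
    rw [Finset.mul_sum]
    refine Finset.sum_congr rfl fun i _ => ?_
    rw [Finset.mul_sum]
    refine Finset.sum_congr rfl fun j _ => ?_
    rw [mul_smul_comm, e, smul_add, smul_sub, smul_smul, smul_smul]
    abel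
  have s2 : WW Ω * (an k : Module.End R (Finset ι → R)) =
      ∑ i, ∑ j, Ω i j • (cr i * cr j * an k) := by
    unfold WW
    rw [Finset.sum_mul]
    refine Finset.sum_congr rfl fun i _ => ?_
    rw [Finset.sum_mul]
    refine Finset.sum_congr rfl fun j _ => ?_
    rw [smul_mul_assoc]
  have s3 : (∑ i, ∑ j, (Ω i j * (if k = i then (1 : R) else 0)) •
      (cr j : Module.End R (Finset ι → R))) = μ • cr l := by
    rw [Finset.sum_eq_single k]
    · simp only [if_true, mul_one, hk, ite_smul, zero_smul, Finset.sum_ite_eq', Finset.mem_univ]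
    · intro i _ hi
      refine Finset.sum_eq_zero fun j _ => ?_
      rw [if_neg (Ne.symm hi), mul_zero, zero_smul]
    · intro hh
      exact absurd (Finset.mem_univ k) hh
  have s4 : (∑ i, ∑ j, (Ω i j * (if k = j then (1 : R) else 0)) •
      (cr i : Module.End R (Finset ι → R))) = -(μ • cr l) := by
    rw [Finset.sum_comm, Finset.sum_eq_single k]
    · simp only [if_true, mul_one]
      rw [Finset.sum_eq_single l]
      · rw [hΩ k l, hk, if_pos rfl, Non_neg_smul]
      · intro j _ hj
        rw [hΩ k j, hk, if_neg hj, neg_zero, zero_smul]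
      · intro hh
        exact absurd (Finset.mem_univ l) hh
    · intro i _ hi
      refine Finset.sum_eq_zero fun j _ => ?_
      rw [if_neg (Ne.symm hi), mul_zero, zero_smul]
    · intro hh
      exact absurd (Finset.mem_univ k) hh
  rw [s1, s2]
  simp only [Finset.sum_add_distrib, Finset.sum_sub_distrib]
  rw [s3, s4, two_mul, add_smul]
  abel

private lemma Non_an_pow (h : St_Car) (Ω : ι → ι → R) (hΩ : ∀ i j, Ω j i = -Ω i j) (k l : ι) (μ : R)
    (hk : ∀ j, Ω k j = if j = l then μ else 0) (m : ℕ) :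
    (an k : Module.End R (Finset ι → R)) * WW Ω ^ (m + 1) =
      WW Ω ^ (m + 1) * an k + (2 * ((m : R) + 1) * μ) • (cr l * WW Ω ^ m) := by
  induction m with
  | zero =>
    simp only [zero_add, pow_one, Nat.cast_zero, mul_one, pow_zero]
    exact Non_an_ww h Ω hΩ k l μ hk
  | succ m ih =>
    have hc : (cr l : Module.End R (Finset ι → R)) * WW Ω ^ (m + 1) = WW Ω ^ (m + 1) * cr l :=
      (Commute.pow_right (show Commute (cr l : Module.End R (Finset ι → R)) (WW Ω) from
        Non_cr_ww h Ω l) (m + 1))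
    rw [pow_succ (WW Ω) (m + 1), ← mul_assoc, ih, add_mul, mul_assoc (WW Ω ^ (m + 1)) (an k) (WW Ω),
      Non_an_ww h Ω hΩ k l μ hk, mul_add, smul_mul_assoc, mul_assoc (cr l), ← pow_succ,
      ← mul_assoc, mul_smul_comm, ← hc, add_assoc, ← add_smul]
    congr 2
    push_cast
    ring

private lemma Non_supp (Ω : ι → ι → R) (m : ℕ) : ∀ S : Finset ι,
    ((WW Ω ^ m : Module.End R (Finset ι → R)) vac) S ≠ 0 → S.card = 2 * m := by
  induction m with
  | zero =>
    intro S hS
    by_contra hc
    apply hS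
    have : S ≠ ∅ := by
      intro h0
      apply hc
      rw [h0]
      rfl
    simp [vac, this]
  | succ m ih =>
    intro S hS
    rw [pow_succ', Module.End.mul_apply] at hS
    generalize (WW Ω ^ m : Module.End R (Finset ι → R)) vac = f at hS ih
    unfold WW at hS
    rw [LinearMap.sum_apply, Finset.sum_apply] at hS
    obtain ⟨i, -, hi⟩ := Finset.exists_ne_zero_of_sum_ne_zero hS
    rw [LinearMap.sum_apply, Finset.sum_apply] at hi
    obtain ⟨j, -, hj⟩ := Finset.exists_ne_zero_of_sum_ne_zero hi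
    have h2 : (cr i : Module.End R (Finset ι → R)) ((cr j : Module.End R (Finset ι → R)) f) S ≠ 0 := by
      intro h0
      apply hj
      rw [LinearMap.smul_apply, Pi.smul_apply, Module.End.mul_apply, h0, smul_zero]
    have hiS : i ∈ S := by
      by_contra hc
      apply h2
      simp [cr, hc]
    have h3 : (cr j : Module.End R (Finset ι → R)) f (S.erase i) ≠ 0 := by
      intro h0
      apply h2
      change (if i ∈ S then (sg i S : R) * ((cr j : Module.End R (Finset ι → R)) f) (S.erase i)
        else 0) = 0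
      rw [h0, mul_zero, ite_self]
    have hjS : j ∈ S.erase i := by
      by_contra hc
      apply h3
      change (if j ∈ S.erase i then (sg j (S.erase i) : R) * f ((S.erase i).erase j) else 0) = 0
      rw [if_neg hc]
    have h4 : f ((S.erase i).erase j) ≠ 0 := by
      intro h0
      apply h3
      change (if j ∈ S.erase i then (sg j (S.erase i) : R) * f ((S.erase i).erase j) else 0) = 0
      rw [h0, mul_zero, ite_self]
    have h5 := ih _ h4
    rw [Finset.card_erase_of_mem hjS, Finset.card_erase_of_mem hiS] at h5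
    have h6 : 0 < (S.erase i).card := Finset.card_pos.2 ⟨j, hjS⟩
    rw [Finset.card_erase_of_mem hiS] at h6
    omega

private lemma Non_ne (h : St_Car) (Ω : ι → ι → R) (hΩ : ∀ i j, Ω j i = -Ω i j)
    (H : ∀ l : ι, ∃ (k : ι) (μ : R), μ ≠ 0 ∧ ∀ j, Ω k j = if j = l then μ else 0) (m : ℕ) :
    2 * m ≤ Fintype.card ι → (WW Ω ^ m : Module.End R (Finset ι → R)) vac ≠ 0 := by
  induction m with
  | zero =>
    intro _ h0
    have := congrFun h0 ∅
    simp [vac] at this
  | succ m ih =>
    intro hm h0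
    have hm' : 2 * m ≤ Fintype.card ι := by omega
    have hne := ih hm'
    obtain ⟨S, hS⟩ := Function.ne_iff.1 hne
    have hcard := Non_supp Ω m S hS
    have hex : ∃ l, l ∉ S := by
      by_contra hc
      push Not at hc
      have hu : S = Finset.univ := Finset.eq_univ_iff_forall.2 hc
      rw [hu, Finset.card_univ] at hcard
      omega
    obtain ⟨l, hl⟩ := hex
    obtain ⟨k, μ, hμ, hk⟩ := H l
    have e := congrArg (fun T : Module.End R (Finset ι → R) => T vac)
      (Non_an_pow h Ω hΩ k l μ hk m)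
    simp only [Module.End.mul_apply, LinearMap.add_apply, LinearMap.smul_apply] at e
    rw [h0, map_zero, (h ι R).2.2.2.1 k, map_zero, zero_add] at e
    have h2 : (2 * ((m : R) + 1) * μ) ≠ 0 := by
      refine mul_ne_zero (mul_ne_zero two_ne_zero ?_) hμ
      exact_mod_cast Nat.succ_ne_zero m
    have e2 := (smul_eq_zero.1 e.symm).resolve_left h2
    have e3 := congrFun e2 (insert l S)
    change (if l ∈ insert l S then (sg l (insert l S) : R) *
      ((WW Ω ^ m : Module.End R (Finset ι → R)) vac) ((insert l S).erase l) else 0) = 0 at e3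
    rw [if_pos (Finset.mem_insert_self l S), Finset.erase_insert hl] at e3
    rcases mul_eq_zero.1 e3 with h5 | h5
    · unfold sg at h5
      push_cast at h5
      exact absurd h5 (pow_ne_zero _ (by norm_num))
    · exact hS h5

private lemma Non_PP (h : St_Car) (Ω : ι → ι → R) (hΩ : ∀ i j, Ω j i = -Ω i j)
    (H : ∀ l : ι, ∃ (k : ι) (μ : R), μ ≠ 0 ∧ ∀ j, Ω k j = if j = l then μ else 0) (N : ℕ)
    (hN : Fintype.card ι = 2 * N) : PP Ω N ≠ 0 := by
  have hne := Non_ne h Ω hΩ H N (by omega)
  obtain ⟨S, hS⟩ := Function.ne_iff.1 hne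
  have hcard := Non_supp Ω N S hS
  have hu : S = Finset.univ := by
    rw [← Finset.card_eq_iff_eq_univ]
    omega
  rw [hu] at hS
  exact hS

end Non_abs

private lemma Non_card (n : ℕ) : Fintype.card (Ix n) = 2 * (n * (n - 1)) := by
  have h1 : Fintype.card (Ix n) = Fintype.card (Bool × {p : Fin n × Fin n // p.1 ≠ p.2}) :=
    Fintype.card_congr (Equiv.refl _)
  rw [h1, Fintype.card_prod, Fintype.card_bool]
  congr 1
  rw [Fintype.card_subtype]
  have h2 : (Finset.univ.filter fun p : Fin n × Fin n => p.1 ≠ p.2) =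
      (Finset.univ : Finset (Fin n)).offDiag := by
    ext p
    simp [Finset.mem_offDiag]
  rw [h2, Finset.offDiag_card, Finset.card_univ, Fintype.card_fin, Nat.mul_sub, mul_one]

private lemma Non_tr {n : ℕ} (d : Fin n → ℝ) (p q r s : Fin n) :
    trace (dg d * (Matrix.single p q (1 : ℂ) * Matrix.single r s 1)) =
      if q = r ∧ s = p then (d p : ℂ) else 0 := by
  by_cases hqr : q = r
  · subst hqr
    rw [Matrix.single_mul_single_same, mul_one]
    unfold dg
    rw [Matrix.trace]
    have ed : ∀ i, (Matrix.diagonal (fun i => (d i : ℂ)) * Matrix.single p s (1 : ℂ)).diag i =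
        (d i : ℂ) * Matrix.single p s (1 : ℂ) i i := by
      intro i
      rw [Matrix.diag_apply, Matrix.diagonal_mul]
    rw [Finset.sum_congr rfl fun i _ => ed i]
    by_cases hsp : s = p
    · subst hsp
      rw [if_pos (⟨rfl, rfl⟩ : q = q ∧ s = s), Finset.sum_eq_single s]
      · simp
      · intro i _ hi
        rw [Matrix.single_apply_of_ne, mul_zero]
        intro hh
        exact hi hh.1.symm
      · intro hh
        exact absurd (Finset.mem_univ s) hh
    · rw [if_neg (fun hh => hsp hh.2)]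
      refine Finset.sum_eq_zero fun i _ => ?_
      rw [Matrix.single_apply_of_ne, mul_zero]
      intro hh
      exact hsp (hh.2.trans hh.1.symm)
  · rw [if_neg (fun hh => hqr hh.1), Matrix.single_mul_single_of_ne (h := hqr), mul_zero,
      Matrix.trace_zero]

/-- the form at `κ = 0` -/
private noncomputable def Non_O {n : ℕ} (a b : Fin n → ℝ) (i j : Ix n) : ℂ :=
  -I * trace (dg (fun i => a i ^ 2) * (bas i false * bas j false - bas j false * bas i false)) -
    I * trace (dg (fun i => b i ^ 2) * (bas i true * bas j true - bas j true * bas i true))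

private lemma Non_anti {n : ℕ} (a b : Fin n → ℝ) (i j : Ix n) : Non_O a b j i = -Non_O a b i j := by
  unfold Non_O
  rw [← neg_sub (bas i false * bas j false), ← neg_sub (bas i true * bas j true), mul_neg, mul_neg,
    Matrix.trace_neg, Matrix.trace_neg]
  ring

private lemma Non_ext {n : ℕ} (j l : Ix n) :
    j = l ↔ j.1 = l.1 ∧ j.2.1.1 = l.2.1.1 ∧ j.2.1.2 = l.2.1.2 := by
  constructor
  · intro h
    subst h
    exact ⟨rfl, rfl, rfl⟩
  · rintro ⟨h1, h2, h3⟩
    exact Prod.ext h1 (Subtype.ext (Prod.ext h2 h3))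

/-- the squares -/
private def Non_D {n : ℕ} (a b : Fin n → ℝ) (w : Bool) : Fin n → ℝ :=
  fun i => if w = true then b i ^ 2 else a i ^ 2

private lemma Non_O_eq {n : ℕ} (a b : Fin n → ℝ) (i j : Ix n) (hij : i.1 = j.1) :
    Non_O a b i j = -I * ((if i.2.1.2 = j.2.1.1 ∧ j.2.1.2 = i.2.1.1 then
      ((Non_D a b i.1 i.2.1.1 : ℝ) : ℂ) else 0) - (if j.2.1.2 = i.2.1.1 ∧ i.2.1.2 = j.2.1.1 then
      ((Non_D a b i.1 j.2.1.1 : ℝ) : ℂ) else 0)) := by
  unfold Non_O bas
  cases hw : i.1
  · rw [hw] at hij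
    simp only [← hij, if_true, Bool.true_eq_false, if_false, mul_zero, sub_self, sub_zero,
      Matrix.trace_zero]
    rw [mul_sub, Matrix.trace_sub, Non_tr, Non_tr]
    simp only [Non_D, Bool.false_eq_true, if_false]
  · rw [hw] at hij
    simp only [← hij, if_true, Bool.false_eq_true, if_false, mul_zero, sub_self, zero_sub,
      Matrix.trace_zero]
    rw [mul_sub, Matrix.trace_sub, Non_tr, Non_tr]
    simp only [Non_D, if_true]
    ring

private lemma Non_O_ne {n : ℕ} (a b : Fin n → ℝ) (i j : Ix n) (hij : i.1 ≠ j.1) :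
    Non_O a b i j = 0 := by
  unfold Non_O bas
  cases hw : i.1 <;> cases hw' : j.1
  · exact absurd (hw.trans hw'.symm) hij
  · simp
  · simp
  · exact absurd (hw.trans hw'.symm) hij

private lemma Non_H {n : ℕ} (a b : Fin n → ℝ) (ha : ∀ i j, a i ^ 2 = a j ^ 2 → i = j)
    (hb : ∀ i j, b i ^ 2 = b j ^ 2 → i = j) (l : Ix n) :
    ∃ (k : Ix n) (μ : ℂ), μ ≠ 0 ∧ ∀ j, Non_O a b k j = if j = l then μ else 0 := by
  obtain ⟨k, hk⟩ : ∃ k : Ix n, k.1 = l.1 ∧ k.2.1.1 = l.2.1.2 ∧ k.2.1.2 = l.2.1.1 :=
    ⟨(⟨l.1, ⟨(l.2.1.2, l.2.1.1), Ne.symm l.2.2⟩⟩ : Bool × {p : Fin n × Fin n // p.1 ≠ p.2}),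
      rfl, rfl, rfl⟩
  obtain ⟨k1, k2, k3⟩ := hk
  refine ⟨k, -I * (((Non_D a b l.1 l.2.1.2 : ℝ) : ℂ) - ((Non_D a b l.1 l.2.1.1 : ℝ) : ℂ)), ?_, ?_⟩
  · refine mul_ne_zero (neg_ne_zero.2 I_ne_zero) (sub_ne_zero.2 ?_)
    intro hh
    have h1 : Non_D a b l.1 l.2.1.2 = Non_D a b l.1 l.2.1.1 := by exact_mod_cast hh
    unfold Non_D at h1
    by_cases hw : l.1 = true
    · simp only [hw, if_true] at h1
      exact l.2.2 (hb _ _ h1).symm
    · simp only [hw] at h1
      exact l.2.2 (ha _ _ h1).symm
  · intro j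
    by_cases hjw : l.1 = j.1
    · rw [Non_O_eq a b k j (k1.trans hjw), k1, k2, k3]
      by_cases h1 : j = l
      · subst h1
        simp
      · rw [if_neg h1, if_neg, if_neg]
        · simp
        · intro hh
          exact h1 ((Non_ext j l).2 ⟨hjw.symm, hh.2.symm, hh.1⟩)
        · intro hh
          exact h1 ((Non_ext j l).2 ⟨hjw.symm, hh.1.symm, hh.2⟩)
    · rw [Non_O_ne a b k j (fun hh => hjw (k1.symm.trans hh)), if_neg]
      intro hh
      exact hjw (congrArg Prod.fst hh).symm

private lemma Non_ev {n : ℕ} (a b : Fin n → ℝ) (g : Bool → Matrix (Fin n) (Fin n) ℂ) (i j : Ix n) :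
    MvPolynomial.eval (pt g 0) (OM a b i j) = Non_O a b i j := by
  unfold OM Om Non_O
  rw [map_add, map_mul, MvPolynomial.eval_C, MvPolynomial.eval_X]
  change _ + (0 : ℂ) * _ = _
  rw [zero_mul, add_zero]

/-- at `κ = 0` the density is a nonzero constant -/
theorem thm_Non (h : St_Car) : St_Non := by
  intro n a b ha hb
  refine ⟨Non_card n, PP (Non_O a b) (n * (n - 1)), ?_, ?_⟩
  · exact Non_PP h (Non_O a b) (Non_anti a b) (Non_H a b ha hb) _ (Non_card n)
  · intro g
    rw [(h (Ix n) (Rg n)).2.2.2.2.2 ℂ (MvPolynomial.eval (pt g 0)) (OM a b) (n * (n - 1))]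
    simp only [Non_ev]

end Pool.Agent.DHC
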