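import Pool.Agent.DHC.St

/-!
# DHC, module Sta: the two identities
-/

set_option autoImplicit false
set_option linter.unusedSectionVars false

namespace Pool.Agent.DHC

/-! ### abstract algebra -/

section abs

variable {ι : Type} [DecidableEq ι] [Fintype ι] {R : Type} [CommRing R] {A : Type} [Ring A]
  [Algebra R A] (c a : ι → A)

/-- the 2-form -/
def Sta_w (Ω : ι → ι → R) : A := ∑ i, ∑ j, Ω i j • (c i * c j)

/-- the 1-form -/
def Sta_t (θ : ι → R) : A := ∑ i, θ i • c i

/-- the 2-form with structure constants -/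
def Sta_C1 (k : ι → ι → ι → R) (θ : ι → R) : A := ∑ i, ∑ j, ∑ l, (k i j l * θ l) • (c i * c j)

/-- the 3-form with structure constants -/
def Sta_C2 (k : ι → ι → ι → R) (Ω : ι → ι → R) : A :=
  ∑ i, ∑ j, ∑ l, k i j l • (c i * c j * Sta_t c (Ω l))

/-- the operator with structure constants -/
def Sta_S (k : ι → ι → ι → R) : A := ∑ i, ∑ j, ∑ l, k i j l • (c i * c j * a l)

variable {c a} (hcc : ∀ i j : ι, c i * c j = -(c j * c i))
  (hac : ∀ i j : ι, a i * c j + c j * a i = if i = j then 1 else 0)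

include hcc in
theorem Sta_pair (i j k : ι) : c k * (c i * c j) = c i * c j * c k := by
  rw [← mul_assoc, hcc k i, neg_mul, mul_assoc, hcc k j, mul_neg, neg_neg, mul_assoc]

include hcc in
theorem Sta_c_w (Ω : ι → ι → R) (k : ι) : c k * Sta_w c Ω = Sta_w c Ω * c k := by
  unfold Sta_w
  simp only [Finset.mul_sum, Finset.sum_mul, mul_smul_comm, smul_mul_assoc, Sta_pair hcc]

include hcc in
theorem Sta_w_w (Ω Ω' : ι → ι → R) : Sta_w c Ω' * Sta_w c Ω = Sta_w c Ω * Sta_w c Ω' := by
  have h : ∀ i j : ι, (c i * c j) * Sta_w c Ω = Sta_w c Ω * (c i * c j) := by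
    intro i j
    rw [mul_assoc, Sta_c_w hcc, ← mul_assoc, Sta_c_w hcc, mul_assoc]
  have e : Sta_w c Ω' = ∑ i, ∑ j, Ω' i j • (c i * c j) := rfl
  rw [e]
  simp only [Finset.mul_sum, Finset.sum_mul, mul_smul_comm, smul_mul_assoc, h]

include hcc in
theorem Sta_t_w (Ω : ι → ι → R) (θ : ι → R) : Sta_t c θ * Sta_w c Ω = Sta_w c Ω * Sta_t c θ := by
  unfold Sta_t
  simp only [Finset.mul_sum, Finset.sum_mul, mul_smul_comm, smul_mul_assoc, Sta_c_w hcc]

include hcc in
theorem Sta_c_t (θ : ι → R) (k : ι) : c k * Sta_t c θ = -(Sta_t c θ * c k) := by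
  unfold Sta_t
  simp only [Finset.mul_sum, Finset.sum_mul, mul_smul_comm, smul_mul_assoc, hcc k, smul_neg,
    Finset.sum_neg_distrib]

include hcc in
theorem Sta_pair_t (θ : ι → R) (i j : ι) : c i * c j * Sta_t c θ = Sta_t c θ * (c i * c j) := by
  rw [mul_assoc, Sta_c_t hcc, mul_neg, ← mul_assoc, Sta_c_t hcc, neg_mul, neg_neg, mul_assoc]

include hac in
theorem Sta_a_t (θ : ι → R) (l : ι) : a l * Sta_t c θ = θ l • 1 - Sta_t c θ * a l := by
  have h : ∀ i : ι, a l * c i = (if l = i then 1 else 0) - c i * a l := fun i => by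
    rw [← hac l i]; abel
  unfold Sta_t
  simp only [Finset.mul_sum, Finset.sum_mul, mul_smul_comm, smul_mul_assoc, h, smul_sub,
    Finset.sum_sub_distrib, smul_ite, smul_zero, Finset.sum_ite_eq, Finset.mem_univ, if_true]

include hac in
theorem Sta_a_w (Ω : ι → ι → R) (hΩ : ∀ i j, Ω j i = -Ω i j) (l : ι) :
    a l * Sta_w c Ω = Sta_w c Ω * a l + (2 : R) • Sta_t c (Ω l) := by
  have h : ∀ i j : ι, a l * (c i * c j) =
      (if l = i then c j else 0) - (if l = j then c i else 0) + c i * c j * a l := by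
    intro i j
    have e1 : a l * c i = (if l = i then 1 else 0) - c i * a l := by rw [← hac l i]; abel
    have e2 : a l * c j = (if l = j then 1 else 0) - c j * a l := by rw [← hac l j]; abel
    rw [← mul_assoc, e1, sub_mul, mul_assoc (c i), e2, mul_sub, mul_assoc (c i)]
    split_ifs <;> simp only [one_mul, mul_one, zero_mul, mul_zero] <;> abel
  have f1 : ∑ i, ∑ j, (if l = i then Ω i j • c j else 0) = ∑ j, Ω l j • c j := by
    rw [Finset.sum_comm]
    simp
  have f2 : ∑ i, ∑ j, (if l = j then Ω i j • c i else 0) = -∑ j, Ω l j • c j := by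
    simp only [Finset.sum_ite_eq, Finset.mem_univ, if_true]
    rw [← Finset.sum_neg_distrib]
    refine Finset.sum_congr rfl fun i _ => ?_
    rw [hΩ l i, neg_smul]
  unfold Sta_w Sta_t
  simp only [Finset.mul_sum, Finset.sum_mul, mul_smul_comm, smul_mul_assoc, h, smul_add, smul_sub,
    Finset.sum_add_distrib, Finset.sum_sub_distrib, smul_ite, smul_zero]
  rw [f1, f2, two_smul]
  abel

include hcc hac in
theorem Sta_a_pow (Ω : ι → ι → R) (hΩ : ∀ i j, Ω j i = -Ω i j) (l : ι) (m : ℕ) :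
    a l * Sta_w c Ω ^ m = Sta_w c Ω ^ m * a l +
      (2 * (m : R)) • (Sta_t c (Ω l) * Sta_w c Ω ^ (m - 1)) := by
  have hcom : ∀ m : ℕ, Sta_t c (Ω l) * Sta_w c Ω ^ m = Sta_w c Ω ^ m * Sta_t c (Ω l) :=
    fun m => (Commute.pow_right (show Commute _ _ from Sta_t_w hcc Ω (Ω l)) m)
  induction m with
  | zero => simp
  | succ m ih =>
    rw [pow_succ, ← mul_assoc, ih, add_mul, mul_assoc, Sta_a_w hac Ω hΩ, mul_add, ← mul_assoc,
      mul_smul_comm, smul_mul_assoc, mul_assoc, ← hcom, Nat.add_sub_cancel]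
    have e : (2 * (m : R)) • (Sta_t c (Ω l) * Sta_w c Ω ^ (m - 1) * Sta_w c Ω) =
        (2 * (m : R)) • (Sta_t c (Ω l) * Sta_w c Ω ^ m) := by
      rcases Nat.eq_zero_or_pos m with rfl | hm
      · simp
      · rw [mul_assoc, ← pow_succ, Nat.sub_add_cancel hm]
    rw [e, add_assoc, ← add_smul, ← mul_assoc, mul_assoc (Sta_w c Ω ^ m)]
    congr 2
    push_cast
    ring

/-- `2 ∑ c_i (δ_i T) = W' + C1` -/
theorem Sta_one (hcc : ∀ i j : ι, c i * c j = -(c j * c i)) (k : ι → ι → ι → R) (θ : ι → R)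
    (dθ : ι → ι → R) (DΩ : ι → ι → R)
    (hb : ∀ i j, DΩ i j = dθ i j - dθ j i - ∑ l, k i j l * θ l) :
    (2 : R) • ∑ i, c i * Sta_t c (dθ i) = Sta_w c DΩ + Sta_C1 c k θ := by
  have e1 : ∑ i, c i * Sta_t c (dθ i) = ∑ i, ∑ j, dθ i j • (c i * c j) := by
    unfold Sta_t
    simp only [Finset.mul_sum, mul_smul_comm]
  have e2 : ∑ i, c i * Sta_t c (dθ i) = -∑ i, ∑ j, dθ j i • (c i * c j) := by
    rw [e1, Finset.sum_comm, ← Finset.sum_neg_distrib]
    refine Finset.sum_congr rfl fun i _ => ?_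
    rw [← Finset.sum_neg_distrib]
    refine Finset.sum_congr rfl fun j _ => ?_
    rw [hcc j i, smul_neg]
  rw [two_smul]
  nth_rewrite 1 [e1]
  rw [e2]
  unfold Sta_w Sta_C1
  rw [← Finset.sum_neg_distrib, ← Finset.sum_add_distrib, ← Finset.sum_add_distrib]
  refine Finset.sum_congr rfl fun i _ => ?_
  rw [← Finset.sum_neg_distrib, ← Finset.sum_add_distrib, ← Finset.sum_add_distrib]
  refine Finset.sum_congr rfl fun j _ => ?_
  rw [hb i j, ← Finset.sum_smul, ← add_smul, ← neg_smul, ← add_smul]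
  congr 1
  ring

/-- `3 ∑ c_i (δ_i W) = 3 C2` -/
theorem Sta_two (hcc : ∀ i j : ι, c i * c j = -(c j * c i)) (k : ι → ι → ι → R) (Ω : ι → ι → R)
    (dΩ : ι → ι → ι → R)
    (ha : ∀ i j m, dΩ i j m + dΩ j m i + dΩ m i j =
      ∑ l, (k i j l * Ω l m + k j m l * Ω l i + k m i l * Ω l j)) :
    (3 : R) • ∑ i, c i * Sta_w c (dΩ i) = (3 : R) • Sta_C2 c k Ω := by
  have cyc : ∀ i j m : ι, c i * c j * c m = c j * c m * c i := fun i j m => by
    rw [mul_assoc, Sta_pair hcc]
  have rot : ∀ f : ι → ι → ι → R, ∑ i, ∑ j, ∑ m, f j m i • (c i * c j * c m) =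
      ∑ i, ∑ j, ∑ m, f i j m • (c i * c j * c m) := by
    intro f
    have e : ∀ i j m, f j m i • (c i * c j * c m) = f j m i • (c j * c m * c i) := fun i j m => by
      rw [cyc]
    rw [Finset.sum_congr rfl fun i _ => Finset.sum_congr rfl fun j _ =>
      Finset.sum_congr rfl fun m _ => e i j m, Finset.sum_comm]
    refine Finset.sum_congr rfl fun i _ => ?_
    rw [Finset.sum_comm]
  have e1 : ∑ i, c i * Sta_w c (dΩ i) = ∑ i, ∑ j, ∑ m, dΩ i j m • (c i * c j * c m) := by
    unfold Sta_w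
    simp only [Finset.mul_sum, mul_smul_comm, mul_assoc]
  have e2 : Sta_C2 c k Ω = ∑ i, ∑ j, ∑ m, (∑ l, k i j l * Ω l m) • (c i * c j * c m) := by
    unfold Sta_C2 Sta_t
    refine Finset.sum_congr rfl fun i _ => Finset.sum_congr rfl fun j _ => ?_
    simp only [Finset.mul_sum, Finset.smul_sum, mul_smul_comm, smul_smul, Finset.sum_smul]
    rw [Finset.sum_comm]
  have three : ∀ f : ι → ι → ι → R, (3 : R) • ∑ i, ∑ j, ∑ m, f i j m • (c i * c j * c m) =
      ∑ i, ∑ j, ∑ m, (f i j m + f j m i + f m i j) • (c i * c j * c m) := by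
    intro f
    have r1 := rot f
    have r2 := rot fun i j m => f j m i
    simp only [add_smul, Finset.sum_add_distrib]
    rw [r1]
    have r3 : ∑ i, ∑ j, ∑ m, f m i j • (c i * c j * c m) =
        ∑ i, ∑ j, ∑ m, f j m i • (c i * c j * c m) := r2
    rw [r3, r1, show (3 : R) = 1 + 1 + 1 by norm_num, add_smul, add_smul, one_smul]
  rw [e1, e2, three, three]
  refine Finset.sum_congr rfl fun i _ => Finset.sum_congr rfl fun j _ =>
    Finset.sum_congr rfl fun m _ => ?_
  rw [ha i j m, Finset.sum_add_distrib, Finset.sum_add_distrib]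

include hcc hac in
/-- the operator with structure constants -/
theorem Sta_three (k : ι → ι → ι → R) (Ω : ι → ι → R) (θ : ι → R) (hΩ : ∀ i j, Ω j i = -Ω i j)
    (m : ℕ) : Sta_S c a k * (Sta_t c θ * Sta_w c Ω ^ m) =
      Sta_C1 c k θ * Sta_w c Ω ^ m -
      (2 * (m : R)) • (Sta_t c θ * Sta_C2 c k Ω * Sta_w c Ω ^ (m - 1)) -
      Sta_t c θ * Sta_w c Ω ^ m * Sta_S c a k := by
  have hp : ∀ (i j : ι) (m : ℕ), c i * c j * Sta_w c Ω ^ m = Sta_w c Ω ^ m * (c i * c j) := by
    intro i j m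
    refine (Commute.pow_right (show Commute (c i * c j) (Sta_w c Ω) from ?_) m)
    change (c i * c j) * Sta_w c Ω = Sta_w c Ω * (c i * c j)
    rw [mul_assoc, Sta_c_w hcc, ← mul_assoc, Sta_c_w hcc, mul_assoc]
  have key : ∀ i j l : ι, c i * c j * a l * (Sta_t c θ * Sta_w c Ω ^ m) =
      θ l • (c i * c j * Sta_w c Ω ^ m) -
      (2 * (m : R)) • (Sta_t c θ * (c i * c j * Sta_t c (Ω l)) * Sta_w c Ω ^ (m - 1)) -
      Sta_t c θ * Sta_w c Ω ^ m * (c i * c j * a l) := by
    intro i j l
    have e1 : c i * c j * a l * (Sta_t c θ * Sta_w c Ω ^ m) =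
        c i * c j * (a l * Sta_t c θ) * Sta_w c Ω ^ m := by simp only [mul_assoc]
    have e2 : Sta_t c θ * (c i * c j) * (a l * Sta_w c Ω ^ m) =
        Sta_t c θ * (c i * c j * Sta_w c Ω ^ m) * a l +
        (2 * (m : R)) • (Sta_t c θ * (c i * c j * Sta_t c (Ω l)) * Sta_w c Ω ^ (m - 1)) := by
      rw [Sta_a_pow hcc hac Ω hΩ, mul_add, mul_smul_comm]
      simp only [mul_assoc]
    rw [e1, Sta_a_t hac, mul_sub, mul_smul_comm, mul_one, ← mul_assoc (c i * c j) (Sta_t c θ),
      Sta_pair_t hcc, sub_mul, smul_mul_assoc, mul_assoc (Sta_t c θ * (c i * c j)), e2, hp]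
    simp only [mul_assoc]
    abel
  unfold Sta_S Sta_C1 Sta_C2
  simp only [Finset.mul_sum, Finset.sum_mul, mul_smul_comm, smul_mul_assoc, key, smul_sub,
    Finset.sum_sub_distrib, Finset.smul_sum, smul_smul]
  congr 2
  refine Finset.sum_congr rfl fun i _ => Finset.sum_congr rfl fun j _ =>
    Finset.sum_congr rfl fun l _ => ?_
  rw [mul_comm]

end abs

/-! ### forms -/

section forms

variable {ι : Type} [LinearOrder ι] {R : Type} [CommRing R]

/-- a derivation acts on the coefficients -/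
def Sta_dv (δ : Derivation ℤ R R) (f : Finset ι → R) : Finset ι → R := fun S => δ (f S)

theorem Sta_dv_sum {κ : Type} (s : Finset κ) (δ : Derivation ℤ R R) (f : κ → Finset ι → R) :
    Sta_dv δ (∑ i ∈ s, f i) = ∑ i ∈ s, Sta_dv δ (f i) := by
  funext S
  unfold Sta_dv
  simp only [Finset.sum_apply, map_sum]

theorem Sta_dv_smul (δ : Derivation ℤ R R) (r : R) (f : Finset ι → R) :
    Sta_dv δ (r • f) = δ r • f + r • Sta_dv δ f := by
  funext S
  unfold Sta_dv
  simp only [Pi.smul_apply, Pi.add_apply, smul_eq_mul, Derivation.leibniz]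
  ring

theorem Sta_dv_cr (δ : Derivation ℤ R R) (i : ι) (f : Finset ι → R) :
    Sta_dv δ ((cr i : Module.End R (Finset ι → R)) f) =
      (cr i : Module.End R (Finset ι → R)) (Sta_dv δ f) := by
  funext S
  change δ (if i ∈ S then (sg i S : R) * f (S.erase i) else 0) =
    if i ∈ S then (sg i S : R) * δ (f (S.erase i)) else 0
  split_ifs
  · rw [← zsmul_eq_mul, ← zsmul_eq_mul, map_zsmul]
  · exact map_zero δ

theorem Sta_dv_vac (δ : Derivation ℤ R R) : Sta_dv δ (vac : Finset ι → R) = 0 := by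
  funext S
  change δ (if S = ∅ then 1 else 0) = 0
  split_ifs
  · exact δ.map_one_eq_zero
  · exact map_zero δ

variable [Fintype ι]

theorem Sta_dv_WW (δ : Derivation ℤ R R) (Ω : ι → ι → R) (f : Finset ι → R) :
    Sta_dv δ (WW Ω f) = WW (fun i j => δ (Ω i j)) f + WW Ω (Sta_dv δ f) := by
  unfold WW
  simp only [LinearMap.sum_apply, LinearMap.smul_apply, Module.End.mul_apply, Sta_dv_sum,
    Sta_dv_smul, Sta_dv_cr, Finset.sum_add_distrib]

theorem Sta_dv_TT (δ : Derivation ℤ R R) (θ : ι → R) (f : Finset ι → R) :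
    Sta_dv δ (TT θ f) = TT (fun i => δ (θ i)) f + TT θ (Sta_dv δ f) := by
  unfold TT
  simp only [LinearMap.sum_apply, LinearMap.smul_apply, Sta_dv_sum, Sta_dv_smul,
    Sta_dv_cr, Finset.sum_add_distrib]

theorem Sta_WW (Ω : ι → ι → R) : WW Ω =
    Sta_w (fun i => (cr i : Module.End R (Finset ι → R))) Ω := rfl

theorem Sta_TT (θ : ι → R) : TT θ =
    Sta_t (fun i => (cr i : Module.End R (Finset ι → R))) θ := rfl

theorem Sta_dv_pow (hcc : ∀ i j : ι, (cr i * cr j : Module.End R (Finset ι → R)) = -(cr j * cr i))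
    (δ : Derivation ℤ R R) (Ω : ι → ι → R) (m : ℕ) :
    Sta_dv δ (((WW Ω) ^ m) vac) =
      (m : R) • (WW (fun i j => δ (Ω i j)) * (WW Ω) ^ (m - 1)) vac := by
  induction m with
  | zero =>
    rw [pow_zero, Nat.cast_zero, zero_smul]
    exact Sta_dv_vac δ
  | succ m ih =>
    rw [pow_succ', Module.End.mul_apply, Sta_dv_WW, ih, Nat.add_sub_cancel, map_smul,
      ← Module.End.mul_apply, ← Module.End.mul_apply]
    have e : (m : R) • (WW Ω * (WW (fun i j => δ (Ω i j)) * WW Ω ^ (m - 1))) vac =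
        (m : R) • (WW (fun i j => δ (Ω i j)) * WW Ω ^ m) vac := by
      rcases Nat.eq_zero_or_pos m with rfl | hm
      · simp
      · have h := Sta_w_w (c := fun i => (cr i : Module.End R (Finset ι → R))) hcc Ω
          (fun i j => δ (Ω i j))
        rw [← Sta_WW, ← Sta_WW] at h
        rw [← mul_assoc, ← h, mul_assoc, ← pow_succ', Nat.sub_add_cancel hm]
    rw [e, Nat.cast_succ, add_smul, one_smul, add_comm]

/-! ### degrees -/

/-- forms of degree `m` -/
def Sta_H (m : ℕ) (f : Finset ι → R) : Prop := ∀ S, S.card ≠ m → f S = 0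

theorem Sta_H_cr {m : ℕ} {f : Finset ι → R} (h : Sta_H m f) (i : ι) :
    Sta_H (m + 1) ((cr i : Module.End R (Finset ι → R)) f) := by
  intro S hS
  change (if i ∈ S then (sg i S : R) * f (S.erase i) else 0) = 0
  split_ifs with hi
  · rw [h, mul_zero]
    rw [Finset.card_erase_of_mem hi]
    have := Finset.card_pos.2 ⟨i, hi⟩
    omega
  · rfl

theorem Sta_H_sum {m : ℕ} {κ : Type} (s : Finset κ) (f : κ → Finset ι → R)
    (h : ∀ i ∈ s, Sta_H m (f i)) : Sta_H m (∑ i ∈ s, f i) := by
  intro S hS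
  rw [Finset.sum_apply]
  exact Finset.sum_eq_zero fun i hi => h i hi S hS

theorem Sta_H_smul {m : ℕ} {f : Finset ι → R} (h : Sta_H m f) (r : R) : Sta_H m (r • f) := by
  intro S hS
  rw [Pi.smul_apply, h S hS, smul_zero]

theorem Sta_H_WW {m : ℕ} {f : Finset ι → R} (h : Sta_H m f) (Ω : ι → ι → R) :
    Sta_H (m + 2) (WW Ω f) := by
  unfold WW
  simp only [LinearMap.sum_apply, LinearMap.smul_apply, Module.End.mul_apply]
  exact Sta_H_sum _ _ fun i _ => Sta_H_sum _ _ fun j _ => Sta_H_smul (Sta_H_cr (Sta_H_cr h j) i) _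

theorem Sta_H_TT {m : ℕ} {f : Finset ι → R} (h : Sta_H m f) (θ : ι → R) :
    Sta_H (m + 1) (TT θ f) := by
  unfold TT
  simp only [LinearMap.sum_apply, LinearMap.smul_apply]
  exact Sta_H_sum _ _ fun i _ => Sta_H_smul (Sta_H_cr h i) _

theorem Sta_H_pow (Ω : ι → ι → R) (m : ℕ) : Sta_H (2 * m) (((WW Ω) ^ m) vac) := by
  induction m with
  | zero =>
    intro S hS
    change (if S = ∅ then (1 : R) else 0) = 0
    rw [if_neg]
    rintro rfl
    exact hS Finset.card_empty
  | succ m ih =>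
    rw [pow_succ', Module.End.mul_apply]
    exact Sta_H_WW ih Ω

end forms

theorem thm_Sta (h : St_Car) : St_Sta := by
  intro ι _ _ R _ h3 N hN Ω θ hΩ hΩ0
  obtain ⟨hcc, -, hac, hav, htop, -⟩ := h ι R
  -- abbreviations
  obtain ⟨w, hw⟩ : ∃ w, w = WW Ω := ⟨_, rfl⟩
  obtain ⟨t, ht⟩ : ∃ t, t = TT θ := ⟨_, rfl⟩
  have hcr_t : ∀ k : ι, (cr k * t : Module.End R (Finset ι → R)) = -(t * cr k) := fun k => by
    rw [ht]
    exact Sta_c_t (c := fun i => (cr i : Module.End R (Finset ι → R))) hcc θ k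
  have hanw : ∀ (l : ι) (m : ℕ), (an l : Module.End R (Finset ι → R)) ((w ^ m) vac) =
      (2 * (m : R)) • (TT (Ω l) * w ^ (m - 1)) vac := by
    intro l m
    have e := Sta_a_pow (c := fun i => (cr i : Module.End R (Finset ι → R))) (a := fun i => an i)
      hcc hac Ω hΩ l m
    rw [← Sta_WW, ← Sta_TT, ← hw] at e
    have e2 := LinearMap.congr_fun e vac
    rw [LinearMap.add_apply, Module.End.mul_apply, Module.End.mul_apply, hav, map_zero,
      zero_add] at e2
    exact e2
  constructor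
  · intro k δ D g hk ha hb
    -- the derivative of `z_i`
    have hz : ∀ i, δ i (ZZ Ω θ N i) =
        (cr i * TT (fun j => δ i (θ j)) * w ^ (N - 1) : Module.End R (Finset ι → R)) vac
          Finset.univ + ((N - 1 : ℕ) : R) * (cr i * t * (WW (fun j m => δ i (Ω j m)) *
            w ^ (N - 1 - 1)) : Module.End R (Finset ι → R)) vac Finset.univ := by
      intro i
      have e : δ i (ZZ Ω θ N i) = Sta_dv (δ i) ((cr i : Module.End R (Finset ι → R))
          (TT θ (((WW Ω) ^ (N - 1)) vac))) Finset.univ := rfl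
      rw [e, Sta_dv_cr, Sta_dv_TT, Sta_dv_pow hcc, map_add, Pi.add_apply, map_smul, map_smul,
        Pi.smul_apply, smul_eq_mul, ← hw, ← ht]
      rfl
    -- the parts
    obtain ⟨q, hq⟩ : ∃ q : Module.End R (Finset ι → R),
        q = ∑ i, cr i * WW (fun j m => δ i (Ω j m)) := ⟨_, rfl⟩
    obtain ⟨p, hp⟩ : ∃ p : Module.End R (Finset ι → R),
        p = ∑ i, cr i * TT (fun j => δ i (θ j)) := ⟨_, rfl⟩
    obtain ⟨c1, hc1⟩ : ∃ c1, c1 = Sta_C1 (fun i => (cr i : Module.End R (Finset ι → R))) k θ :=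
      ⟨_, rfl⟩
    obtain ⟨c2, hc2⟩ : ∃ c2, c2 = Sta_C2 (fun i => (cr i : Module.End R (Finset ι → R))) k Ω :=
      ⟨_, rfl⟩
    have hp2 : (2 : R) • p = WW (fun i j => D (Ω i j)) + c1 := by
      rw [hp, hc1]
      exact Sta_one (c := fun i => (cr i : Module.End R (Finset ι → R))) hcc k θ
        (fun i j => δ i (θ j)) (fun i j => D (Ω i j)) hb
    have hq3 : (3 : R) • q = (3 : R) • c2 := by
      rw [hq, hc2]
      exact Sta_two (c := fun i => (cr i : Module.End R (Finset ι → R))) hcc k Ω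
        (fun i j m => δ i (Ω j m)) ha
    have hsum : ∑ i, δ i (ZZ Ω θ N i) = (p * w ^ (N - 1)) vac Finset.univ -
        ((N - 1 : ℕ) : R) * (t * q * w ^ (N - 1 - 1)) vac Finset.univ := by
      have e1 : (p * w ^ (N - 1)) vac Finset.univ = ∑ i, (cr i * TT (fun j => δ i (θ j)) *
          w ^ (N - 1) : Module.End R (Finset ι → R)) vac Finset.univ := by
        rw [hp, Finset.sum_mul, LinearMap.sum_apply, Finset.sum_apply]
      have e2 : -(t * q * w ^ (N - 1 - 1)) vac Finset.univ = ∑ i, (cr i * t *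
          (WW (fun j m => δ i (Ω j m)) * w ^ (N - 1 - 1)) : Module.End R (Finset ι → R)) vac
            Finset.univ := by
        have e3 : ∀ i, (cr i * t * (WW (fun j m => δ i (Ω j m)) * w ^ (N - 1 - 1)) :
            Module.End R (Finset ι → R)) =
            -(t * (cr i * WW (fun j m => δ i (Ω j m))) * w ^ (N - 1 - 1)) := by
          intro i
          rw [hcr_t i]
          refine LinearMap.ext fun f => ?_
          simp only [Module.End.mul_apply, LinearMap.neg_apply]
        have e4 : t * q * w ^ (N - 1 - 1) =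
            ∑ i, t * (cr i * WW (fun j m => δ i (Ω j m))) * w ^ (N - 1 - 1) := by
          rw [hq, Finset.mul_sum, Finset.sum_mul]
        rw [e4, LinearMap.sum_apply, Finset.sum_apply, ← Finset.sum_neg_distrib]
        refine Finset.sum_congr rfl fun i _ => ?_
        rw [e3 i, LinearMap.neg_apply, Pi.neg_apply]
      rw [Finset.sum_congr rfl fun i _ => hz i, Finset.sum_add_distrib, ← Finset.mul_sum, ← e1,
        ← e2]
      ring
    have hu2 : (t * q * w ^ (N - 1 - 1)) vac Finset.univ =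
        (t * c2 * w ^ (N - 1 - 1)) vac Finset.univ := by
      have e : (3 : R) • (t * q * w ^ (N - 1 - 1)) = (3 : R) • (t * c2 * w ^ (N - 1 - 1)) := by
        rw [← smul_mul_assoc, ← mul_smul_comm, hq3, mul_smul_comm, smul_mul_assoc]
      have e2 := congrFun (LinearMap.congr_fun e vac) Finset.univ
      rw [LinearMap.smul_apply, LinearMap.smul_apply, Pi.smul_apply, Pi.smul_apply, smul_eq_mul,
        smul_eq_mul] at e2
      exact sub_eq_zero.1 (h3 _ (by rw [mul_sub, e2, sub_self]))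
    have hS : (Sta_S (fun i => (cr i : Module.End R (Finset ι → R))) (fun i => an i) k *
        (t * w ^ (N - 1))) vac Finset.univ = 0 := by
      rw [Module.End.mul_apply]
      unfold Sta_S
      simp only [LinearMap.sum_apply, LinearMap.smul_apply, Finset.sum_apply, Pi.smul_apply,
        smul_eq_mul]
      refine Finset.sum_eq_zero fun i _ => Finset.sum_eq_zero fun j _ =>
        Finset.sum_eq_zero fun l _ => ?_
      by_cases hl : l = i ∨ l = j
      · rw [hk i j l hl, zero_mul]
      · rw [htop i j l _ (fun e => hl (Or.inl e)) (fun e => hl (Or.inr e)), mul_zero]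
    have hS0 : (Sta_S (fun i => (cr i : Module.End R (Finset ι → R))) (fun i => an i) k)
        (vac : Finset ι → R) = 0 := by
      unfold Sta_S
      simp only [LinearMap.sum_apply, LinearMap.smul_apply, Module.End.mul_apply, hav, map_zero,
        smul_zero, Finset.sum_const_zero]
    have h3' : (c1 * w ^ (N - 1)) vac Finset.univ =
        (2 * ((N - 1 : ℕ) : R)) * (t * c2 * w ^ (N - 1 - 1)) vac Finset.univ := by
      have e := Sta_three (c := fun i => (cr i : Module.End R (Finset ι → R)))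
        (a := fun i => an i) hcc hac k Ω θ hΩ (N - 1)
      rw [← Sta_WW, ← Sta_TT, ← hw, ← ht, ← hc1, ← hc2] at e
      have e2 := congrFun (LinearMap.congr_fun e vac) Finset.univ
      rw [hS, LinearMap.sub_apply, LinearMap.sub_apply, Pi.sub_apply, Pi.sub_apply,
        LinearMap.smul_apply, Pi.smul_apply, smul_eq_mul, Module.End.mul_apply (t * w ^ (N - 1)),
        hS0, map_zero, Pi.zero_apply, sub_zero] at e2
      exact (sub_eq_zero.1 e2.symm)
    have hmain : 2 * ∑ i, δ i (ZZ Ω θ N i) =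
        (WW (fun i j => D (Ω i j)) * w ^ (N - 1)) vac Finset.univ := by
      have e : 2 * (p * w ^ (N - 1)) vac Finset.univ =
          (WW (fun i j => D (Ω i j)) * w ^ (N - 1)) vac Finset.univ +
            (c1 * w ^ (N - 1)) vac Finset.univ := by
        have e1 : (2 : R) • (p * w ^ (N - 1)) =
            WW (fun i j => D (Ω i j)) * w ^ (N - 1) + c1 * w ^ (N - 1) := by
          rw [← smul_mul_assoc, hp2, add_mul]
        have e2 := congrFun (LinearMap.congr_fun e1 vac) Finset.univ
        rw [LinearMap.smul_apply, Pi.smul_apply, smul_eq_mul, LinearMap.add_apply,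
          Pi.add_apply] at e2
        exact e2
      rw [hsum, mul_sub, e, hu2, h3']
      ring
    have hD : D (PP Ω N) = (N : R) * (WW (fun i j => D (Ω i j)) * w ^ (N - 1)) vac
        Finset.univ := by
      have e : D (PP Ω N) = Sta_dv D (((WW Ω) ^ N) vac) Finset.univ := rfl
      rw [e, Sta_dv_pow hcc, Pi.smul_apply, smul_eq_mul, ← hw]
    rw [hD, ← hmain]
    simp only [Derivation.leibniz, smul_eq_mul, Finset.sum_add_distrib, Finset.mul_sum, mul_add]
    rw [add_comm]
    congr 1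
    · refine Finset.sum_congr rfl fun i _ => ?_
      ring
    · refine Finset.sum_congr rfl fun i _ => ?_
      ring
  · intro x
    have h0 : (t * w ^ N) vac = 0 := by
      funext S
      rw [Module.End.mul_apply, ht, hw]
      refine Sta_H_TT (Sta_H_pow Ω N) θ S ?_
      have := Finset.card_le_univ S
      omega
    have h1 : ∀ j, θ j * PP Ω N = 2 * (N : R) * (t * (TT (Ω j) * w ^ (N - 1))) vac
        Finset.univ := by
      intro j
      have e1 : (an j : Module.End R (Finset ι → R)) ((t * w ^ N) vac) = 0 := by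
        rw [h0, map_zero]
      have e2 : (an j * t : Module.End R (Finset ι → R)) = θ j • 1 - t * an j := by
        rw [ht]
        exact Sta_a_t (c := fun i => (cr i : Module.End R (Finset ι → R))) (a := fun i => an i)
          hac θ j
      rw [Module.End.mul_apply, ← Module.End.mul_apply (an j), e2, LinearMap.sub_apply,
        LinearMap.smul_apply, Module.End.one_apply, Module.End.mul_apply, hanw, map_smul] at e1
      have e3 := congrFun e1 Finset.univ
      rw [Pi.sub_apply, Pi.smul_apply, Pi.smul_apply, smul_eq_mul, smul_eq_mul,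
        Pi.zero_apply] at e3
      have e4 : PP Ω N = (w ^ N) vac Finset.univ := by rw [hw]; rfl
      rw [e4]
      exact sub_eq_zero.1 e3
    have h2 : ∀ j, (t * (TT (Ω j) * w ^ (N - 1))) vac Finset.univ =
        -∑ k, Ω j k * ZZ Ω θ N k := by
      intro j
      have e1 : t * (TT (Ω j) * w ^ (N - 1)) = ∑ k, Ω j k • (t * cr k * w ^ (N - 1)) := by
        unfold TT
        simp only [Finset.mul_sum, Finset.sum_mul, mul_smul_comm, smul_mul_assoc, mul_assoc]
      rw [e1, LinearMap.sum_apply, Finset.sum_apply, ← Finset.sum_neg_distrib]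
      refine Finset.sum_congr rfl fun k _ => ?_
      have e2 : ZZ Ω θ N k = -(t * cr k * w ^ (N - 1) : Module.End R (Finset ι → R)) vac
          Finset.univ := by
        have e3 : ZZ Ω θ N k = (cr k * t * w ^ (N - 1) : Module.End R (Finset ι → R)) vac
            Finset.univ := by rw [hw, ht]; rfl
        rw [e3, hcr_t k]
        rfl
      rw [LinearMap.smul_apply, Pi.smul_apply, smul_eq_mul, e2]
      ring
    have h4 : (∑ j, x j * θ j) * PP Ω N = -(2 * N * ∑ k, (∑ j, x j * Ω j k) * ZZ Ω θ N k) := by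
      rw [Finset.sum_mul]
      have e : ∀ j, x j * θ j * PP Ω N = -(2 * N * ∑ k, x j * Ω j k * ZZ Ω θ N k) := by
        intro j
        have e' : ∑ k, x j * Ω j k * ZZ Ω θ N k = x j * ∑ k, Ω j k * ZZ Ω θ N k := by
          rw [Finset.mul_sum]
          refine Finset.sum_congr rfl fun k _ => ?_
          ring
        rw [mul_assoc, h1 j, h2 j, e']
        ring
      rw [Finset.sum_congr rfl fun j _ => e j, Finset.sum_neg_distrib, ← Finset.mul_sum,
        Finset.sum_comm]
      simp only [Finset.sum_mul]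
    rw [neg_mul, h4, neg_neg]

end Pool.Agent.DHC
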