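import Pool.Agent.DHC.Car
import Pool.Agent.DHC.Sta
import Pool.Agent.DHC.Non
import Pool.Agent.DHC.Cnc
import Pool.Agent.DHC.Mom
import Pool.Agent.DHC.Haa
import Pool.Agent.DHC.Inv
import Pool.Agent.DHC.Fin
import Pool.Agent.DHC.Lim

/-!
# DHC: Horn's inequalities for the squares are sufficient
-/

set_option autoImplicit false

namespace Pool.Agent.DHC

open Pool.Agent.Helper69.Cart

/-- If `(a², b², s²)` solves the sum problem for Hermitian matrices then `(a, b, s)` is realizable. -/
theorem suff {n : ℕ} {a b s : Fin n → ℝ} (hs : ∀ i, 0 ≤ s i)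
    (h : SumRealizable (fun i => a i ^ 2) (fun i => b i ^ 2) (fun i => s i ^ 2)) :
    Realizable a b s := by
  have hfin : St_Fin := thm_Fin thm_Haa (thm_Inv (thm_Sta thm_Car) thm_Cnc thm_Mom)
    (thm_Non thm_Car)
  exact (realizable_iff_solG a b s).2 ⟨hs, thm_Lim hfin n a b _ ((sum_iff_solG a b _).1 h)⟩

end Pool.Agent.DHC
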