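import Pool.Agent.DHC.Defs

/-!
# DHC: statements (helper69)

Every `def St_X : Prop` is one module `Pool/Agent/DHC/X.lean` with `theorem thm_X : St_X` (hypotheses in
the docstring), namespace `Pool.Agent.DHC`.  `ev` means `MvPolynomial.eval (pt g κ)`.
-/

set_option autoImplicit false

open Matrix Complex MeasureTheory

namespace Pool.Agent.DHC

open Pool.Agent.Helper69.Cart Pool.Agent.Helper44.Cart

/-! ### algebra -/

/-- Car: the canonical relations, naturality. -/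
def St_Car : Prop := ∀ (ι : Type) [Fintype ι] [LinearOrder ι] (R : Type) [CommRing R],
  (∀ i j : ι, (cr i * cr j : Module.End R (Finset ι → R)) = -(cr j * cr i)) ∧
  (∀ i : ι, (cr i * cr i : Module.End R (Finset ι → R)) = 0) ∧
  (∀ i j : ι, (an i * cr j : Module.End R (Finset ι → R)) + cr j * an i = if i = j then 1 else 0) ∧
  (∀ i : ι, (an i : Module.End R (Finset ι → R)) vac = 0) ∧
  (∀ (i j l : ι) (f : Finset ι → R), l ≠ i → l ≠ j →
    (cr i * cr j * an l : Module.End R (Finset ι → R)) f Finset.univ = 0) ∧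
  (∀ (R' : Type) [CommRing R'] (φ : R →+* R') (Ω : ι → ι → R) (N : ℕ),
    φ (PP Ω N) = PP (fun i j => φ (Ω i j)) N)

/-- Sta (`thm_Sta (h : St_Car)`): the two identities.

Proof.  `W = WW Ω`, `T = TT θ`, `W' = ∑ (∂Ω_ij) e_i e_j`, derivations act on the coefficients and commute with
the `e_i`.  `∂ PP = N (W' W ^ (N-1) vac)_top`.  `2 ∑ δ_i z_i` for `z_i = (e_i T W ^ (N-1) vac)_top`: the terms
`2 ∑ e_i (δ_i T) = ∑ (δ_i θ_j - δ_j θ_i) e_i e_j = W' + ∑ c_ij^l θ_l e_i e_j` and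
`-2 (N-1) T ∑ (δ_i Ω_jk) e_i e_j e_k = -2 (N-1) T ∑ c_ij^l Ω_lk e_i e_j e_k`; the terms with `c` are the top
coefficient of `∑ c_ij^l e_i e_j ∂_l (T W ^ (N-1) vac)`, which is `0`.  Second identity: contraction of
`T W ^ N vac = 0`. -/
def St_Sta : Prop := ∀ (ι : Type) [Fintype ι] [LinearOrder ι] (R : Type) [CommRing R],
  (∀ r : R, 3 * r = 0 → r = 0) → ∀ (N : ℕ), Fintype.card ι = 2 * N →
  ∀ (Ω : ι → ι → R) (θ : ι → R), (∀ i j, Ω j i = -Ω i j) → (∀ i, Ω i i = 0) →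
  (∀ (c : ι → ι → ι → R) (δ : ι → Derivation ℤ R R) (D : Derivation ℤ R R) (h : R),
    (∀ i j l, l = i ∨ l = j → c i j l = 0) →
    (∀ i j k, δ i (Ω j k) + δ j (Ω k i) + δ k (Ω i j) =
      ∑ l, (c i j l * Ω l k + c j k l * Ω l i + c k i l * Ω l j)) →
    (∀ i j, D (Ω i j) = δ i (θ j) - δ j (θ i) - ∑ l, c i j l * θ l) →
    2 * N * ∑ i, δ i (h * ZZ Ω θ N i) =
      2 * N * ∑ i, δ i h * ZZ Ω θ N i + h * D (PP Ω N)) ∧
  ∀ x : ι → R, 2 * N * ∑ k, (∑ j, x j * Ω j k) * ZZ Ω θ N k = -(∑ j, x j * θ j) * PP Ω N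

/-- Non (`thm_Non (h : St_Car)`): at `κ = 0` the density is a nonzero constant.

Proof.  `N = n (n - 1)`, `card (Ix n) = 2 N`.  `PP` at `κ = 0` is `PP Ω₀ N` over `ℂ` (naturality), `Ω₀` does not depend
on `g`: `Ω₀ j k = 0` unless `k` is the transposed index `j'` in the same factor, and
`Ω₀ j j' = -i (a_p² - a_q²) ≠ 0`.  `W ^ m vac` is a combination of the `e_S` with `card S = 2 m`.
`∂_(k') W ^ (m+1) vac = 2 (m+1) Ω₀ k' k e_k W ^ m vac`; if `W ^ (m+1) vac = 0` then `e_k W ^ m vac = 0` for all `k`, so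
`W ^ m vac` has only the coefficient of `univ`, and it is `0` as `2 m < 2 N`.  So `W ^ N vac ≠ 0`. -/
def St_Non : Prop := ∀ (n : ℕ) (a b : Fin n → ℝ), (∀ i j, a i ^ 2 = a j ^ 2 → i = j) →
  (∀ i j, b i ^ 2 = b j ^ 2 → i = j) → Fintype.card (Ix n) = 2 * (n * (n - 1)) ∧
  ∃ c₀ : ℂ, c₀ ≠ 0 ∧ ∀ g : Bool → Matrix (Fin n) (Fin n) ℂ,
    MvPolynomial.eval (pt g 0) (PP (OM a b) (n * (n - 1))) = c₀

/-! ### the forms on the group -/

/-- Cnc: `Ω` is closed and `dθ = ∂ Ω / ∂ κ`, in the frame.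

Proof.  `dl ξ (mA w a) = aD w a ξ`.  `aD w a ξ` is linear in `ξ` and `0` if `ξ w` is diagonal.
`dl ξ (aD w a η) - dl η (aD w a ξ) = aD w a ⁅ξ, η⁆`, `⁅ξ, η⁆ w = ξ w * η w - η w * ξ w`.  So for all `ξ, η, ζ`
`dl ξ (Om η ζ) + dl η (Om ζ ξ) + dl ζ (Om ξ η) = Om ⁅ξ, η⁆ ζ + Om ⁅η, ζ⁆ ξ + Om ⁅ζ, ξ⁆ η` (the constant part: Jacobi;
`trace (dg * ..)`), `dk (Om ξ η) = dl ξ (th η) - dl η (th ξ) - th ⁅ξ, η⁆`.  `⁅bas i, bas j⁆` is
`∑_l cc i j l • bas l` plus diagonal matrices, and `Om`, `th` of diagonal matrices are `0`. -/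
def St_Cnc : Prop := ∀ (n : ℕ) (a b : Fin n → ℝ),
  (∀ i j : Ix n, OM a b j i = -OM a b i j) ∧ (∀ i : Ix n, OM a b i i = 0) ∧
  (∀ i j l : Ix n, l = i ∨ l = j → cc i j l = 0) ∧
  (∀ i j k : Ix n, dl (bas i) (OM a b j k) + dl (bas j) (OM a b k i) + dl (bas k) (OM a b i j) =
    ∑ l, (MvPolynomial.C (cc i j l) * OM a b l k + MvPolynomial.C (cc j k l) * OM a b l i +
      MvPolynomial.C (cc k i l) * OM a b l j)) ∧
  ∀ i j : Ix n, dk (OM a b i j) = dl (bas i) (TH a b j) - dl (bas j) (TH a b i) -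
    ∑ l, MvPolynomial.C (cc i j l) * TH a b l

/-- Mom: `F_κ` is a moment map, at the points of the group.

Proof.  `X := -2 m s (1 - s tr (F - Z)²) ^ (m-1) (F - Z)` at the point, so `ev (δ (hh ..)) = trace (X * ev (δ F))` for
`δ = dl ξ` and `δ = dk`.  With `U = g false`, `V = g true`, `Ud = Uᴴ`: `x (w, (p, q)) = I * ((g w)ᴴ * X * g w) p q`.
`∑_j x_j Om (bas j) η = Om ξ η` at the point, for `ξ w = I • (g w)ᴴ * X * g w` (diagonal parts do not matter), and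
`ev (aD w a ξ) = g w * (ξ w * dg a - dg a * ξ w) * (g w)ᴴ = I • (X * A - A * X)` as `g w * (g w)ᴴ = 1`.
`ev (dl η FF) = U [η false, dg a²] Uᴴ + V [η true, dg b²] Vᴴ + κ I ([aD η A, B] + [A, aD η B])`: cyclicity of the trace
gives `trace (X * ev (dl η FF)) = ev (Om ξ η)`, for every `η`.
`ev (dk FF) = I • (A B - B A)` and `ev (th ξ) = trace (A * I • (X B - B X)) = - I trace (X (A B - B A))`. -/
def St_Mom : Prop := ∀ (n : ℕ) (a b : Fin n → ℝ) (Z : Matrix (Fin n) (Fin n) ℂ) (s : ℝ) (m : ℕ)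
  (g : Bool → Matrix (Fin n) (Fin n) ℂ) (κ : ℂ), (∀ w, g w * (g w)ᴴ = 1) →
  ∃ x : Ix n → ℂ,
    (∀ k, MvPolynomial.eval (pt g κ) (dl (bas k) (hh a b Z s m)) =
      ∑ j, x j * MvPolynomial.eval (pt g κ) (OM a b j k)) ∧
    MvPolynomial.eval (pt g κ) (dk (hh a b Z s m)) =
      -∑ j, x j * MvPolynomial.eval (pt g κ) (TH a b j)

/-- Haa: Haar measure on `U(n) × U(n)`.

Proof.  `Gp n` is a compact topological group (`isCompact_U` of `Helper44/Cart/Closed1.lean`,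
`unitary` is a topological group in Mathlib); `μ` = `haarMeasure` of everything, for the Borel sets.
For a continuous function `Φ (t, u)` on `ℝ × Gp n` with continuous derivative `Ψ (t, u)` with respect to `t`,
`t ↦ ∫ Φ (t, u)` has the derivative `∫ Ψ (t, u)` (`hasDerivAt_integral_of_dominated_loc_of_deriv_le`, bounded on
compact sets).  `der`: `evu u κ f` is a polynomial in `κ` with the derivative `evu u κ (dk f)` (chain rule,
`MvPolynomial.induction_on`).  `inv`: both sides are linear in `ξ`, so let `ξ` be skew-Hermitian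
(`ξ = (ξ - ξᴴ) / 2 + I • ((ξ + ξᴴ) / (2 I))`).  Left multiplication of `u` by the unitary
`v t w = exp (- t ξ w)`: the matrices `(u w)ᴴ` become `(u w)ᴴ exp (t ξ w)`, so
`d/dt evu (v t * u) κ f = evu (v t * u) κ (dl ξ f)`, and `∫ evu (v t * u) κ f` is constant. -/
def St_Haa : Prop := ∀ n : ℕ, ∃ (_ : MeasurableSpace (Gp n)) (_ : BorelSpace (Gp n))
  (μ : Measure (Gp n)), HD n μ

/-! ### the conclusion -/

/-- Inv (`thm_Inv (h1 : St_Sta) (h2 : St_Cnc) (h3 : St_Mom)`): the invariance.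

Proof.  `N = n (n - 1)`, `h = hh ..`, `P = PP (OM a b) N`, `z = ZZ (OM a b) (TH a b) N`.  By `Sta` over `Rg n`
(`δ_i = dl (bas i)`, `D = dk`, `c = C (cc ..)`), evaluated at a point of the group, and `Mom`:
`2 N ∑ ev (dl (bas i) (h z_i)) = 2 N ∑_i (∑_j x_j ev Ω_ji) ev z_i + ev h ev (dk P) = -(∑ x_j ev θ_j) ev P + ev h ev (dk P)
= ev (dk (h P))` (second identity of `Sta` over `ℂ`, or over `Rg n` with `x_j` constants).  So
`∫ evu u κ (dk (h P)) = 0` (`HD.inv`), and `HD.der`. -/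
def St_Inv : Prop := ∀ (n : ℕ) [MeasurableSpace (Gp n)] [BorelSpace (Gp n)]
  (μ : Measure (Gp n)), HD n μ → Fintype.card (Ix n) = 2 * (n * (n - 1)) →
  ∀ (a b : Fin n → ℝ) (Z : Matrix (Fin n) (Fin n) ℂ) (s : ℝ) (m : ℕ),
    ∫ u, evu u 0 (hh a b Z s m * PP (OM a b) (n * (n - 1))) ∂μ =
      ∫ u, evu u 1 (hh a b Z s m * PP (OM a b) (n * (n - 1))) ∂μ

/-- Fin (`thm_Fin (h1 : St_Haa) (h2 : St_Inv) (h3 : St_Non)`): regular spectra.

Proof.  `Z := G 0 (dg a) (V * dg b * Vᴴ) = W dg γ Wᴴ`.  For `u` in the group let `A = U dg a Uᴴ`, `B = V dg b Vᴴ`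
(`U = (u false)ᴴ`, ..), `q_κ(u) = trace ((G κ A B - Z)²)`, real, `≥ 0`, continuous, and `evu u κ (hh ..) = (1 - s q_κ(u)) ^ m`.  If
`SolG 1 a b γ` is false then `q_1 > 0` everywhere (`G 1 A B = Z` would give `G 1 (dg a) (Uᴴ B U) = (Uᴴ W) dg γ (Uᴴ W)ᴴ`), so
`q_1 ≥ δ > 0` (compactness); `q_0, q_1 ≤ 1 / s` for a suitable `s > 0`; `q_0 (u₀) = 0` for some `u₀`, so the open set
`O = {q_0 < δ / 2}` is not empty.  `Inv` and `Non`: `|c₀| μ(O) (1 - s δ / 2) ^ m ≤ |c₀ ∫ (1 - s q_0) ^ m| = |∫ (1 - s q_1) ^ m D_1| ≤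
C (1 - s δ) ^ m` for all `m`: a contradiction. -/
def St_Fin : Prop := ∀ (n : ℕ) (a b γ : Fin n → ℝ), (∀ i j, a i ^ 2 = a j ^ 2 → i = j) →
  (∀ i j, b i ^ 2 = b j ^ 2 → i = j) → SolG 0 a b γ → SolG 1 a b γ

/-- Lim (`thm_Lim (h : St_Fin)`): all spectra.

Proof.  As `tr_closed` of `Helper69/Cart/Trans.lean` with `κ0 = 0`, `κ1 = 1`: `a_m → a`, `b_m → b` with distinct squares
(for example `a i + t (i + 1)` for small `t > 0`: for `i ≠ j` only finitely many `t` are bad). -/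
def St_Lim : Prop := ∀ (n : ℕ) (a b γ : Fin n → ℝ), SolG 0 a b γ → SolG 1 a b γ

end Pool.Agent.DHC
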